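import Mathlib

set_option autoImplicit false

/-!
# SQ: basic definitions

`Q = [0,1]^ℕ`.  `Defic Z`: the set `Z` in the space `A` is infinitely deficient, i.e. some homeomorphism
`A ≃ Q × Q` carries `Z` into `Q × {0}` (`0 = (0,0,0,...)`, an END point in every coordinate).
-/

namespace Pool.Agent.H56.SQ

open unitInterval

/-- The Hilbert cube. -/
abbrev Q : Type := ℕ → I

/-- `Z` is infinitely deficient in `A`. -/
def Defic {A : Type} [TopologicalSpace A] (Z : Set A) : Prop :=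
  ∃ α : A ≃ₜ Q × Q, ∀ z ∈ Z, (α z).2 = 0

theorem Defic.mono {A : Type} [TopologicalSpace A] {Z Z' : Set A} (h : Defic Z') (hZ : Z ⊆ Z') :
    Defic Z := by
  obtain ⟨α, hα⟩ := h
  exact ⟨α, fun z hz => hα z (hZ hz)⟩

theorem Defic.image {A B : Type} [TopologicalSpace A] [TopologicalSpace B] {Z : Set A}
    (h : Defic Z) (f : A ≃ₜ B) : Defic (f '' Z) := by
  obtain ⟨α, hα⟩ := h
  refine ⟨f.symm.trans α, ?_⟩
  rintro _ ⟨z, hz, rfl⟩
  simpa using hα z hz

end Pool.Agent.H56.SQ
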