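import Mathlib

set_option autoImplicit false

/-!
# SQ-01: the planar rotation family

I = unitInterval = [0,1], sigma = 1 - x.  We need homeomorphisms `rot t` of the square `I x I`, jointly
continuous together with the inverses, with `rot 0 = id`, `rot t (0,0) = (t,0)` and
`(rot 1)⁻¹ (c,o) = (o, 1 - c)`.

Construction.  In coordinates of `[-1,1]^2` (affine, `x = 2 a - 1`) put, for `v = (x,y)`,
`N v = max |x| |y|`, `m_t (x,y) = ((1-t) x - t y, t x + (1-t) y)` (complex multiplication by `(1-t) + i t`)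
and `n_t (x,y) = ((1-t) x + t y, -t x + (1-t) y)` (multiplication by the conjugate; `n_t (m_t v) =
((1-t)^2+t^2) v`).  `rot t v = (N v / N (m_t v)) m_t v`, `rot t 0 = 0`, inverse
`(N v / N (n_t v)) n_t v`.  Both preserve `N`, so both are continuous at `v = 0` uniformly in `t`;
for `v ≠ 0` the denominator is `≥ N v / 2 > 0`, everything is continuous.  Note
`m_t (-1,-1) = (2t-1, -1)` has `N = 1`, so `rot t (-1,-1) = (2t-1,-1)`, which is `(t,0)` in `I x I`;
`m_1 (x,y) = (-y,x)`, `n_1 (x,y) = (y,-x)`, which is `(c,o) -> (o, 1-c)` in `I x I`.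
Inverse relations: `n_t (m_t v)` is a positive multiple of `v`, so
`rot^{-1} (rot v) = N v * v / N v = v`.
-/

namespace Pool.Agent.H56.SQ

open unitInterval

/-- Complex multiplication by `a + i b`. -/
def mulC (a b : ℝ) (v : ℝ × ℝ) : ℝ × ℝ := (a * v.1 - b * v.2, b * v.1 + a * v.2)

/-- Multiplication by `a + i b`, rescaled to preserve the sup norm. -/
noncomputable def rotC (a b : ℝ) (v : ℝ × ℝ) : ℝ × ℝ := (‖v‖ / ‖mulC a b v‖) • mulC a b v

theorem mulC_smul (a b c : ℝ) (v : ℝ × ℝ) : mulC a b (c • v) = c • mulC a b v := by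
  ext <;> simp [mulC] <;> ring

theorem mulC_conj (a b : ℝ) (v : ℝ × ℝ) : mulC a (-b) (mulC a b v) = (a ^ 2 + b ^ 2) • v := by
  ext <;> simp [mulC] <;> ring

theorem mulC_ne_zero {a b : ℝ} (h : 0 < a ^ 2 + b ^ 2) {v : ℝ × ℝ} (hv : v ≠ 0) :
    mulC a b v ≠ 0 := by
  intro h0
  have h1 := mulC_conj a b v
  rw [h0] at h1
  have h2 : mulC a (-b) 0 = 0 := by ext <;> simp [mulC]
  rw [h2] at h1
  rcases smul_eq_zero.mp h1.symm with h3 | h3
  · exact h.ne' h3
  · exact hv h3

theorem rotC_zero (a b : ℝ) : rotC a b 0 = 0 := by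
  have h2 : mulC a b 0 = 0 := by ext <;> simp [mulC]
  simp [rotC, h2]

theorem norm_rotC_le (a b : ℝ) (v : ℝ × ℝ) : ‖rotC a b v‖ ≤ ‖v‖ := by
  unfold rotC
  rw [norm_smul, Real.norm_eq_abs, abs_of_nonneg (by positivity)]
  by_cases h : ‖mulC a b v‖ = 0
  · rw [h]; simp
  · rw [div_mul_cancel₀ _ h]

theorem norm_rotC {a b : ℝ} (h : 0 < a ^ 2 + b ^ 2) (v : ℝ × ℝ) : ‖rotC a b v‖ = ‖v‖ := by
  by_cases hv : v = 0
  · subst hv; rw [rotC_zero]
  · unfold rotC
    rw [norm_smul, Real.norm_eq_abs, abs_of_nonneg (by positivity)]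
    rw [div_mul_cancel₀ _ (norm_ne_zero_iff.mpr (mulC_ne_zero h hv))]

theorem rotC_rotC {a b : ℝ} (h : 0 < a ^ 2 + b ^ 2) (v : ℝ × ℝ) :
    rotC a (-b) (rotC a b v) = v := by
  by_cases hv : v = 0
  · subst hv; rw [rotC_zero, rotC_zero]
  · have hm : 0 < ‖mulC a b v‖ := norm_pos_iff.mpr (mulC_ne_zero h hv)
    have hn : 0 < ‖v‖ := norm_pos_iff.mpr hv
    have hc : 0 < ‖v‖ / ‖mulC a b v‖ := div_pos hn hm
    have h1 : mulC a (-b) (rotC a b v) = ((‖v‖ / ‖mulC a b v‖) * (a ^ 2 + b ^ 2)) • v := by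
      rw [rotC, mulC_smul, mulC_conj, smul_smul]
    have h2 : rotC a (-b) (rotC a b v)
        = (‖rotC a b v‖ / ‖mulC a (-b) (rotC a b v)‖) • mulC a (-b) (rotC a b v) := rfl
    rw [h2, norm_rotC h, h1, norm_smul, smul_smul, Real.norm_eq_abs,
      abs_of_pos (mul_pos hc h)]
    have h3 : ‖v‖ / (‖v‖ / ‖mulC a b v‖ * (a ^ 2 + b ^ 2) * ‖v‖)
        * (‖v‖ / ‖mulC a b v‖ * (a ^ 2 + b ^ 2)) = 1 := by
      field_simp
    rw [h3, one_smul]

theorem rotC_rotC' {a b : ℝ} (h : 0 < a ^ 2 + b ^ 2) (v : ℝ × ℝ) :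
    rotC a b (rotC a (-b) v) = v := by
  have h' : 0 < a ^ 2 + (-b) ^ 2 := by rw [neg_sq]; exact h
  have := rotC_rotC h' v
  rwa [neg_neg] at this

theorem continuous_rotC {X : Type} [TopologicalSpace X] {a b : X → ℝ} {f : X → ℝ × ℝ}
    (ha : Continuous a) (hb : Continuous b) (hf : Continuous f)
    (h : ∀ x, 0 < a x ^ 2 + b x ^ 2) : Continuous (fun x => rotC (a x) (b x) (f x)) := by
  have hm : Continuous (fun x => mulC (a x) (b x) (f x)) := by
    unfold mulC
    fun_prop
  rw [continuous_iff_continuousAt]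
  intro x
  by_cases hx : f x = 0
  · have h0 : rotC (a x) (b x) (f x) = 0 := by rw [hx, rotC_zero]
    show Filter.Tendsto (fun x => rotC (a x) (b x) (f x)) (nhds x) (nhds (rotC (a x) (b x) (f x)))
    rw [h0]
    apply squeeze_zero_norm (a := fun y => ‖f y‖)
    · intro y; exact norm_rotC_le _ _ _
    · have := (hf.norm).tendsto x
      simpa [hx] using this
  · have hne : ‖mulC (a x) (b x) (f x)‖ ≠ 0 := norm_ne_zero_iff.mpr (mulC_ne_zero (h x) hx)
    unfold rotC
    exact ContinuousAt.smul (ContinuousAt.div hf.norm.continuousAt hm.norm.continuousAt hne)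
      hm.continuousAt

/-- The square as a subset of the plane. -/
def toPl (p : I × I) : ℝ × ℝ := (2 * (p.1 : ℝ) - 1, 2 * (p.2 : ℝ) - 1)

/-- The retraction of the plane to the square. -/
noncomputable def ofPl (v : ℝ × ℝ) : I × I :=
  (Set.projIcc 0 1 zero_le_one ((v.1 + 1) / 2), Set.projIcc 0 1 zero_le_one ((v.2 + 1) / 2))

theorem continuous_toPl : Continuous toPl := by
  unfold toPl
  fun_prop

theorem continuous_ofPl : Continuous ofPl := by
  unfold ofPl
  refine Continuous.prodMk ?_ ?_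
  · exact continuous_projIcc.comp (by fun_prop)
  · exact continuous_projIcc.comp (by fun_prop)

theorem ofPl_toPl (p : I × I) : ofPl (toPl p) = p := by
  unfold ofPl toPl
  ext
  · simp only
    rw [show (2 * (p.1 : ℝ) - 1 + 1) / 2 = (p.1 : ℝ) by ring, Set.projIcc_val]
  · simp only
    rw [show (2 * (p.2 : ℝ) - 1 + 1) / 2 = (p.2 : ℝ) by ring, Set.projIcc_val]

theorem norm_toPl_le (p : I × I) : ‖toPl p‖ ≤ 1 := by
  unfold toPl
  rw [Prod.norm_def]
  have h1 := p.1.2
  have h2 := p.2.2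
  simp only [Set.mem_Icc] at h1 h2
  apply max_le
  · rw [Real.norm_eq_abs, abs_le]; constructor <;> simp only <;> linarith [h1.1, h1.2]
  · rw [Real.norm_eq_abs, abs_le]; constructor <;> simp only <;> linarith [h2.1, h2.2]

theorem toPl_ofPl {v : ℝ × ℝ} (hv : ‖v‖ ≤ 1) : toPl (ofPl v) = v := by
  have h1 : |v.1| ≤ 1 := le_trans (by rw [Prod.norm_def]; exact le_max_left _ _) hv
  have h2 : |v.2| ≤ 1 := le_trans (by rw [Prod.norm_def]; exact le_max_right _ _) hv
  rw [abs_le] at h1 h2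
  unfold ofPl toPl
  ext
  · simp only
    rw [Set.projIcc_of_mem zero_le_one (x := (v.1 + 1) / 2) ⟨by linarith [h1.1], by linarith [h1.2]⟩]
    simp only
    ring
  · simp only
    rw [Set.projIcc_of_mem zero_le_one (x := (v.2 + 1) / 2) ⟨by linarith [h2.1], by linarith [h2.2]⟩]
    simp only
    ring

theorem rotPos (t : ℝ) : 0 < (1 - t) ^ 2 + t ^ 2 := by nlinarith [sq_nonneg (1 - 2 * t)]

theorem rotPos' (t : ℝ) : 0 < (1 - t) ^ 2 + (-t) ^ 2 := by nlinarith [sq_nonneg (1 - 2 * t)]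

/-- The rotation family. -/
noncomputable def rotH (t : I) : (I × I) ≃ₜ (I × I) where
  toFun p := ofPl (rotC (1 - (t : ℝ)) t (toPl p))
  invFun p := ofPl (rotC (1 - (t : ℝ)) (-(t : ℝ)) (toPl p))
  left_inv p := by
    simp only
    rw [toPl_ofPl (le_trans (norm_rotC_le _ _ _) (norm_toPl_le p)), rotC_rotC (rotPos t), ofPl_toPl]
  right_inv p := by
    simp only
    rw [toPl_ofPl (le_trans (norm_rotC_le _ _ _) (norm_toPl_le p)), rotC_rotC' (rotPos t), ofPl_toPl]
  continuous_toFun := continuous_ofPl.comp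
    (continuous_rotC continuous_const continuous_const continuous_toPl (fun _ => rotPos t))
  continuous_invFun := continuous_ofPl.comp
    (continuous_rotC continuous_const continuous_const continuous_toPl (fun _ => rotPos' t))

theorem exists_rot : ∃ rot : I → (I × I) ≃ₜ (I × I),
    Continuous (fun p : I × (I × I) => rot p.1 p.2) ∧
    Continuous (fun p : I × (I × I) => (rot p.1).symm p.2) ∧
    (∀ p, rot 0 p = p) ∧
    (∀ t, rot t (0, 0) = (t, 0)) ∧
    (∀ c o, (rot 1).symm (c, o) = (o, σ c)) := by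
  refine ⟨rotH, ?_, ?_, ?_, ?_, ?_⟩
  · exact continuous_ofPl.comp (continuous_rotC (by fun_prop) (by fun_prop)
      (continuous_toPl.comp continuous_snd) (fun p => rotPos p.1))
  · exact continuous_ofPl.comp (continuous_rotC (by fun_prop) (by fun_prop)
      (continuous_toPl.comp continuous_snd) (fun p => rotPos' p.1))
  · intro p
    have h1 : mulC 1 0 (toPl p) = toPl p := by ext <;> simp [mulC]
    have h2 : rotC 1 0 (toPl p) = toPl p := by
      by_cases h0 : toPl p = 0
      · rw [h0, rotC_zero]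
      · unfold rotC
        rw [h1, div_self (norm_ne_zero_iff.mpr h0), one_smul]
    show ofPl (rotC (1 - ((0 : I) : ℝ)) ((0 : I) : ℝ) (toPl p)) = p
    rw [show ((0 : I) : ℝ) = 0 from rfl, sub_zero, h2, ofPl_toPl]
  · intro t
    show ofPl (rotC (1 - (t : ℝ)) t (toPl (0, 0))) = (t, 0)
    have ht := t.2
    have h1 : mulC (1 - (t : ℝ)) t (toPl (0, 0)) = toPl (t, 0) := by
      ext
      · simp [mulC, toPl]; ring
      · simp [mulC, toPl]; ring
    have h2 : ‖toPl ((0 : I), (0 : I))‖ = 1 := by simp [toPl, Prod.norm_def]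
    have h3 : ‖toPl (t, (0 : I))‖ = 1 := by
      apply le_antisymm (norm_toPl_le _)
      rw [Prod.norm_def]
      apply le_max_of_le_right
      simp [toPl]
    rw [rotC, h1, h2, h3, div_one, one_smul, ofPl_toPl]
  · intro c o
    show ofPl (rotC (1 - ((1 : I) : ℝ)) (-((1 : I) : ℝ)) (toPl (c, o))) = (o, σ c)
    have h1 : mulC 0 (-1) (toPl (c, o)) = toPl (o, σ c) := by
      ext
      · simp [mulC, toPl]
      · simp [mulC, toPl, unitInterval.coe_symm_eq]; ring
    have h2 : ‖toPl (o, σ c)‖ = ‖toPl (c, o)‖ := by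
      rw [← h1, Prod.norm_def, Prod.norm_def, max_comm]
      simp [mulC]
    have h3 : rotC 0 (-1) (toPl (c, o)) = toPl (o, σ c) := by
      by_cases h0 : toPl (c, o) = 0
      · rw [h0, rotC_zero]
        have : ‖toPl (o, σ c)‖ = 0 := by rw [h2, h0, norm_zero]
        exact (norm_eq_zero.mp this).symm
      · unfold rotC
        rw [h1, h2, div_self (norm_ne_zero_iff.mpr h0), one_smul]
    rw [show ((1 : I) : ℝ) = 1 from rfl, sub_self, h3, ofPl_toPl]

end Pool.Agent.H56.SQ
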