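import Mathlib
import Pool.Agent.H56.SQ.Rot

set_option autoImplicit false

/-!
# SQ-02: insertion

For `ψ > 0` the map `ins ψ : (ι → I) × (ℕ → ι → I) → (ℕ → ι → I)` is a bijection, jointly continuous in
all variables INCLUDING `ψ = 0` (where it forgets `e` and is the identity in `o`), and `ins 1` is `cons`.

Construction.  Let `rot` be as in `exists_rot`.  For `ψ > 0` put `τ = 1/ψ - 1 ≥ 0` and
`t n = projIcc (τ - n)` (clamped to `[0,1]`).  For every `i : ι` define the carry `c` by
`c 0 = e i`, `(out n, c (n+1)) = (rot (t n)).symm (c n, o n i)`, and `ins ψ e o n i = out n`.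
Facts.  (a) If `t n = 1` then `out n = o n i`, `c (n+1) = σ (c n)`.  (b) If `t n = 0` then `out n = c n`,
`c (n+1) = o n i`.  (c) `t n = 0` for `n ≥ τ`; `t n = 1` for `n ≤ τ - 1`.
For `ψ = 0` put `ins 0 e o = o`.
Continuity: every `out n` (fixed `n`, `i`) is a finite composition, so it is continuous on `{ψ > 0}`; for
`ψ < 1/(n+2)` we have `τ > n+1`, hence `t k = 1` for all `k ≤ n`, so `out n = o n i` near every point with
`ψ = 0` (and it is `o n i` at `ψ = 0`): continuous there as well.
Bijectivity for `ψ > 0`: choose `N ≥ τ`.  For `n ≥ N`: `out n = c n`, `o n i = c (n+1) = out (n+1)`.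
So `c N = out N`, `o n i = out (n+1)` for `n ≥ N`, and for `n < N`, going down,
`(c n, o n i) = rot (t n) (out n, c (n+1))`: this gives injectivity and surjectivity.
`ψ = 1`: `τ = 0`, all `t n = 0`: `out 0 = e i`, `out (n+1) = c (n+1) = o n i`.
-/

namespace Pool.Agent.H56.SQ

open unitInterval

/-- The angle at level `n`: `projIcc (1/ψ - 1 - n)` for `ψ ≥ 1/(n+2)`, and `1` for smaller `ψ`. -/
noncomputable def insT (ψ : I) (n : ℕ) : I :=
  Set.projIcc (0 : ℝ) 1 zero_le_one
    ((1 - ((n : ℝ) + 1) * (ψ : ℝ)) / max (ψ : ℝ) (1 / ((n : ℝ) + 2)))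

theorem insT_den_pos (ψ : I) (n : ℕ) : (0 : ℝ) < max (ψ : ℝ) (1 / ((n : ℝ) + 2)) :=
  lt_max_of_lt_right (by positivity)

theorem continuous_insT (n : ℕ) : Continuous (fun ψ : I => insT ψ n) := by
  refine continuous_projIcc.comp ?_
  refine Continuous.div (by fun_prop) (by fun_prop) ?_
  intro ψ
  exact (insT_den_pos ψ n).ne'

theorem insT_zero (n : ℕ) : insT 0 n = 1 := by
  have h1 : (1 : ℝ) ≤ (1 - ((n : ℝ) + 1) * ((0 : I) : ℝ)) / max ((0 : I) : ℝ) (1 / ((n : ℝ) + 2)) := by
    rw [le_div_iff₀ (insT_den_pos 0 n)]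
    have h2 : (1 : ℝ) / ((n : ℝ) + 2) ≤ 1 := by
      rw [div_le_one (by positivity)]
      have : (0 : ℝ) ≤ n := Nat.cast_nonneg n
      linarith
    have h3 : max ((0 : I) : ℝ) (1 / ((n : ℝ) + 2)) ≤ 1 := max_le (by norm_num) h2
    have h4 : ((0 : I) : ℝ) = 0 := rfl
    rw [h4] at h3 ⊢
    linarith
  unfold insT
  rw [Set.projIcc_of_right_le _ h1]
  rfl

theorem insT_eq_zero {ψ : I} {n : ℕ} (h : (1 : ℝ) ≤ ((n : ℝ) + 1) * (ψ : ℝ)) : insT ψ n = 0 := by
  have h1 : (1 - ((n : ℝ) + 1) * (ψ : ℝ)) / max (ψ : ℝ) (1 / ((n : ℝ) + 2)) ≤ 0 :=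
    div_nonpos_of_nonpos_of_nonneg (by linarith) (insT_den_pos ψ n).le
  unfold insT
  rw [Set.projIcc_of_le_left _ h1]
  rfl

/-- The carries. -/
noncomputable def insC (rot : I → (I × I) ≃ₜ (I × I)) (ψ : I) (e : I) (o : ℕ → I) : ℕ → I
  | 0 => e
  | n + 1 => ((rot (insT ψ n)).symm (insC rot ψ e o n, o n)).2

/-- The outputs. -/
noncomputable def insO (rot : I → (I × I) ≃ₜ (I × I)) (ψ : I) (e : I) (o : ℕ → I) (n : ℕ) : I :=
  ((rot (insT ψ n)).symm (insC rot ψ e o n, o n)).1

theorem insC_succ (rot : I → (I × I) ≃ₜ (I × I)) (ψ : I) (e : I) (o : ℕ → I) (n : ℕ) :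
    insC rot ψ e o (n + 1) = ((rot (insT ψ n)).symm (insC rot ψ e o n, o n)).2 := rfl

theorem rot_insO (rot : I → (I × I) ≃ₜ (I × I)) (ψ : I) (e : I) (o : ℕ → I) (n : ℕ) :
    rot (insT ψ n) (insO rot ψ e o n, insC rot ψ e o (n + 1)) = (insC rot ψ e o n, o n) := by
  rw [insC_succ, insO]
  exact (rot (insT ψ n)).apply_symm_apply _

theorem continuous_insC {X : Type} [TopologicalSpace X] (rot : I → (I × I) ≃ₜ (I × I))
    (hc : Continuous (fun p : I × (I × I) => (rot p.1).symm p.2))
    {ψ : X → I} {e : X → I} {o : X → ℕ → I} (hψ : Continuous ψ) (he : Continuous e)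
    (ho : ∀ n, Continuous (fun x => o x n)) (n : ℕ) :
    Continuous (fun x => insC rot (ψ x) (e x) (o x) n) := by
  induction n with
  | zero => exact he
  | succ n ih =>
    have h1 : Continuous (fun x => (insT (ψ x) n, (insC rot (ψ x) (e x) (o x) n, o x n))) :=
      ((continuous_insT n).comp hψ).prodMk (ih.prodMk (ho n))
    exact continuous_snd.comp (hc.comp h1)

theorem continuous_insO {X : Type} [TopologicalSpace X] (rot : I → (I × I) ≃ₜ (I × I))
    (hc : Continuous (fun p : I × (I × I) => (rot p.1).symm p.2))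
    {ψ : X → I} {e : X → I} {o : X → ℕ → I} (hψ : Continuous ψ) (he : Continuous e)
    (ho : ∀ n, Continuous (fun x => o x n)) (n : ℕ) :
    Continuous (fun x => insO rot (ψ x) (e x) (o x) n) := by
  have h1 : Continuous (fun x => (insT (ψ x) n, (insC rot (ψ x) (e x) (o x) n, o x n))) :=
    ((continuous_insT n).comp hψ).prodMk ((continuous_insC rot hc hψ he ho n).prodMk (ho n))
  exact continuous_fst.comp (hc.comp h1)

/-- Solving `c n = F n (c (n+1))` when `F n` is constant for `n ≥ N`. -/
theorem exists_back {α : Type} [Inhabited α] (N : ℕ) : ∀ F : ℕ → α → α,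
    (∀ n, N ≤ n → ∀ x y, F n x = F n y) → ∃ c : ℕ → α, ∀ n, c n = F n (c (n + 1)) := by
  induction N with
  | zero =>
    intro F hF
    exact ⟨fun n => F n default, fun n => hF n (Nat.zero_le n) _ _⟩
  | succ N ih =>
    intro F hF
    obtain ⟨c, hc⟩ := ih (fun n => F (n + 1)) (fun n hn x y => hF (n + 1) (by omega) x y)
    refine ⟨fun n => Nat.casesOn n (F 0 (c 0)) c, ?_⟩
    intro n
    cases n with
    | zero => rfl
    | succ n => exact hc n

theorem exists_ins (ι : Type) : ∃ ins : I → (ι → I) → (ℕ → ι → I) → (ℕ → ι → I),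
    Continuous (fun p : I × (ι → I) × (ℕ → ι → I) => ins p.1 p.2.1 p.2.2) ∧
    (∀ e o, ins 0 e o = o) ∧
    (∀ ψ : I, 0 < ψ →
      Function.Bijective (fun p : (ι → I) × (ℕ → ι → I) => ins ψ p.1 p.2)) ∧
    (∀ e o, ins 1 e o 0 = e) ∧
    (∀ e o n, ins 1 e o (n + 1) = o n) := by
  obtain ⟨rot, -, hc, h0, -, h1⟩ := exists_rot
  have hs0 : ∀ p, (rot 0).symm p = p := by
    intro p
    rw [Homeomorph.symm_apply_eq, h0]
  -- for `ψ = 1` or large `n` the step is the identity
  have hO : ∀ (ψ e : I) (o : ℕ → I) (n : ℕ), (1 : ℝ) ≤ ((n : ℝ) + 1) * (ψ : ℝ) →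
      insO rot ψ e o n = insC rot ψ e o n ∧ insC rot ψ e o (n + 1) = o n := by
    intro ψ e o n hn
    rw [insC_succ, insO, insT_eq_zero hn, hs0]
    exact ⟨rfl, rfl⟩
  refine ⟨fun ψ e o n i => insO rot ψ (e i) (fun m => o m i) n, ?_, ?_, ?_, ?_, ?_⟩
  · refine continuous_pi fun n => continuous_pi fun i => ?_
    exact continuous_insO rot hc (ψ := fun p : I × (ι → I) × (ℕ → ι → I) => p.1)
      (e := fun p => p.2.1 i) (o := fun p m => p.2.2 m i) (by fun_prop) (by fun_prop)
      (fun n => by fun_prop) n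
  · intro e o
    funext n i
    show insO rot 0 (e i) (fun m => o m i) n = o n i
    rw [insO, insT_zero, h1]
  · intro ψ hψ
    have hψ' : (0 : ℝ) < (ψ : ℝ) := hψ
    obtain ⟨N, hN⟩ : ∃ N : ℕ, (1 : ℝ) / (ψ : ℝ) ≤ N := exists_nat_ge _
    have hN' : ∀ n : ℕ, N ≤ n → (1 : ℝ) ≤ ((n : ℝ) + 1) * (ψ : ℝ) := by
      intro n hn
      have h2 : (N : ℝ) ≤ n := by exact_mod_cast hn
      rw [div_le_iff₀ hψ'] at hN
      nlinarith
    constructor
    · rintro ⟨e, o⟩ ⟨e', o'⟩ heq
      have hout : ∀ i n, insO rot ψ (e i) (fun m => o m i) n =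
          insO rot ψ (e' i) (fun m => o' m i) n := fun i n => congrFun (congrFun heq n) i
      have hcar : ∀ i n, insC rot ψ (e i) (fun m => o m i) n =
          insC rot ψ (e' i) (fun m => o' m i) n := by
        intro i
        have hbig : ∀ n, N ≤ n → insC rot ψ (e i) (fun m => o m i) n =
            insC rot ψ (e' i) (fun m => o' m i) n := by
          intro n hn
          rw [← (hO ψ (e i) (fun m => o m i) n (hN' n hn)).1,
            ← (hO ψ (e' i) (fun m => o' m i) n (hN' n hn)).1]
          exact hout i n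
        have hstep : ∀ n, insC rot ψ (e i) (fun m => o m i) (n + 1) =
            insC rot ψ (e' i) (fun m => o' m i) (n + 1) →
            insC rot ψ (e i) (fun m => o m i) n = insC rot ψ (e' i) (fun m => o' m i) n := by
          intro n hn
          have h2 := rot_insO rot ψ (e i) (fun m => o m i) n
          have h3 := rot_insO rot ψ (e' i) (fun m => o' m i) n
          rw [hn, hout i n, h3] at h2
          exact (congrArg Prod.fst h2).symm
        have hdown : ∀ k n, N ≤ n + k → insC rot ψ (e i) (fun m => o m i) n =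
            insC rot ψ (e' i) (fun m => o' m i) n := by
          intro k
          induction k with
          | zero => intro n hn; exact hbig n hn
          | succ k ih => intro n hn; exact hstep n (ih (n + 1) (by omega))
        intro n
        exact hdown N n (by omega)
      have hoo : ∀ i n, o n i = o' n i := by
        intro i n
        have h2 := rot_insO rot ψ (e i) (fun m => o m i) n
        have h3 := rot_insO rot ψ (e' i) (fun m => o' m i) n
        rw [hcar i (n + 1), hout i n, h3] at h2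
        exact (congrArg Prod.snd h2).symm
      refine Prod.ext ?_ ?_
      · funext i
        exact hcar i 0
      · funext n i
        exact hoo i n
    · intro w
      have hex : ∀ i, ∃ c : ℕ → I, ∀ n, c n = (rot (insT ψ n) (w n i, c (n + 1))).1 := by
        intro i
        haveI : Inhabited I := ⟨0⟩
        refine exists_back N (fun n x => (rot (insT ψ n) (w n i, x)).1) ?_
        intro n hn x y
        simp only [insT_eq_zero (hN' n hn), h0]
      choose c hcc using hex
      refine ⟨(fun i => c i 0, fun n i => (rot (insT ψ n) (w n i, c i (n + 1))).2), ?_⟩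
      have hkey : ∀ i n, insC rot ψ (c i 0)
          (fun m => (rot (insT ψ m) (w m i, c i (m + 1))).2) n = c i n := by
        intro i n
        induction n with
        | zero => rfl
        | succ n ih =>
          rw [insC_succ, ih]
          have h2 : (c i n, (rot (insT ψ n) (w n i, c i (n + 1))).2) =
              rot (insT ψ n) (w n i, c i (n + 1)) := Prod.ext (hcc i n) rfl
          show ((rot (insT ψ n)).symm (c i n, (rot (insT ψ n) (w n i, c i (n + 1))).2)).2 = _
          rw [h2, Homeomorph.symm_apply_apply]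
      funext n i
      show insO rot ψ (c i 0) (fun m => (rot (insT ψ m) (w m i, c i (m + 1))).2) n = w n i
      rw [insO, hkey]
      have h2 : (c i n, (rot (insT ψ n) (w n i, c i (n + 1))).2) =
          rot (insT ψ n) (w n i, c i (n + 1)) := Prod.ext (hcc i n) rfl
      show ((rot (insT ψ n)).symm (c i n, (rot (insT ψ n) (w n i, c i (n + 1))).2)).1 = _
      rw [h2, Homeomorph.symm_apply_apply]
  · intro e o
    funext i
    have h2 := (hO 1 (e i) (fun m => o m i) 0 (by norm_num)).1
    exact h2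
  · intro e o n
    funext i
    have h2 : ∀ n : ℕ, (1 : ℝ) ≤ ((n : ℝ) + 1) * ((1 : I) : ℝ) := by
      intro n
      have : (0 : ℝ) ≤ n := Nat.cast_nonneg n
      simp
    show insO rot 1 (e i) (fun m => o m i) (n + 1) = o n i
    rw [(hO 1 (e i) (fun m => o m i) (n + 1) (h2 _)).1, (hO 1 (e i) (fun m => o m i) n (h2 _)).2]

end Pool.Agent.H56.SQ
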