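import Mathlib
import Pool.Agent.H56.SQ.Basic
import Pool.Agent.H56.SQ.Ins

set_option autoImplicit false

/-!
# SQ-04a: the homeomorphism A x Q x Q = A x Q which moves a pushable face to (face) x {0} x Q

`push_homeo`.  Let `m x = ⨆ k, 2^{-(k+1)} x_k ∈ [0,1/2]` for `x : Q` (a continuous function on `Q`: it is a
uniform limit of finite suprema; `m x = 0` iff `x = 0`).  Let `ins` be `exists_ins ℕ` composed with a
reindexing `(ℕ → ℕ → I) ≃ₜ Q` (`ℕ × ℕ ≃ ℕ`).  Define `Θ : A × Q × Q → A × Q` by
  `Θ (a', x, o) = (a, ins r e o)`, `a = η (m x) a'`, `r = r a` (so `r ≥ m x`),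
  `e k = x k * max 1 (2^{-(k+1)} / r)` if `r > 0` (it lies in `[0,1]` because `2^{-(k+1)} x k ≤ m x ≤ r`),
  `e k = 0` (or anything) if `r = 0`.
Continuity: the coordinate `n` of `ins r e o` is jointly continuous on `{r > 0}` (there `e` is continuous),
and at a point with `r = 0`: the function `(ψ,e,o) ↦ ins ψ e o n` is continuous on the compact space
`I × (ℕ → I) × (ℕ → ℕ → I)` and does not depend on `e` at `ψ = 0`; hence (compactness of the `e`-space,
tube lemma) it tends to `ins 0 _ o n = o n` whatever `e` does.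
Injectivity/surjectivity.  Given `(a, w)` with `r = r a`.  If `r > 0`: `(e,o)` is the unique preimage of `w`
under `ins r`; `x k = e k / max 1 (2^{-(k+1)}/r) = e k * min 1 (2^{k+1} r)`, so `2^{-(k+1)} x k ≤ r`, i.e.
`m x ≤ r a`; as `a ∈ range (η (m x))` there is a unique `a'`.  If `r = 0`: `m x ≤ 0` forces `x = 0`,
`a' = a`, `o = w`.
Continuous bijection of compact Hausdorff spaces = homeomorphism.  For `r z = 0`: `Θ (z,0,o) = (z,o)`.
(`η` only matters for parameters `≤ 1/2`.)
-/

namespace Pool.Agent.H56.SQ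

open unitInterval

/-- the weights -/
noncomputable def cw (k : ℕ) : ℝ := (1 / 2) ^ (k + 1)

theorem cw_pos (k : ℕ) : 0 < cw k := by unfold cw; positivity

theorem cw_le_half (k : ℕ) : cw k ≤ 1 / 2 := by
  unfold cw
  rw [pow_succ]
  have : ((1 : ℝ) / 2) ^ k ≤ 1 := pow_le_one₀ (by norm_num) (by norm_num)
  linarith

theorem cw_anti {k l : ℕ} (h : k ≤ l) : cw l ≤ cw k := by
  unfold cw
  exact pow_le_pow_of_le_one (by norm_num) (by norm_num) (by omega)

/-- weighted supremum of the coordinates -/
noncomputable def msup (x : Q) : ℝ := ⨆ k, cw k * (x k : ℝ)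

theorem bdd_msup (x : Q) : BddAbove (Set.range fun k => cw k * (x k : ℝ)) := by
  refine ⟨1 / 2, ?_⟩
  rintro _ ⟨k, rfl⟩
  have h1 := cw_le_half k
  have h2 := cw_pos k
  have h3 := (x k).2.1
  have h4 := (x k).2.2
  show cw k * (x k : ℝ) ≤ 1 / 2
  nlinarith

theorem le_msup (x : Q) (k : ℕ) : cw k * (x k : ℝ) ≤ msup x := le_ciSup (bdd_msup x) k

theorem msup_le {x : Q} {a : ℝ} (h : ∀ k, cw k * (x k : ℝ) ≤ a) : msup x ≤ a := ciSup_le h

theorem msup_nonneg (x : Q) : 0 ≤ msup x :=
  (mul_nonneg (cw_pos 0).le (x 0).2.1).trans (le_msup x 0)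

theorem msup_le_half (x : Q) : msup x ≤ 1 / 2 := by
  refine msup_le fun k => ?_
  have h1 := cw_le_half k
  have h2 := cw_pos k
  have h3 := (x k).2.1
  have h4 := (x k).2.2
  nlinarith

theorem msup_zero : msup 0 = 0 := by
  refine le_antisymm (msup_le fun k => ?_) (msup_nonneg 0)
  simp

theorem eq_zero_of_msup {x : Q} (h : msup x = 0) : x = 0 := by
  funext k
  have h1 := le_msup x k
  rw [h] at h1
  have h2 := cw_pos k
  have h3 := (x k).2.1
  apply Subtype.ext
  show (x k : ℝ) = 0
  by_contra hne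
  have : 0 < (x k : ℝ) := lt_of_le_of_ne h3 (Ne.symm hne)
  have := mul_pos h2 this
  linarith

theorem continuous_msup : Continuous msup := by
  refine continuous_of_uniform_approx_of_continuous fun u hu => ?_
  obtain ⟨ε, hε, hεu⟩ := Metric.mem_uniformity_dist.1 hu
  obtain ⟨K, hK⟩ : ∃ K, cw K < ε := by
    obtain ⟨K, hK⟩ := exists_pow_lt_of_lt_one hε (show (1 / 2 : ℝ) < 1 by norm_num)
    refine ⟨K, lt_of_le_of_lt ?_ hK⟩
    unfold cw
    exact pow_le_pow_of_le_one (by norm_num) (by norm_num) (by omega)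
  refine ⟨fun x => (Finset.range (K + 1)).sup' Finset.nonempty_range_add_one fun k => cw k * (x k : ℝ), ?_, ?_⟩
  · apply Continuous.finset_sup'_apply
    intro k _
    exact continuous_const.mul (continuous_subtype_val.comp (continuous_apply k))
  · intro x
    apply hεu
    have h1 : (Finset.range (K + 1)).sup' Finset.nonempty_range_add_one (fun k => cw k * (x k : ℝ)) ≤ msup x :=
      Finset.sup'_le _ _ fun k _ => le_msup x k
    have h0 : 0 ≤ (Finset.range (K + 1)).sup' Finset.nonempty_range_add_one (fun k => cw k * (x k : ℝ)) :=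
      (mul_nonneg (cw_pos 0).le (x 0).2.1).trans
        (Finset.le_sup' (f := fun k => cw k * (x k : ℝ)) (by simp))
    have h2 : msup x ≤
        (Finset.range (K + 1)).sup' Finset.nonempty_range_add_one (fun k => cw k * (x k : ℝ)) + cw K := by
      refine msup_le fun k => ?_
      by_cases hk : k ≤ K
      · have := Finset.le_sup' (f := fun k => cw k * (x k : ℝ)) (s := Finset.range (K + 1))
          (b := k) (by simp; omega)
        have h3 := cw_pos K
        linarith
      · have h3 : cw k ≤ cw K := cw_anti (by omega)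
        have h4 := cw_pos k
        have h5 := (x k).2.1
        have h6 := (x k).2.2
        have h7 : cw k * (x k : ℝ) ≤ cw k := by nlinarith
        linarith
    rw [Real.dist_eq, abs_lt]
    constructor <;> linarith

/-- `msup` as a point of the interval -/
noncomputable def mI (x : Q) : I := ⟨msup x, msup_nonneg x, (msup_le_half x).trans (by norm_num)⟩

theorem continuous_mI : Continuous mI := continuous_msup.subtype_mk _

theorem coe_mI (x : Q) : (mI x : ℝ) = msup x := rfl

/-- the rescaled coordinates -/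
noncomputable def eC (r : I) (x : Q) : Q := fun k =>
  Set.projIcc (0 : ℝ) 1 zero_le_one ((x k : ℝ) * max 1 (cw k / (r : ℝ)))

theorem one_le_mx (r : I) (k : ℕ) : 1 ≤ max 1 (cw k / (r : ℝ)) := le_max_left _ _

theorem eC_coe {r : I} {x : Q} (hr : 0 < r) (hx : msup x ≤ r) (k : ℕ) :
    (eC r x k : ℝ) = (x k : ℝ) * max 1 (cw k / (r : ℝ)) := by
  have hr' : (0 : ℝ) < r := hr
  have h1 : (x k : ℝ) * max 1 (cw k / (r : ℝ)) ∈ Set.Icc (0 : ℝ) 1 := by
    refine ⟨mul_nonneg (x k).2.1 (zero_le_one.trans (one_le_mx r k)), ?_⟩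
    rcases le_total 1 (cw k / (r : ℝ)) with h | h
    · rw [max_eq_right h, mul_div_assoc', div_le_one hr', mul_comm]
      exact (le_msup x k).trans hx
    · rw [max_eq_left h, mul_one]
      exact (x k).2.2
  unfold eC
  rw [Set.projIcc_of_mem zero_le_one h1]

/-- A reindexing of the coordinates. -/
def reidx : (ℕ → ℕ → I) ≃ₜ Q where
  toFun f n := f n.unpair.1 n.unpair.2
  invFun w i j := w (Nat.pair i j)
  left_inv f := by
    funext i j
    simp
  right_inv w := by
    funext n
    simp
  continuous_toFun := by fun_prop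
  continuous_invFun := by fun_prop

/-- Continuity at the points where the parameter vanishes (compactness of the space of `e`). -/
theorem continuousAt_of_indep {X Y Z W : Type} [TopologicalSpace X] [TopologicalSpace Y]
    [CompactSpace Y] [TopologicalSpace Z] [TopologicalSpace W] {F : I × Y × Z → W}
    (hF : Continuous F) {ψ : X → I} {E : X → Y} {o : X → Z} {w : W} {x0 : X}
    (hψ : ContinuousAt ψ x0) (ho : ContinuousAt o x0) (h0 : ∀ e, F (ψ x0, e, o x0) = w) :
    ContinuousAt (fun x => F (ψ x, E x, o x)) x0 := by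
  rw [ContinuousAt, h0 (E x0), Filter.tendsto_iff_ultrafilter]
  intro g hg
  have h1 : Filter.Tendsto E g (nhds (g.map E).lim) := (g.map E).le_nhds_lim
  have h2 : Filter.Tendsto (fun x => (ψ x, E x, o x)) g (nhds (ψ x0, (g.map E).lim, o x0)) := by
    refine Filter.Tendsto.prodMk_nhds (hψ.tendsto.mono_left hg) ?_
    exact Filter.Tendsto.prodMk_nhds h1 (ho.tendsto.mono_left hg)
  have h3 := (hF.tendsto _).comp h2
  rw [h0] at h3
  exact h3

theorem push_homeo {A : Type} [TopologicalSpace A] [CompactSpace A] [T2Space A]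
    (r : A → I) (hr : Continuous r) (η : I → A → A)
    (hη : Continuous (fun p : I × A => η p.1 p.2)) (hη0 : ∀ a, η 0 a = a)
    (hinj : ∀ m : I, (m : ℝ) ≤ 1 / 2 → Function.Injective (η m))
    (hran : ∀ m : I, (m : ℝ) ≤ 1 / 2 → Set.range (η m) = {a | m ≤ r a}) :
    ∃ Θ : (A × Q × Q) ≃ₜ (A × Q), ∀ z, r z = 0 → ∀ o : Q, Θ (z, 0, o) = (z, o) := by
  obtain ⟨ins, hins, hins0, hinsb, -, -⟩ := exists_ins ℕ
  -- the map on `Q`
  set F : I × Q × Q → Q := fun p => reidx (ins p.1 p.2.1 (reidx.symm p.2.2)) with hF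
  have hFc : Continuous F := by
    have h1 : Continuous fun p : I × Q × Q => (p.1, p.2.1, reidx.symm p.2.2) :=
      continuous_fst.prodMk ((continuous_fst.comp continuous_snd).prodMk
        (reidx.symm.continuous.comp (continuous_snd.comp continuous_snd)))
    exact reidx.continuous.comp (hins.comp h1)
  have hF0 : ∀ e o, F (0, e, o) = o := fun e o => by
    simp only [hF, hins0, Homeomorph.apply_symm_apply]
  have hFinj : ∀ ψ : I, 0 < ψ → ∀ e e' o o' : Q, F (ψ, e, o) = F (ψ, e', o') → e = e' ∧ o = o' := by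
    intro ψ hψ e e' o o' h
    have h1 := (hinsb ψ hψ).1 (a₁ := (e, reidx.symm o)) (a₂ := (e', reidx.symm o'))
      (reidx.injective h)
    rw [Prod.mk.injEq] at h1
    exact ⟨h1.1, reidx.symm.injective h1.2⟩
  have hFsur : ∀ ψ : I, 0 < ψ → ∀ w : Q, ∃ e o : Q, F (ψ, e, o) = w := by
    intro ψ hψ w
    obtain ⟨⟨e, o⟩, h⟩ := (hinsb ψ hψ).2 (reidx.symm w)
    refine ⟨e, reidx o, ?_⟩
    simp only [hF, Homeomorph.symm_apply_apply]
    simp only at h
    rw [h, Homeomorph.apply_symm_apply]
  -- the map
  set Θ : A × Q × Q → A × Q := fun p =>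
    (η (mI p.2.1) p.1, F (r (η (mI p.2.1) p.1), eC (r (η (mI p.2.1) p.1)) p.2.1, p.2.2)) with hΘ
  have hac : Continuous fun p : A × Q × Q => η (mI p.2.1) p.1 :=
    hη.comp ((continuous_mI.comp (continuous_fst.comp continuous_snd)).prodMk continuous_fst)
  have hrc : Continuous fun p : A × Q × Q => r (η (mI p.2.1) p.1) := hr.comp hac
  have hΘc : Continuous Θ := by
    refine hac.prodMk ?_
    rw [continuous_iff_continuousAt]
    intro p
    by_cases h0 : r (η (mI p.2.1) p.1) = 0
    · refine continuousAt_of_indep hFc (ψ := fun p : A × Q × Q => r (η (mI p.2.1) p.1))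
        (E := fun p : A × Q × Q => eC (r (η (mI p.2.1) p.1)) p.2.1)
        (o := fun p : A × Q × Q => p.2.2) (w := p.2.2) hrc.continuousAt
        (continuous_snd.comp continuous_snd).continuousAt ?_
      intro e
      simp only [h0]
      exact hF0 e _
    · have hne : (r (η (mI p.2.1) p.1) : ℝ) ≠ 0 := fun h => h0 (Subtype.ext h)
      have h1 : ContinuousAt (fun p : A × Q × Q => eC (r (η (mI p.2.1) p.1)) p.2.1) p := by
        rw [continuousAt_pi]
        intro k
        unfold eC
        refine continuous_projIcc.continuousAt.comp ?_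
        refine ContinuousAt.mul ?_ ?_
        · exact (continuous_subtype_val.comp ((continuous_apply k).comp
            (continuous_fst.comp continuous_snd))).continuousAt
        · refine Filter.Tendsto.max tendsto_const_nhds ?_
          exact ContinuousAt.div continuousAt_const
            (continuous_subtype_val.comp hrc).continuousAt hne
      exact hFc.continuousAt.comp (hrc.continuousAt.prodMk
        (h1.prodMk (continuous_snd.comp continuous_snd).continuousAt))
  have hmle : ∀ (a' : A) (x : Q), mI x ≤ r (η (mI x) a') := by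
    intro a' x
    have : η (mI x) a' ∈ Set.range (η (mI x)) := ⟨a', rfl⟩
    rw [hran _ (msup_le_half x)] at this
    exact this
  have hinjΘ : Function.Injective Θ := by
    rintro ⟨a', x, o⟩ ⟨b', y, q⟩ h
    simp only [hΘ, Prod.mk.injEq] at h
    obtain ⟨h1, h2⟩ := h
    rw [← h1] at h2
    have hx := hmle a' x
    have hy := hmle b' y
    rw [← h1] at hy
    by_cases h0 : r (η (mI x) a') = 0
    · rw [h0] at hx hy h2
      have hx0 : mI x = 0 := le_antisymm hx (mI x).2.1
      have hy0 : mI y = 0 := le_antisymm hy (mI y).2.1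
      have hx1 : x = 0 := eq_zero_of_msup (congrArg Subtype.val hx0)
      have hy1 : y = 0 := eq_zero_of_msup (congrArg Subtype.val hy0)
      rw [hF0, hF0] at h2
      rw [hx0, hy0, hη0, hη0] at h1
      rw [h1, h2, hx1, hy1]
    · have hpos : 0 < r (η (mI x) a') := lt_of_le_of_ne (r (η (mI x) a')).2.1 (Ne.symm h0)
      obtain ⟨h3, h4⟩ := hFinj _ hpos _ _ _ _ h2
      have hxy : x = y := by
        funext k
        apply Subtype.ext
        have h5 := congrArg Subtype.val (congrFun h3 k)
        rw [eC_coe hpos hx, eC_coe hpos hy] at h5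
        exact mul_right_cancel₀ (zero_lt_one.trans_le (one_le_mx _ k)).ne' h5
      subst hxy
      rw [hinj _ (msup_le_half x) h1, h4]
  have hsurΘ : Function.Surjective Θ := by
    rintro ⟨a, w⟩
    by_cases h0 : r a = 0
    · refine ⟨(a, 0, w), ?_⟩
      have h1 : mI 0 = 0 := Subtype.ext msup_zero
      simp only [hΘ, h1, hη0, h0, hF0]
    · have hpos : 0 < r a := lt_of_le_of_ne (r a).2.1 (Ne.symm h0)
      have hpos' : (0 : ℝ) < r a := hpos
      obtain ⟨e, o, h⟩ := hFsur _ hpos w
      have hmx : ∀ k, (0 : ℝ) < max 1 (cw k / (r a : ℝ)) := fun k =>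
        zero_lt_one.trans_le (one_le_mx _ k)
      set x : Q := fun k => ⟨(e k : ℝ) / max 1 (cw k / (r a : ℝ)),
        div_nonneg (e k).2.1 (hmx k).le,
        (div_le_one (hmx k)).2 ((e k).2.2.trans (one_le_mx _ k))⟩ with hx
      have hxk : ∀ k, (x k : ℝ) = (e k : ℝ) / max 1 (cw k / (r a : ℝ)) := fun k => rfl
      have hmsup : msup x ≤ r a := by
        refine msup_le fun k => ?_
        rw [hxk, mul_div_assoc', div_le_iff₀ (hmx k)]
        have h1 : cw k ≤ r a * max 1 (cw k / (r a : ℝ)) := by
          calc cw k = r a * (cw k / (r a : ℝ)) := by field_simp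
            _ ≤ _ := by gcongr; exact le_max_right _ _
        have h2 : cw k * (e k : ℝ) ≤ cw k := by
          have := cw_pos k
          have := (e k).2.2
          nlinarith
        exact h2.trans h1
      have ha : a ∈ Set.range (η (mI x)) := by
        rw [hran _ (msup_le_half x)]
        exact hmsup
      obtain ⟨a', ha'⟩ := ha
      refine ⟨(a', x, o), ?_⟩
      have hE : eC (r a) x = e := by
        funext k
        apply Subtype.ext
        rw [eC_coe hpos hmsup, hxk, div_mul_cancel₀ _ (hmx k).ne']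
      simp only [hΘ, ha', hE, h]
  refine ⟨hΘc.homeoOfEquivCompactToT2 (f := Equiv.ofBijective Θ ⟨hinjΘ, hsurΘ⟩), ?_⟩
  intro z hz o
  show Θ (z, 0, o) = (z, o)
  have h1 : mI 0 = 0 := Subtype.ext msup_zero
  simp only [hΘ, h1, hη0, hz, hF0]

end Pool.Agent.H56.SQ
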