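import Mathlib
import Pool.Agent.H56.SQ.Basic
import Pool.Agent.H56.SQ.Push

set_option autoImplicit false

/-!
# SQ-04b: a face that can be pushed into the space is infinitely deficient after multiplication by Q

`defic_of_push`: `A × Q ≃ A × Q × Q` (inverse of `Θ`), `(z,o) ↦ (z,0,o)`, then reorder to
`((a,o),x)` and use `A × Q ≃ Q`.
-/

namespace Pool.Agent.H56.SQ

open unitInterval

theorem defic_of_push {A : Type} [TopologicalSpace A] [CompactSpace A] [T2Space A]
    (r : A → I) (hr : Continuous r) (η : I → A → A)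
    (hη : Continuous (fun p : I × A => η p.1 p.2)) (hη0 : ∀ a, η 0 a = a)
    (hinj : ∀ m : I, (m : ℝ) ≤ 1 / 2 → Function.Injective (η m))
    (hran : ∀ m : I, (m : ℝ) ≤ 1 / 2 → Set.range (η m) = {a | m ≤ r a})
    (hA : Nonempty ((A × Q) ≃ₜ Q)) :
    Defic {p : A × Q | r p.1 = 0} := by
  obtain ⟨Θ, hΘ⟩ := push_homeo r hr η hη hη0 hinj hran
  obtain ⟨h⟩ := hA
  let R : (A × Q × Q) ≃ₜ ((A × Q) × Q) :=
    { toFun := fun p => ((p.1, p.2.2), p.2.1)
      invFun := fun p => (p.1.1, (p.2, p.1.2))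
      left_inv := fun _ => rfl
      right_inv := fun _ => rfl
      continuous_toFun := by fun_prop
      continuous_invFun := by fun_prop }
  let α : (A × Q) ≃ₜ Q × Q :=
    (Θ.symm.trans R).trans (h.prodCongr (Homeomorph.refl Q))
  refine ⟨α, ?_⟩
  rintro ⟨z, o⟩ hz
  have hz' : r z = 0 := hz
  have h1 : Θ.symm (z, o) = (z, 0, o) := by
    rw [Homeomorph.symm_apply_eq]
    exact (hΘ z hz' o).symm
  have h2 : α (z, o) = (h (z, o), (0 : Q)) := by
    change (h ((Θ.symm (z, o)).1, (Θ.symm (z, o)).2.2), (Θ.symm (z, o)).2.1) = _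
    rw [h1]
  rw [h2]

end Pool.Agent.H56.SQ
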