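import Mathlib
import Pool.Agent.H56.SQ.Basic
import Pool.Agent.H56.SQ.PushDef

set_option autoImplicit false

/-!
# SQ-10: boxes in a cube with countably infinitely many coordinates

`boxx a b = {x : κ → I | a k ≤ x k ≤ b k}`, `a ≤ b` in `[0,1]`, almost all `(a k, b k) = (0,1)`.
The box is homeomorphic to `Q`, and the union of its faces `x k = a k`, `x k = b k` over the (finitely many)
restricted nondegenerate coordinates `k` (`(a k, b k) ≠ (0,1)`, `a k < b k`) is deficient.

Proof.  `F` = finite set of restricted nondegenerate coordinates, `D` = finite set of degenerate ones.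
`box ≃ (F → I) × (κ \ (F ∪ D) → I) ≃ (F → I) × Q` by coordinatewise affine maps.  `(F → I) × Q ≃ Q`.
`defic_of_push` with `A = (F → I)`, `r x = 2 min_k min (x k) (1 - x k)` (`r = 1` if `F = ∅`),
`η m x = 1/2 + (1-m)(x - 1/2)` coordinatewise: `range (η m) = {r ≥ m}` for `m < 1`.
-/

namespace Pool.Agent.H56.SQ

open unitInterval Set

/-- boxes -/
def boxx {κ : Type} (a b : κ → I) : Set (κ → I) := {x | ∀ k, a k ≤ x k ∧ x k ≤ b k}

/-- the affine map `I → [a,b]` -/
def linI (a b u : I) (hab : a ≤ b) : I :=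
  ⟨(a : ℝ) + ((b : ℝ) - a) * u, by
    have h1 : (a : ℝ) ≤ b := hab
    have h2 := mul_nonneg (sub_nonneg.mpr h1) u.2.1
    have h3 := mul_le_mul_of_nonneg_left u.2.2 (sub_nonneg.mpr h1)
    exact ⟨by linarith [a.2.1], by linarith [b.2.2]⟩⟩

/-- the inverse affine map, clipped -/
noncomputable def unlinI (a b x : I) : I :=
  Set.projIcc 0 1 zero_le_one (((x : ℝ) - a) / ((b : ℝ) - a))

theorem continuous_unlinI (a b : I) : Continuous (unlinI a b) := by
  unfold unlinI
  exact continuous_projIcc.comp (by fun_prop)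

theorem continuous_linI (a b : I) (hab : a ≤ b) : Continuous (fun u => linI a b u hab) := by
  unfold linI
  fun_prop

theorem le_linI (a b u : I) (hab : a ≤ b) : a ≤ linI a b u hab := by
  have h1 : (a : ℝ) ≤ b := hab
  have h2 := mul_nonneg (sub_nonneg.mpr h1) u.2.1
  show (a : ℝ) ≤ (a : ℝ) + ((b : ℝ) - a) * u
  linarith

theorem linI_le (a b u : I) (hab : a ≤ b) : linI a b u hab ≤ b := by
  have h1 : (a : ℝ) ≤ b := hab
  have h3 := mul_le_mul_of_nonneg_left u.2.2 (sub_nonneg.mpr h1)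
  show (a : ℝ) + ((b : ℝ) - a) * u ≤ (b : ℝ)
  linarith

theorem unlinI_linI (a b u : I) (hab : a < b) : unlinI a b (linI a b u hab.le) = u := by
  have h1 : (0 : ℝ) < b - a := sub_pos.mpr hab
  unfold unlinI linI
  simp only
  rw [show ((a : ℝ) + ((b : ℝ) - a) * u - a) / ((b : ℝ) - a) = u by field_simp; ring]
  exact Set.projIcc_val _ u

theorem linI_unlinI (a b x : I) (hab : a < b) (h1 : a ≤ x) (h2 : x ≤ b) :
    linI a b (unlinI a b x) hab.le = x := by
  have h0 : (0 : ℝ) < b - a := sub_pos.mpr hab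
  have h1' : (a : ℝ) ≤ x := h1
  have h2' : (x : ℝ) ≤ b := h2
  have hm : ((x : ℝ) - a) / ((b : ℝ) - a) ∈ Set.Icc (0 : ℝ) 1 :=
    ⟨div_nonneg (by linarith) h0.le, (div_le_one h0).2 (by linarith)⟩
  apply Subtype.ext
  show (a : ℝ) + ((b : ℝ) - a) * (unlinI a b x : I) = x
  unfold unlinI
  rw [Set.projIcc_of_mem zero_le_one hm]
  show (a : ℝ) + ((b : ℝ) - a) * (((x : ℝ) - a) / ((b : ℝ) - a)) = x
  field_simp
  ring

theorem unlinI_left (a b : I) : unlinI a b a = 0 := by
  unfold unlinI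
  rw [sub_self, zero_div]
  exact Set.projIcc_left (zero_le_one' ℝ)

theorem unlinI_right (a b : I) (hab : a < b) : unlinI a b b = 1 := by
  have h0 : (0 : ℝ) < b - a := sub_pos.mpr hab
  unfold unlinI
  rw [div_self h0.ne']
  exact Set.projIcc_right (zero_le_one' ℝ)

/-- distance to the boundary of `I`, normalised -/
noncomputable def rhoI (u : I) : I :=
  ⟨2 * min (u : ℝ) (1 - u), by
    have h1 := u.2.1
    have h2 := u.2.2
    constructor
    · exact mul_nonneg zero_le_two (le_min h1 (by linarith))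
    · rcases le_total (u : ℝ) (1 - u) with h | h
      · rw [min_eq_left h]; linarith
      · rw [min_eq_right h]; linarith⟩

theorem continuous_rhoI : Continuous rhoI := by
  unfold rhoI
  fun_prop

/-- contraction towards the middle -/
noncomputable def etaI (m u : I) : I :=
  ⟨1 / 2 + (1 - (m : ℝ)) * ((u : ℝ) - 1 / 2), by
    have h1 := u.2.1
    have h2 := u.2.2
    have h3 := m.2.1
    have h4 := m.2.2
    constructor <;> nlinarith [mul_nonneg h3 h1, mul_nonneg (sub_nonneg.mpr h4) h1,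
      mul_nonneg (sub_nonneg.mpr h4) (sub_nonneg.mpr h2)]⟩

theorem continuous_etaI : Continuous (fun p : I × I => etaI p.1 p.2) := by
  unfold etaI
  fun_prop

theorem etaI_zero (u : I) : etaI 0 u = u := by
  apply Subtype.ext
  show 1 / 2 + (1 - ((0 : I) : ℝ)) * ((u : ℝ) - 1 / 2) = u
  rw [show ((0 : I) : ℝ) = 0 from rfl]
  ring

theorem etaI_inj (m : I) (hm : (m : ℝ) ≤ 1 / 2) {u v : I} (h : etaI m u = etaI m v) : u = v := by
  have h1 : 1 / 2 + (1 - (m : ℝ)) * ((u : ℝ) - 1 / 2) = 1 / 2 + (1 - (m : ℝ)) * ((v : ℝ) - 1 / 2) :=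
    congrArg Subtype.val h
  have h2 : (0 : ℝ) < 1 - m := by linarith
  have h3 := mul_left_cancel₀ h2.ne' (add_left_cancel h1)
  exact Subtype.ext (by linarith)

theorem le_rhoI_etaI (m u : I) : m ≤ rhoI (etaI m u) := by
  show (m : ℝ) ≤ 2 * min (1 / 2 + (1 - (m : ℝ)) * ((u : ℝ) - 1 / 2))
    (1 - (1 / 2 + (1 - (m : ℝ)) * ((u : ℝ) - 1 / 2)))
  have h1 := u.2.1
  have h2 := u.2.2
  have h3 := m.2.1
  have h4 := m.2.2
  have h5 : (m : ℝ) / 2 ≤ min (1 / 2 + (1 - (m : ℝ)) * ((u : ℝ) - 1 / 2))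
      (1 - (1 / 2 + (1 - (m : ℝ)) * ((u : ℝ) - 1 / 2))) := by
    apply le_min
    · nlinarith [mul_nonneg (sub_nonneg.mpr h4) h1]
    · nlinarith [mul_nonneg (sub_nonneg.mpr h4) (sub_nonneg.mpr h2)]
  linarith

theorem exists_etaI (m v : I) (hm : (m : ℝ) ≤ 1 / 2) (h : m ≤ rhoI v) : ∃ u, etaI m u = v := by
  have h2 : (0 : ℝ) < 1 - m := by linarith
  have h3 : (m : ℝ) ≤ 2 * min (v : ℝ) (1 - v) := h
  have h4 : (m : ℝ) / 2 ≤ v := by linarith [min_le_left (v : ℝ) (1 - v)]
  have h5 : (m : ℝ) / 2 ≤ 1 - v := by linarith [min_le_right (v : ℝ) (1 - v)]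
  have hm1 : 1 / 2 + ((v : ℝ) - 1 / 2) / (1 - m) ∈ Set.Icc (0 : ℝ) 1 := by
    constructor
    · have : -(1 / 2) ≤ ((v : ℝ) - 1 / 2) / (1 - m) := by
        rw [le_div_iff₀ h2]; nlinarith
      linarith
    · have : ((v : ℝ) - 1 / 2) / (1 - m) ≤ 1 / 2 := by
        rw [div_le_iff₀ h2]; nlinarith
      linarith
  refine ⟨⟨_, hm1⟩, ?_⟩
  apply Subtype.ext
  show 1 / 2 + (1 - (m : ℝ)) * (1 / 2 + ((v : ℝ) - 1 / 2) / (1 - m) - 1 / 2) = v
  field_simp
  ring

/-- the cube `(F → I)` times `Q` is `Q` -/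
theorem cube_Q {F : Type} [Finite F] : Nonempty (((F → I) × Q) ≃ₜ Q) := by
  have : Nonempty (F ⊕ ℕ ≃ ℕ) := nonempty_equiv_of_countable
  obtain ⟨e⟩ := this
  exact ⟨(Homeomorph.sumPiEquivProdPi F ℕ (fun _ => I)).symm.trans
    (Homeomorph.piCongrLeft (Y := fun _ : ℕ => I) e)⟩

/-- the union of the facets of the finite cube times `Q` is deficient -/
theorem cube_defic {F : Type} [Fintype F] :
    Defic {p : (F → I) × Q | ∃ k, p.1 k = 0 ∨ p.1 k = 1} := by
  let r : (F → I) → I := fun x => Finset.univ.inf fun k => rhoI (x k)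
  let η : I → (F → I) → (F → I) := fun m x k => etaI m (x k)
  have hr : Continuous r :=
    Continuous.finset_inf_apply fun k _ => continuous_rhoI.comp (continuous_apply k)
  have hη : Continuous (fun p : I × (F → I) => η p.1 p.2) :=
    continuous_pi fun k => continuous_etaI.comp
      (continuous_fst.prodMk ((continuous_apply k).comp continuous_snd))
  have key : ∀ (m : I) (x : F → I), m ≤ r x ↔ ∀ k, m ≤ rhoI (x k) := by
    intro m x
    show m ≤ Finset.univ.inf (fun k => rhoI (x k)) ↔ _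
    rw [Finset.le_inf_iff]
    simp
  refine (defic_of_push r hr η hη (fun a => funext fun k => etaI_zero _) ?_ ?_ cube_Q).mono ?_
  · intro m hm x y hxy
    funext k
    exact etaI_inj m hm (congrFun hxy k)
  · intro m hm
    ext x
    constructor
    · rintro ⟨y, rfl⟩
      exact (key _ _).2 fun k => le_rhoI_etaI m (y k)
    · intro hx
      have hx' := (key m x).1 hx
      choose y hy using fun k => exists_etaI m (x k) hm (hx' k)
      exact ⟨y, funext hy⟩
  · rintro p ⟨k, hk⟩
    show r p.1 = 0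
    apply le_antisymm _ unitInterval.nonneg'
    refine le_trans (Finset.inf_le (Finset.mem_univ k)) ?_
    show 2 * min ((p.1 k : I) : ℝ) (1 - (p.1 k : I)) ≤ ((0 : I) : ℝ)
    rcases hk with hk | hk
    · rw [hk]
      show 2 * min (0 : ℝ) (1 - 0) ≤ 0
      norm_num
    · rw [hk]
      show 2 * min (1 : ℝ) (1 - 1) ≤ 0
      norm_num

theorem box_defic {κ : Type} [Countable κ] [Infinite κ] (a b : κ → I) (hab : ∀ k, a k ≤ b k)
    (hfin : {k | a k ≠ 0 ∨ b k ≠ 1}.Finite) :
    Defic {x : boxx a b | ∃ k, a k < b k ∧ (a k ≠ 0 ∨ b k ≠ 1) ∧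
      ((x : κ → I) k = a k ∨ (x : κ → I) k = b k)} := by
  classical
  let F : Type := {k // a k < b k ∧ (a k ≠ 0 ∨ b k ≠ 1)}
  let G : Type := {k // ¬ (a k ≠ 0 ∨ b k ≠ 1)}
  have hF : Finite F := by
    have : ({k | a k < b k ∧ (a k ≠ 0 ∨ b k ≠ 1)} : Set κ).Finite :=
      hfin.subset fun k hk => hk.2
    exact this.to_subtype
  have hG : Infinite G := by
    have : ({k | ¬ (a k ≠ 0 ∨ b k ≠ 1)} : Set κ).Infinite := by
      have h := hfin.infinite_compl
      exact h
    exact this.to_subtype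
  have : Fintype F := Fintype.ofFinite F
  have hg : Nonempty (ℕ ≃ G) := nonempty_equiv_of_countable
  obtain ⟨g⟩ := hg
  have hinv : ∀ (p : (F → I) × Q), (fun k => if h : a k < b k ∧ (a k ≠ 0 ∨ b k ≠ 1) then
        linI (a k) (b k) (p.1 ⟨k, h⟩) (hab k)
        else if h' : ¬ (a k ≠ 0 ∨ b k ≠ 1) then p.2 (g.symm ⟨k, h'⟩) else a k) ∈ boxx a b := by
    intro p k
    by_cases h : a k < b k ∧ (a k ≠ 0 ∨ b k ≠ 1)
    · simp only [dif_pos h]
      exact ⟨le_linI _ _ _ _, linI_le _ _ _ _⟩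
    · simp only [dif_neg h]
      by_cases h' : ¬ (a k ≠ 0 ∨ b k ≠ 1)
      · simp only [dif_pos h']
        have h2 : a k = 0 ∧ b k = 1 := by
          push Not at h'
          exact h'
        rw [h2.1, h2.2]
        exact ⟨unitInterval.nonneg', unitInterval.le_one'⟩
      · simp only [dif_neg h']
        exact ⟨le_refl _, hab k⟩
  let H : boxx a b ≃ₜ (F → I) × Q :=
    { toFun := fun x => (fun k => unlinI (a k.1) (b k.1) ((x : κ → I) k.1),
        fun n => (x : κ → I) (g n).1)
      invFun := fun p => ⟨_, hinv p⟩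
      left_inv := by
        intro x
        apply Subtype.ext
        funext k
        show (if h : a k < b k ∧ (a k ≠ 0 ∨ b k ≠ 1) then
          linI (a k) (b k) (unlinI (a k) (b k) ((x : κ → I) k)) (hab k)
          else if h' : ¬ (a k ≠ 0 ∨ b k ≠ 1) then (x : κ → I) (g (g.symm ⟨k, h'⟩)).1 else a k)
          = (x : κ → I) k
        by_cases h : a k < b k ∧ (a k ≠ 0 ∨ b k ≠ 1)
        · rw [dif_pos h]
          exact linI_unlinI _ _ _ h.1 (x.2 k).1 (x.2 k).2
        · rw [dif_neg h]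
          by_cases h' : ¬ (a k ≠ 0 ∨ b k ≠ 1)
          · rw [dif_pos h', g.apply_symm_apply]
          · rw [dif_neg h']
            have h3 : a k = b k := by
              by_contra hne
              exact h ⟨lt_of_le_of_ne (hab k) hne, not_not.mp h'⟩
            exact le_antisymm (x.2 k).1 (h3 ▸ (x.2 k).2)
      right_inv := by
        intro p
        ext k
        · show ((unlinI (a k.1) (b k.1) (if h : a k.1 < b k.1 ∧ (a k.1 ≠ 0 ∨ b k.1 ≠ 1) then
            linI (a k.1) (b k.1) (p.1 ⟨k.1, h⟩) (hab k.1)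
            else if h' : ¬ (a k.1 ≠ 0 ∨ b k.1 ≠ 1) then p.2 (g.symm ⟨k.1, h'⟩) else a k.1) : I) : ℝ)
            = (p.1 k : I)
          rw [dif_pos k.2, unlinI_linI _ _ _ k.2.1]
        · show (((if h : a (g k).1 < b (g k).1 ∧ (a (g k).1 ≠ 0 ∨ b (g k).1 ≠ 1) then
            linI (a (g k).1) (b (g k).1) (p.1 ⟨(g k).1, h⟩) (hab (g k).1)
            else if h' : ¬ (a (g k).1 ≠ 0 ∨ b (g k).1 ≠ 1) then p.2 (g.symm ⟨(g k).1, h'⟩)
            else a (g k).1) : I) : ℝ) = (p.2 k : I)
          rw [dif_neg (fun h => (g k).2 h.2), dif_pos (g k).2]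
          rw [show (⟨(g k).1, (g k).2⟩ : G) = g k from rfl, g.symm_apply_apply]
      continuous_toFun := by
        refine Continuous.prodMk (continuous_pi fun k => ?_) (continuous_pi fun n => ?_)
        · exact (continuous_unlinI _ _).comp ((continuous_apply k.1).comp continuous_subtype_val)
        · exact (continuous_apply (g n).1).comp continuous_subtype_val
      continuous_invFun := by
        refine Continuous.subtype_mk (continuous_pi fun k => ?_) _
        by_cases h : a k < b k ∧ (a k ≠ 0 ∨ b k ≠ 1)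
        · simp only [dif_pos h]
          exact (continuous_linI (a k) (b k) (hab k)).comp ((continuous_apply _).comp continuous_fst)
        · simp only [dif_neg h]
          by_cases h' : ¬ (a k ≠ 0 ∨ b k ≠ 1)
          · simp only [dif_pos h']
            exact (continuous_apply _).comp continuous_snd
          · simp only [dif_neg h']
            exact continuous_const }
  refine ((cube_defic (F := F)).image H.symm).mono ?_
  rintro x ⟨k, hk1, hk2, hk3⟩
  refine ⟨H x, ⟨⟨k, hk1, hk2⟩, ?_⟩, H.symm_apply_apply x⟩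
  show unlinI (a k) (b k) ((x : κ → I) k) = 0 ∨ unlinI (a k) (b k) ((x : κ → I) k) = 1
  rcases hk3 with h | h
  · left; rw [h]; exact unlinI_left _ _
  · right; rw [h]; exact unlinI_right _ _ hk1

end Pool.Agent.H56.SQ
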