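import Mathlib

set_option autoImplicit false

/-!
# SQ-05: Brown's theorem on near homeomorphisms (in the form we need)

`X n` compact metric, `g n : X (n+1) → X n` near homeomorphisms, `X'` compact metric with surjections
`π n : X' → X n`, `g n ∘ π (n+1) = π n`, the `π n` together separate points.  Then `X' ≃ X 0`.

Proof.  (0) By compactness: for every `ε > 0` there is `n` with `π n x = π n y → dist x y < ε` (the closed
sets `{(x,y) | π n x = π n y, dist x y ≥ ε}` decrease in `n`, because `π n` factors through `π (n+1)`, and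
have empty intersection).
(1) Choose recursively homeomorphisms `H n : X n ≃ X 0` and numbers `b n > 0`, `F n = H n ∘ π n`, such that
`dist (F (n+1) x) (F n x) < b n / 2`, `b (n+1) ≤ b n / 2` and `4 b n ≤ dist (F n x) (F n y)` for all pairs
with `1/(j+1) ≤ dist x y`, if `j ≤ n` and no such pair is identified by `π n`.
(2) `F = lim F n` exists, `dist (F x) (F n x) ≤ b n`, it is continuous, injective and surjective.
-/

namespace Pool.Agent.H56.SQ

/-- eventually `π n` identifies no pair at distance at least `ε` -/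
theorem brown_sep {X' : Type} [MetricSpace X'] [CompactSpace X'] (X : ℕ → Type)
    [∀ n, MetricSpace (X n)]
    (g : ∀ n, X (n + 1) → X n)
    (π : ∀ n, X' → X n) (hπ : ∀ n, Continuous (π n))
    (hc : ∀ n x, g n (π (n + 1) x) = π n x)
    (hsep : ∀ x y, (∀ n, π n x = π n y) → x = y) (ε : ℝ) (hε : 0 < ε) :
    ∃ N : ℕ, ∀ n, N ≤ n → ∀ x y : X', ε ≤ dist x y → π n x ≠ π n y := by
  by_contra hcon
  push Not at hcon
  set K : ℕ → Set (X' × X') := fun n => {p | ε ≤ dist p.1 p.2 ∧ π n p.1 = π n p.2} with hK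
  have hclosed : ∀ n, IsClosed (K n) := by
    intro n
    apply IsClosed.inter
    · exact isClosed_le continuous_const (continuous_fst.dist continuous_snd)
    · exact isClosed_eq ((hπ n).comp continuous_fst) ((hπ n).comp continuous_snd)
  have hstep : ∀ n, K (n + 1) ⊆ K n := by
    rintro n p ⟨h1, h2⟩
    refine ⟨h1, ?_⟩
    rw [← hc n p.1, ← hc n p.2, h2]
  have hanti : Antitone K := antitone_nat_of_succ_le hstep
  have hne : ∀ n, (K n).Nonempty := by
    intro n
    obtain ⟨m, hm, x, y, hxy, he⟩ := hcon n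
    exact hanti hm |>.trans (le_refl _) |> fun h => ⟨(x, y), h ⟨hxy, he⟩⟩
  have hinter : (⋂ n, K n).Nonempty :=
    IsCompact.nonempty_iInter_of_sequence_nonempty_isCompact_isClosed K hstep hne
      ((hclosed 0).isCompact) hclosed
  obtain ⟨p, hp⟩ := hinter
  rw [Set.mem_iInter] at hp
  have hxy : p.1 = p.2 := hsep _ _ (fun n => (hp n).2)
  have h0 := (hp 0).1
  rw [hxy, dist_self] at h0
  linarith

/-- a positive lower bound for the distance of the images of all far pairs -/
theorem brown_low {X' Y Z : Type} [MetricSpace X'] [CompactSpace X'] [MetricSpace Y] [MetricSpace Z]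
    (π : X' → Y) (hπ : Continuous π) (H : Y ≃ₜ Z) (ε : ℝ)
    (hne : ∀ x y : X', ε ≤ dist x y → π x ≠ π y) :
    ∃ c : ℝ, 0 < c ∧ ∀ x y : X', ε ≤ dist x y → c ≤ dist (H (π x)) (H (π y)) := by
  set S : Set (X' × X') := {p | ε ≤ dist p.1 p.2} with hS
  have hSc : IsCompact S :=
    (isClosed_le continuous_const (continuous_fst.dist continuous_snd)).isCompact
  have hcont : Continuous (fun p : X' × X' => dist (H (π p.1)) (H (π p.2))) := by
    fun_prop
  rcases S.eq_empty_or_nonempty with h | h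
  · refine ⟨1, one_pos, fun x y hxy => ?_⟩
    have : (x, y) ∈ S := hxy
    rw [h] at this
    exact this.elim
  · obtain ⟨p, hp, hmin⟩ := hSc.exists_isMinOn h hcont.continuousOn
    refine ⟨dist (H (π p.1)) (H (π p.2)), ?_, ?_⟩
    · rw [dist_pos]
      intro he
      exact hne p.1 p.2 hp (H.injective he)
    · intro x y hxy
      exact hmin (show (x, y) ∈ S from hxy)

/-- the lower bounds for finitely many thresholds at once -/
theorem brown_low_all {X' Y Z : Type} [MetricSpace X'] [CompactSpace X'] [MetricSpace Y]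
    [MetricSpace Z] (π : X' → Y) (hπ : Continuous π) (H : Y ≃ₜ Z) (n : ℕ) :
    ∃ c : ℝ, 0 < c ∧ ∀ j : ℕ, j ≤ n → (∀ x y : X', 1 / ((j : ℝ) + 1) ≤ dist x y → π x ≠ π y) →
      ∀ x y : X', 1 / ((j : ℝ) + 1) ≤ dist x y → c ≤ dist (H (π x)) (H (π y)) := by
  have hone : ∀ j : ℕ, ∃ c : ℝ, 0 < c ∧
      ((∀ x y : X', 1 / ((j : ℝ) + 1) ≤ dist x y → π x ≠ π y) →
      ∀ x y : X', 1 / ((j : ℝ) + 1) ≤ dist x y → c ≤ dist (H (π x)) (H (π y))) := by
    intro j
    by_cases h : ∀ x y : X', 1 / ((j : ℝ) + 1) ≤ dist x y → π x ≠ π y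
    · obtain ⟨c, hc, hc2⟩ := brown_low π hπ H _ h
      exact ⟨c, hc, fun _ => hc2⟩
    · exact ⟨1, one_pos, fun h' => (h h').elim⟩
  induction n with
  | zero =>
    obtain ⟨c, hc, hc2⟩ := hone 0
    refine ⟨c, hc, fun j hj => ?_⟩
    obtain rfl : j = 0 := by omega
    exact hc2
  | succ n ih =>
    obtain ⟨c, hc, hc2⟩ := ih
    obtain ⟨d, hd, hd2⟩ := hone (n + 1)
    refine ⟨min c d, lt_min hc hd, fun j hj hP x y hxy => ?_⟩
    rcases Nat.lt_or_ge j (n + 1) with hlt | hge
    · exact (min_le_left _ _).trans (hc2 j (by omega) hP x y hxy)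
    · obtain rfl : j = n + 1 := by omega
      exact (min_le_right _ _).trans (hd2 hP x y hxy)

theorem brown (X : ℕ → Type) [∀ n, MetricSpace (X n)] [∀ n, CompactSpace (X n)]
    (X' : Type) [MetricSpace X'] [CompactSpace X']
    (g : ∀ n, X (n + 1) → X n) (hg : ∀ n, Continuous (g n))
    (hnear : ∀ n, ∀ ε > 0, ∃ h : X (n + 1) ≃ₜ X n, ∀ x, dist (h x) (g n x) < ε)
    (π : ∀ n, X' → X n) (hπ : ∀ n, Continuous (π n)) (hs : ∀ n, Function.Surjective (π n))
    (hc : ∀ n x, g n (π (n + 1) x) = π n x)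
    (hsep : ∀ x y, (∀ n, π n x = π n y) → x = y) :
    Nonempty (X' ≃ₜ X 0) := by
  classical
  -- the invariant of the recursion
  let Good : ∀ n, (X n ≃ₜ X 0) → ℝ → Prop := fun n H b =>
    0 < b ∧ ∀ j : ℕ, j ≤ n → (∀ x y : X', 1 / ((j : ℝ) + 1) ≤ dist x y → π n x ≠ π n y) →
      ∀ x y : X', 1 / ((j : ℝ) + 1) ≤ dist x y → 4 * b ≤ dist (H (π n x)) (H (π n y))
  let St : ℕ → Type := fun n => {p : (X n ≃ₜ X 0) × ℝ // Good n p.1 p.2}
  have hgood : ∀ n (H : X n ≃ₜ X 0) (β : ℝ), 0 < β → ∃ b, b ≤ β ∧ Good n H b := by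
    intro n H β hβ
    obtain ⟨c, hc0, hc1⟩ := brown_low_all (π n) (hπ n) H n
    refine ⟨min β (c / 4), min_le_left _ _, lt_min hβ (by positivity), ?_⟩
    intro j hj hP x y hxy
    have h1 := hc1 j hj hP x y hxy
    have h2 : min β (c / 4) ≤ c / 4 := min_le_right _ _
    linarith
  have hstep : ∀ n (s : St n), ∃ s' : St (n + 1), s'.1.2 ≤ s.1.2 / 2 ∧
      ∀ x, dist (s'.1.1 (π (n + 1) x)) (s.1.1 (π n x)) < s.1.2 / 2 := by
    rintro n ⟨⟨H, b⟩, hb, hG⟩
    have huc : UniformContinuous H := CompactSpace.uniformContinuous_of_continuous H.continuous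
    obtain ⟨δ, hδ, hδ2⟩ := Metric.uniformContinuous_iff.1 huc (b / 2) (by positivity)
    obtain ⟨h, hh⟩ := hnear n δ hδ
    obtain ⟨b', hb', hG'⟩ := hgood (n + 1) (h.trans H) (b / 2) (by positivity)
    refine ⟨⟨(h.trans H, b'), hG'⟩, hb', fun x => ?_⟩
    have h1 := hh (π (n + 1) x)
    rw [hc n x] at h1
    exact hδ2 h1
  obtain ⟨b0, hb0, hG0⟩ := hgood 0 (Homeomorph.refl (X 0)) 1 one_pos
  let s0 : St 0 := ⟨(Homeomorph.refl (X 0), b0), hG0⟩
  choose nxt hn1 hn2 using hstep
  let s : ∀ n, St n := fun n => Nat.rec (motive := St) s0 (fun n t => nxt n t) n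
  have hs_succ : ∀ n, s (n + 1) = nxt n (s n) := fun n => rfl
  let F : ℕ → X' → X 0 := fun n x => (s n).1.1 (π n x)
  let b : ℕ → ℝ := fun n => (s n).1.2
  have hbpos : ∀ n, 0 < b n := fun n => (s n).2.1
  have hbhalf : ∀ n, b (n + 1) ≤ b n / 2 := fun n => by
    change (s (n + 1)).1.2 ≤ (s n).1.2 / 2
    rw [hs_succ]
    exact hn1 n (s n)
  have hFd : ∀ n x, dist (F (n + 1) x) (F n x) < b n / 2 := fun n x => by
    change dist ((s (n + 1)).1.1 (π (n + 1) x)) ((s n).1.1 (π n x)) < (s n).1.2 / 2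
    rw [hs_succ]
    exact hn2 n (s n) x
  have hFsep : ∀ n : ℕ, ∀ j : ℕ, j ≤ n → (∀ x y : X', 1 / ((j : ℝ) + 1) ≤ dist x y → π n x ≠ π n y) →
      ∀ x y : X', 1 / ((j : ℝ) + 1) ≤ dist x y → 4 * b n ≤ dist (F n x) (F n y) :=
    fun n => (s n).2.2
  have hFcont : ∀ n, Continuous (F n) := fun n => (s n).1.1.continuous.comp (hπ n)
  have hFsurj : ∀ n, Function.Surjective (F n) := fun n => (s n).1.1.surjective.comp (hs n)
  -- telescoping
  have htel : ∀ n k x, dist (F (n + k) x) (F n x) ≤ b n - b (n + k) := by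
    intro n k x
    induction k with
    | zero => simp
    | succ k ih =>
      have h1 := hFd (n + k) x
      have h2 := hbhalf (n + k)
      have h3 := dist_triangle (F (n + (k + 1)) x) (F (n + k) x) (F n x)
      have e : n + (k + 1) = n + k + 1 := by omega
      rw [e] at h3 ⊢
      linarith
  have hbgeo : ∀ n, b n ≤ b 0 * (1 / 2) ^ n := by
    intro n
    induction n with
    | zero => simp
    | succ n ih =>
      have := hbhalf n
      rw [pow_succ]
      linarith
  have hblim : Filter.Tendsto b Filter.atTop (nhds 0) := by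
    have h1 : Filter.Tendsto (fun n : ℕ => b 0 * (1 / 2 : ℝ) ^ n) Filter.atTop (nhds (b 0 * 0)) :=
      (tendsto_pow_atTop_nhds_zero_of_lt_one (by norm_num) (by norm_num)).const_mul _
    rw [mul_zero] at h1
    exact squeeze_zero (fun n => (hbpos n).le) hbgeo h1
  have hdist : ∀ n m, n ≤ m → ∀ x, dist (F m x) (F n x) ≤ b n := by
    intro n m hnm x
    obtain ⟨k, rfl⟩ := Nat.exists_eq_add_of_le hnm
    have h1 := htel n k x
    have h2 := hbpos (n + k)
    linarith
  have hlim : ∀ x, ∃ y, Filter.Tendsto (fun n => F n x) Filter.atTop (nhds y) := by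
    intro x
    apply cauchySeq_tendsto_of_complete
    rw [Metric.cauchySeq_iff']
    intro ε hε
    obtain ⟨N, hN⟩ := (Metric.tendsto_atTop.1 hblim) ε hε
    refine ⟨N, fun n hn => ?_⟩
    have h1 := hdist N n hn x
    have h2 := hN N le_rfl
    rw [Real.dist_eq, sub_zero, abs_of_pos (hbpos N)] at h2
    linarith
  choose G hG using hlim
  have hGd : ∀ n x, dist (G x) (F n x) ≤ b n := by
    intro n x
    have h1 : Filter.Tendsto (fun m => dist (F m x) (F n x)) Filter.atTop
        (nhds (dist (G x) (F n x))) := (hG x).dist tendsto_const_nhds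
    apply le_of_tendsto h1
    filter_upwards [Filter.eventually_ge_atTop n] with m hm using hdist n m hm x
  have hGcont : Continuous G := by
    have hu : TendstoUniformly F G Filter.atTop := by
      rw [Metric.tendstoUniformly_iff]
      intro ε hε
      obtain ⟨N, hN⟩ := (Metric.tendsto_atTop.1 hblim) ε hε
      filter_upwards [Filter.eventually_ge_atTop N] with n hn x
      have h1 := hGd n x
      have h2 := hN n hn
      rw [Real.dist_eq, sub_zero, abs_of_pos (hbpos n)] at h2
      linarith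
    exact hu.continuous (Filter.Frequently.of_forall hFcont)
  have hGinj : Function.Injective G := by
    intro x y hxy
    by_contra hne
    have hpos : 0 < dist x y := dist_pos.2 hne
    obtain ⟨j, hj⟩ := exists_nat_one_div_lt hpos
    obtain ⟨N, hN⟩ := brown_sep X g π hπ hc hsep (1 / ((j : ℝ) + 1)) (by positivity)
    set n := max N j with hn
    have h1 := hFsep n j (le_max_right _ _) (hN n (le_max_left _ _)) x y hj.le
    have h2 := hGd n x
    have h3 := hGd n y
    have h4 := hbpos n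
    have h5 := dist_triangle4 (F n x) (G x) (G y) (F n y)
    rw [hxy, dist_self, dist_comm (F n x) (G y), ← hxy] at h5
    rw [hxy] at h2 h5
    linarith
  have hGsurj : Function.Surjective G := by
    intro y
    have hcl : IsClosed (Set.range G) := (isCompact_range hGcont).isClosed
    have hmem : y ∈ closure (Set.range G) := by
      rw [Metric.mem_closure_iff]
      intro ε hε
      obtain ⟨N, hN⟩ := (Metric.tendsto_atTop.1 hblim) ε hε
      obtain ⟨x, hx⟩ := hFsurj N y
      refine ⟨G x, ⟨x, rfl⟩, ?_⟩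
      have h1 := hGd N x
      have h2 := hN N le_rfl
      rw [Real.dist_eq, sub_zero, abs_of_pos (hbpos N)] at h2
      rw [hx] at h1
      rw [dist_comm]
      linarith
    rw [hcl.closure_eq] at hmem
    exact hmem
  exact ⟨Continuous.homeoOfEquivCompactToT2 (f := Equiv.ofBijective G ⟨hGinj, hGsurj⟩) hGcont⟩

end Pool.Agent.H56.SQ
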