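import Mathlib
import Pool.Agent.H56.SQ.Basic

set_option autoImplicit false

/-!
# SQ-07a: a nested family of deficient subsets of Q increasing to Q (definitions and simple facts)

`aa n = 1/(n+1)`, `psi n u = clamp ((aa n - u)/(aa n - aa (n+1)))` to `[0,1]`, so `psi n u = 1` for
`u ≤ aa (n+1)`, `psi n u = 0` for `u ≥ aa n`, `R u = {w | w (2k) ≤ psi k u for all k}`.
For `u ∈ [aa (n+1), aa n]`: `w (2k)` is free for `k < n`, `w (2n) ≤ psi n u`, `w (2k) = 0` for `k > n`.
`R 0 = Q`.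
-/

namespace Pool.Agent.H56.SQ

open unitInterval Set

noncomputable def aa (n : ℕ) : ℝ := 1 / ((n : ℝ) + 1)

noncomputable def psi (n : ℕ) (u : ℝ) : ℝ := max 0 (min 1 ((aa n - u) / (aa n - aa (n + 1))))

/-- the nested family -/
def R (u : ℝ) : Set Q := {w | ∀ k : ℕ, ((w (2 * k) : I) : ℝ) ≤ psi k u}

theorem Fam_aa_pos (n : ℕ) : 0 < aa n := by
  unfold aa
  positivity

theorem Fam_aa_anti {m n : ℕ} (h : m ≤ n) : aa n ≤ aa m := by
  unfold aa
  have : (m : ℝ) ≤ n := by exact_mod_cast h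
  exact one_div_le_one_div_of_le (by positivity) (by linarith)

theorem Fam_aa_lt (n : ℕ) : 0 < aa n - aa (n + 1) := by
  unfold aa
  have : 1 / (((n + 1 : ℕ) : ℝ) + 1) < 1 / ((n : ℝ) + 1) :=
    one_div_lt_one_div_of_lt (by positivity) (by push_cast; linarith)
  linarith

theorem Fam_psi_one {n : ℕ} {u : ℝ} (h : u ≤ aa (n + 1)) : psi n u = 1 := by
  unfold psi
  have : 1 ≤ (aa n - u) / (aa n - aa (n + 1)) := by
    rw [le_div_iff₀ (Fam_aa_lt n)]
    linarith
  rw [min_eq_left this]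
  exact max_eq_right zero_le_one

theorem Fam_psi_zero {n : ℕ} {u : ℝ} (h : aa n ≤ u) : psi n u = 0 := by
  unfold psi
  have : (aa n - u) / (aa n - aa (n + 1)) ≤ 0 :=
    div_nonpos_of_nonpos_of_nonneg (by linarith) (Fam_aa_lt n).le
  exact max_eq_left ((min_le_right _ _).trans this)

theorem Fam_psi_mid {n : ℕ} {u : ℝ} (h1 : aa (n + 1) ≤ u) (h2 : u ≤ aa n) :
    psi n u = (aa n - u) / (aa n - aa (n + 1)) := by
  unfold psi
  have e1 : (aa n - u) / (aa n - aa (n + 1)) ≤ 1 := by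
    rw [div_le_one (Fam_aa_lt n)]
    linarith
  have e2 : 0 ≤ (aa n - u) / (aa n - aa (n + 1)) := div_nonneg (by linarith) (Fam_aa_lt n).le
  rw [min_eq_right e1, max_eq_right e2]

theorem Fam_psi_anti (n : ℕ) {u v : ℝ} (h : u ≤ v) : psi n v ≤ psi n u := by
  unfold psi
  refine max_le_max le_rfl (min_le_min le_rfl ?_)
  exact div_le_div_of_nonneg_right (by linarith) (Fam_aa_lt n).le

theorem Fam_psi_cont (n : ℕ) : Continuous (psi n) := by
  unfold psi
  exact continuous_const.max (continuous_const.min ((continuous_const.sub continuous_id).div_const _))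

theorem Fam_le_zero {x : I} : (x : ℝ) ≤ 0 ↔ x = 0 := by
  constructor
  · intro h
    exact Subtype.ext (le_antisymm h x.2.1)
  · rintro rfl
    exact le_rfl

theorem R_zero : R 0 = univ := by
  refine eq_univ_of_forall fun w k => ?_
  rw [Fam_psi_one (Fam_aa_pos _).le]
  exact (w (2 * k)).2.2

theorem R_closed : IsClosed {p : ℝ × Q | p.2 ∈ R p.1} := by
  have e : {p : ℝ × Q | p.2 ∈ R p.1} = ⋂ k : ℕ, {p : ℝ × Q | ((p.2 (2 * k) : I) : ℝ) ≤ psi k p.1} := by
    ext p
    simp only [mem_iInter]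
    exact Iff.rfl
  rw [e]
  refine isClosed_iInter fun k => isClosed_le ?_ ?_
  · exact continuous_subtype_val.comp ((continuous_apply (2 * k)).comp continuous_snd)
  · exact (Fam_psi_cont k).comp continuous_fst

theorem R_anti {u v : ℝ} (h : u ≤ v) : R v ⊆ R u := fun _ hw k => (hw k).trans (Fam_psi_anti k h)

/-- description of `R` at the times `aa n` -/
theorem mem_R_aa (n : ℕ) (w : Q) : w ∈ R (aa n) ↔ ∀ k, n ≤ k → w (2 * k) = 0 := by
  constructor
  · intro hw k hk
    have h1 := hw k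
    rw [Fam_psi_zero (Fam_aa_anti hk)] at h1
    exact Fam_le_zero.1 h1
  · intro hw k
    rcases Nat.lt_or_ge k n with hk | hk
    · rw [Fam_psi_one (Fam_aa_anti hk)]
      exact (w (2 * k)).2.2
    · rw [Fam_psi_zero (Fam_aa_anti hk)]
      exact Fam_le_zero.2 (hw k hk)

/-- description of `R` between `aa (n+1)` and `aa n` -/
theorem mem_R_between (n : ℕ) (u : ℝ) (h1 : aa (n + 1) ≤ u) (h2 : u ≤ aa n) (w : Q) :
    w ∈ R u ↔ w ∈ R (aa (n + 1)) ∧
      u - aa (n + 1) ≤ (aa n - aa (n + 1)) * (1 - ((w (2 * n) : I) : ℝ)) := by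
  have hd := Fam_aa_lt n
  have key : ((w (2 * n) : I) : ℝ) ≤ psi n u ↔
      u - aa (n + 1) ≤ (aa n - aa (n + 1)) * (1 - ((w (2 * n) : I) : ℝ)) := by
    rw [Fam_psi_mid h1 h2, le_div_iff₀ hd]
    constructor <;> intro h <;> nlinarith
  constructor
  · intro hw
    refine ⟨R_anti h1 hw, key.1 (hw n)⟩
  · rintro ⟨hw, h3⟩ k
    rcases lt_trichotomy k n with hk | hk | hk
    · rw [Fam_psi_one (h2.trans (Fam_aa_anti hk))]
      exact (w (2 * k)).2.2
    · subst hk
      exact key.2 h3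
    · rw [(mem_R_aa (n + 1) w).1 hw k hk]
      exact le_max_left _ _

end Pool.Agent.H56.SQ
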