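import Mathlib
import Pool.Agent.H56.SQ.Basic
import Pool.Agent.H56.SQ.Rot

set_option autoImplicit false

/-!
# SQ-03: Klee trick and the extension theorem for deficient sets

`klee`.  Let `a z = (f z).1`, `b z = (g z).1`, two closed embeddings of the compact space `Z` in `Q`.
Split the second factor `Q` into three copies of `Q` (an equivalence `ℕ ≃ ℕ ⊕ ℕ ⊕ ℕ`), so that the space
is `{(x,y,p,q)}`, four copies of `Q`, `f z = (a z, 0, 0, 0)`, `g z = (b z, 0, 0, 0)`.
Tietze: a continuous `bh : Q → Q` with `bh (a z) = b z` and a continuous `ah : Q → Q` with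
`ah (b z) = a z` (coordinatewise; `a(Z)`, `b(Z)` are closed; mathlib: `TietzeExtension`, instances for
`Set.Icc`/`unitInterval` and pi types, or `BoundedContinuousFunction.exists_extension_forall_mem_Icc...`).
With `rot` of `exists_rot`:
  `Φ (x,y,p,q) = (x,y,p',q')`, `(p' i, q' i) = rot (bh x i) (p i, q i)`: takes `f z` to `(a z, 0, b z, 0)`
(because `rot t (0,0) = (t,0)`);
  `Ψ (x,y,p,q) = (x',y',p,q)`, `(x' i, y' i) = (rot (ah p i)).symm (x i, y i)`: takes `(a z,0,b z,0)` to
`(0,0,b z,0)` (because `rot t (0,0) = (t,0)`).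
Then exchange `(x,y)` and `(p,q)`: `(b z,0,0,0) = g z`.  `Φ`, `Ψ` are homeomorphisms (joint continuity of
`rot` and `rot.symm`; or continuous bijection of compact Hausdorff spaces).

`extend_homeo`.  `α : A ≃ Q × Q`, `α' : A' ≃ Q × Q` from deficiency; apply `klee` to `f = α` on `Z`,
`g = α' ∘ k`; `H = α'⁻¹ ∘ (klee) ∘ α`.
-/

namespace Pool.Agent.H56.SQ

open unitInterval

/-- The Hilbert cube is homeomorphic to its square, with `0` going to `(0,0)`. -/
theorem exists_split : ∃ S : Q ≃ₜ Q × Q, S 0 = (0, 0) := by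
  let e : (ℕ ⊕ ℕ → I) ≃ₜ (ℕ → I) := Homeomorph.piCongrLeft (Y := fun _ => I) Equiv.natSumNatEquivNat
  refine ⟨e.symm.trans Homeomorph.sumArrowHomeomorphProdArrow, ?_⟩
  rfl

theorem tietzeI : TietzeExtension.{0, 0} I :=
  TietzeExtension.of_retract (Z := ℝ) ⟨Subtype.val, continuous_subtype_val⟩
    ⟨Set.projIcc 0 1 zero_le_one, continuous_projIcc⟩ (by
      ext x
      simp)

/-- Tietze for the Hilbert cube. -/
theorem tietzeQ {Z : Type} [TopologicalSpace Z] [CompactSpace Z] (a b : Z → Q)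
    (ha : Continuous a) (hai : Function.Injective a) (hb : Continuous b) :
    ∃ c : Q → Q, Continuous c ∧ ∀ z, c (a z) = b z := by
  haveI := tietzeI
  have he : Topology.IsClosedEmbedding a := ha.isClosedEmbedding hai
  obtain ⟨g, hg⟩ := ContinuousMap.exists_extension' he (⟨b, hb⟩ : C(Z, Q))
  exact ⟨g, g.continuous, fun z => congrFun hg z⟩

/-- A family of homeomorphisms of `Y`, applied to the second factor. -/
def fibHomeo {X Y U : Type} [TopologicalSpace X] [TopologicalSpace Y] [TopologicalSpace U]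
    (F G : U × Y → Y) (hF : Continuous F) (hG : Continuous G)
    (h1 : ∀ u y, G (u, F (u, y)) = y) (h2 : ∀ u y, F (u, G (u, y)) = y)
    (c : X → U) (hc : Continuous c) : (X × Y) ≃ₜ (X × Y) where
  toFun p := (p.1, F (c p.1, p.2))
  invFun p := (p.1, G (c p.1, p.2))
  left_inv p := by simp [h1]
  right_inv p := by simp [h2]
  continuous_toFun := by fun_prop
  continuous_invFun := by fun_prop

theorem klee {Z : Type} [TopologicalSpace Z] [CompactSpace Z] (f g : Z → Q × Q)
    (hf : Continuous f) (hg : Continuous g) (hfi : Function.Injective f)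
    (hgi : Function.Injective g) (hf0 : ∀ z, (f z).2 = 0) (hg0 : ∀ z, (g z).2 = 0) :
    ∃ H : (Q × Q) ≃ₜ (Q × Q), ∀ z, H (f z) = g z := by
  obtain ⟨rot, hr1, hr2, -, hr0, -⟩ := exists_rot
  obtain ⟨S, hS⟩ := exists_split
  have hai : Function.Injective (fun z => (f z).1) := by
    intro z z' h
    apply hfi
    exact Prod.ext h ((hf0 z).trans (hf0 z').symm)
  have hbi : Function.Injective (fun z => (g z).1) := by
    intro z z' h
    apply hgi
    exact Prod.ext h ((hg0 z).trans (hg0 z').symm)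
  obtain ⟨bh, hbh, hbh'⟩ := tietzeQ (fun z => (f z).1) (fun z => (g z).1)
    (continuous_fst.comp hf) hai (continuous_fst.comp hg)
  obtain ⟨ah, hah, hah'⟩ := tietzeQ (fun z => (g z).1) (fun z => (f z).1)
    (continuous_fst.comp hg) hbi (continuous_fst.comp hf)
  -- the families
  let F : Q × (Q × Q) → Q × Q := fun p =>
    (fun i => (rot (p.1 i) (p.2.1 i, p.2.2 i)).1, fun i => (rot (p.1 i) (p.2.1 i, p.2.2 i)).2)
  let G : Q × (Q × Q) → Q × Q := fun p =>
    (fun i => ((rot (p.1 i)).symm (p.2.1 i, p.2.2 i)).1,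
      fun i => ((rot (p.1 i)).symm (p.2.1 i, p.2.2 i)).2)
  have hc : ∀ i : ℕ, Continuous (fun p : Q × (Q × Q) => (p.1 i, (p.2.1 i, p.2.2 i))) := by
    intro i
    fun_prop
  have hF : Continuous F := by
    refine Continuous.prodMk (continuous_pi fun i => ?_) (continuous_pi fun i => ?_)
    · exact continuous_fst.comp (hr1.comp (hc i))
    · exact continuous_snd.comp (hr1.comp (hc i))
  have hG : Continuous G := by
    refine Continuous.prodMk (continuous_pi fun i => ?_) (continuous_pi fun i => ?_)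
    · exact continuous_fst.comp (hr2.comp (hc i))
    · exact continuous_snd.comp (hr2.comp (hc i))
  have h1 : ∀ u y, G (u, F (u, y)) = y := by
    intro u y
    refine Prod.ext (funext fun i => ?_) (funext fun i => ?_)
    · show ((rot (u i)).symm ((rot (u i) (y.1 i, y.2 i)).1, (rot (u i) (y.1 i, y.2 i)).2)).1 = y.1 i
      rw [Prod.mk.eta, Homeomorph.symm_apply_apply]
    · show ((rot (u i)).symm ((rot (u i) (y.1 i, y.2 i)).1, (rot (u i) (y.1 i, y.2 i)).2)).2 = y.2 i
      rw [Prod.mk.eta, Homeomorph.symm_apply_apply]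
  have h2 : ∀ u y, F (u, G (u, y)) = y := by
    intro u y
    refine Prod.ext (funext fun i => ?_) (funext fun i => ?_)
    · show (rot (u i) (((rot (u i)).symm (y.1 i, y.2 i)).1, ((rot (u i)).symm (y.1 i, y.2 i)).2)).1
        = y.1 i
      rw [Prod.mk.eta, Homeomorph.apply_symm_apply]
    · show (rot (u i) (((rot (u i)).symm (y.1 i, y.2 i)).1, ((rot (u i)).symm (y.1 i, y.2 i)).2)).2
        = y.2 i
      rw [Prod.mk.eta, Homeomorph.apply_symm_apply]
  have hF0 : ∀ u, F (u, (0, 0)) = (u, 0) := by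
    intro u
    refine Prod.ext (funext fun i => ?_) (funext fun i => ?_)
    · show (rot (u i) (0, 0)).1 = u i
      rw [hr0]
    · show (rot (u i) (0, 0)).2 = 0
      rw [hr0]
  have hG0 : ∀ u, G (u, (u, 0)) = (0, 0) := by
    intro u
    have := h1 u (0, 0)
    rwa [hF0] at this
  -- the splitting of the whole space into four copies of `Q`
  let T : (Q × Q) ≃ₜ (Q × Q) × (Q × Q) :=
    ((Homeomorph.refl Q).prodCongr (S.trans ((Homeomorph.refl Q).prodCongr S))).trans
      (Homeomorph.prodAssoc Q Q (Q × Q)).symm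
  have hT : ∀ x : Q, T (x, 0) = ((x, 0), (0, 0)) := by
    intro x
    show ((x, (S 0).1), S (S 0).2) = ((x, 0), (0, 0))
    rw [hS]
    simp only
    rw [hS]
  let Φ : ((Q × Q) × (Q × Q)) ≃ₜ ((Q × Q) × (Q × Q)) :=
    fibHomeo F G hF hG h1 h2 (fun x : Q × Q => bh x.1) (hbh.comp continuous_fst)
  let Ψ : ((Q × Q) × (Q × Q)) ≃ₜ ((Q × Q) × (Q × Q)) :=
    fibHomeo G F hG hF h2 h1 (fun x : Q × Q => ah x.1) (hah.comp continuous_fst)
  let C : ((Q × Q) × (Q × Q)) ≃ₜ ((Q × Q) × (Q × Q)) := Homeomorph.prodComm (Q × Q) (Q × Q)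
  refine ⟨T.trans (Φ.trans (C.trans (Ψ.trans T.symm))), fun z => ?_⟩
  have e1 : f z = ((f z).1, 0) := Prod.ext rfl (hf0 z)
  have e2 : g z = ((g z).1, 0) := Prod.ext rfl (hg0 z)
  have s1 : T (f z) = (((f z).1, 0), (0, 0)) := by
    conv_lhs => rw [e1]
    exact hT _
  have s2 : Φ (((f z).1, 0), (0, 0)) = (((f z).1, 0), ((g z).1, 0)) := by
    show (((f z).1, (0 : Q)), F (bh (f z).1, (0, 0))) = _
    rw [hF0, hbh']
  have s3 : C (((f z).1, 0), ((g z).1, 0)) = (((g z).1, 0), ((f z).1, 0)) := rfl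
  have s4 : Ψ (((g z).1, 0), ((f z).1, 0)) = (((g z).1, 0), (0, 0)) := by
    show (((g z).1, (0 : Q)), G (ah (g z).1, ((f z).1, 0))) = _
    rw [hah', hG0]
  show T.symm (Ψ (C (Φ (T (f z))))) = g z
  rw [s1, s2, s3, s4, Homeomorph.symm_apply_eq, e2, hT]

theorem extend_homeo {A A' : Type} [TopologicalSpace A] [TopologicalSpace A'] {Z : Set A}
    {Z' : Set A'} (hZc : IsClosed Z) (hZ : Defic Z) (hZ' : Defic Z') (k : Z ≃ₜ Z') :
    ∃ H : A ≃ₜ A', ∀ z : Z, H z = k z := by
  obtain ⟨α, hα⟩ := hZ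
  obtain ⟨α', hα'⟩ := hZ'
  haveI : CompactSpace A := α.symm.compactSpace
  haveI : CompactSpace Z := isCompact_iff_compactSpace.mp hZc.isCompact
  obtain ⟨H, hH⟩ := klee (fun z : Z => α z) (fun z : Z => α' (k z))
    (α.continuous.comp continuous_subtype_val)
    (α'.continuous.comp (continuous_subtype_val.comp k.continuous))
    (α.injective.comp Subtype.val_injective)
    (α'.injective.comp (Subtype.val_injective.comp k.injective))
    (fun z => hα z z.2) (fun z => hα' _ (k z).2)
  refine ⟨(α.trans H).trans α'.symm, fun z => ?_⟩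
  show α'.symm (H (α z)) = k z
  rw [Homeomorph.symm_apply_eq]
  exact hH z

end Pool.Agent.H56.SQ
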