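import Mathlib
import Pool.Agent.H56.SQ.Basic
import Pool.Agent.H56.SQ.Klee
import Pool.Agent.H56.SQ.PushDef
import Pool.Agent.H56.SQ.Fam

set_option autoImplicit false

/-!
# SQ-08a: a collar structure in which the zero level is C x R (aa n)

`collar_R`: `Y × Q ≃ Q`, `C ⊆ Y` closed, `C × Q ≃ Q`.  For every `n` there is a homeomorphism
`Ω : Y × Q ≃ Q × I` with `(Ω p).2 = 0 ↔ p ∈ C × R (aa n)`.
Proof: `Z = C × R (aa n)`, closed.  (a) `Z` is deficient in `Y × Q`: `Q ≃ Q × Q` by splitting off the
coordinates `2k`, `k ≥ n` (they are `0` on `R (aa n)`), `Y × Q ≃ (Y × Q) × Q ≃ Q × Q`.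
(b) `Z ≃ C × Q ≃ Q`.  (c) `Z' = Q × {0} ⊆ Q × I` is deficient by `defic_of_push` with `A = I`, `r = id`,
`η m a = m + (1-m) a` (and the swap `I × Q ≃ Q × I`), `Z' ≃ Q`.  (d) `extend_homeo`.
-/

namespace Pool.Agent.H56.SQ

open unitInterval Set

/-- splitting the coordinates of `Q` into two infinite groups -/
def collarSplit (e : ℕ ≃ ℕ ⊕ ℕ) : Q ≃ₜ Q × Q where
  toFun w := (fun a => w (e.symm (Sum.inl a)), fun b => w (e.symm (Sum.inr b)))
  invFun p := fun i => Sum.elim p.1 p.2 (e i)
  left_inv w := by
    funext i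
    have h := e.symm_apply_apply i
    show Sum.elim (fun a => w (e.symm (Sum.inl a))) (fun b => w (e.symm (Sum.inr b))) (e i) = w i
    rcases hi : e i with a | b
    · rw [hi] at h
      exact congrArg w h
    · rw [hi] at h
      exact congrArg w h
  right_inv p := by
    refine Prod.ext ?_ ?_
    · funext a
      show Sum.elim p.1 p.2 (e (e.symm (Sum.inl a))) = p.1 a
      rw [Equiv.apply_symm_apply]
      rfl
    · funext b
      show Sum.elim p.1 p.2 (e (e.symm (Sum.inr b))) = p.2 b
      rw [Equiv.apply_symm_apply]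
      rfl
  continuous_toFun :=
    (continuous_pi fun _ => continuous_apply _).prodMk (continuous_pi fun _ => continuous_apply _)
  continuous_invFun := continuous_pi fun i => by
    rcases e i with a | b
    · simp only [Sum.elim_inl]
      exact (continuous_apply a).comp continuous_fst
    · simp only [Sum.elim_inr]
      exact (continuous_apply b).comp continuous_snd

/-- an equivalence `ℕ ≃ ℕ ⊕ ℕ` for which the second summand is `2 (n + j)` -/
theorem collar_equiv (n : ℕ) : ∃ e : ℕ ≃ ℕ ⊕ ℕ, ∀ j, e.symm (Sum.inr j) = 2 * (n + j) := by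
  classical
  let P : ℕ → Prop := fun i => ∃ j, i = 2 * (n + j)
  have hinf : Infinite {i // ¬ P i} := by
    refine Infinite.of_injective (fun k : ℕ => (⟨2 * k + 1, ?_⟩ : {i // ¬ P i})) ?_
    · rintro ⟨j, hj⟩
      omega
    · intro a b hab
      have := congrArg Subtype.val hab
      simp only at this
      omega
  obtain ⟨f⟩ : Nonempty (ℕ ≃ {i // ¬ P i}) := nonempty_equiv_of_countable
  let g : ℕ ≃ {i // P i} := Equiv.ofBijective (fun j => ⟨2 * (n + j), j, rfl⟩) (by
    constructor
    · intro a b hab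
      have := congrArg Subtype.val hab
      simp only at this
      omega
    · rintro ⟨i, j, hj⟩
      exact ⟨j, Subtype.ext hj.symm⟩)
  let e' : ℕ ⊕ ℕ ≃ ℕ := (Equiv.sumComm ℕ ℕ).trans
    ((Equiv.sumCongr g f).trans (Equiv.sumCompl P))
  exact ⟨e'.symm, fun j => rfl⟩

/-- `I × Q ≃ Q` -/
theorem collar_I_Q : Nonempty ((I × Q) ≃ₜ Q) := by
  obtain ⟨e⟩ : Nonempty (ℕ ≃ Unit ⊕ ℕ) := nonempty_equiv_of_countable
  refine ⟨Homeomorph.symm ?_⟩
  exact (Homeomorph.piCongrLeft (Y := fun _ : Unit ⊕ ℕ => I) e).trans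
    (Homeomorph.sumArrowHomeomorphProdArrow.trans
      ((Homeomorph.funUnique Unit I).prodCongr (Homeomorph.refl Q)))

/-- the end face of `Q × I` is deficient -/
theorem collar_defic : Defic {p : Q × I | p.2 = 0} := by
  have h := defic_of_push (A := I) (fun a => a) continuous_id
    (fun m a => σ (σ m * σ a)) (by fun_prop) (fun a => by simp)
    (fun m hm a b hab => by
      have h1 : σ m * σ a = σ m * σ b := unitInterval.symm_bijective.1 hab
      have h2 : ((σ m * σ a : I) : ℝ) = ((σ m * σ b : I) : ℝ) := congrArg _ h1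
      simp only [Set.Icc.coe_mul, unitInterval.coe_symm_eq] at h2
      have h3 : (1 - (m : ℝ)) ≠ 0 := by linarith
      have h4 := mul_left_cancel₀ h3 h2
      exact Subtype.ext (by linarith))
    (fun m hm => by
      ext a
      simp only [mem_range, mem_ofPred_eq]
      constructor
      · rintro ⟨a', rfl⟩
        rw [← Subtype.coe_le_coe, unitInterval.coe_symm_eq, Set.Icc.coe_mul,
          unitInterval.coe_symm_eq, unitInterval.coe_symm_eq]
        have h1 : (0 : ℝ) ≤ a' := a'.2.1
        have h2 : (m : ℝ) ≤ 1 := m.2.2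
        nlinarith
      · intro hma
        have hma' : (m : ℝ) ≤ a := hma
        have h1 : (a : ℝ) ≤ 1 := a.2.2
        have h2 : (0 : ℝ) < 1 - m := by linarith
        refine ⟨⟨((a : ℝ) - m) / (1 - m), div_nonneg (by linarith) h2.le,
          (div_le_one h2).2 (by linarith)⟩, ?_⟩
        apply Subtype.ext
        rw [unitInterval.coe_symm_eq, Set.Icc.coe_mul, unitInterval.coe_symm_eq,
          unitInterval.coe_symm_eq]
        show 1 - (1 - (m : ℝ)) * (1 - ((a : ℝ) - m) / (1 - m)) = a
        field_simp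
        ring)
    collar_I_Q
  have h2 := h.image (Homeomorph.prodComm I Q)
  refine h2.mono ?_
  rintro ⟨q, t⟩ ht
  exact ⟨(t, q), ht, rfl⟩

theorem collar_R {Y : Type} [MetricSpace Y] [CompactSpace Y] (C : Set Y) (hC : IsClosed C)
    (hY : Nonempty ((Y × Q) ≃ₜ Q)) (hCQ : Nonempty ((C × Q) ≃ₜ Q)) (n : ℕ) :
    ∃ Ω : (Y × Q) ≃ₜ (Q × I), ∀ p, (Ω p).2 = 0 ↔ (p.1 ∈ C ∧ p.2 ∈ R (aa n)) := by
  obtain ⟨e, he⟩ := collar_equiv n
  obtain ⟨fY⟩ := hY
  obtain ⟨fC⟩ := hCQ
  have hR : ∀ w : Q, w ∈ R (aa n) ↔ (collarSplit e w).2 = 0 := by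
    intro w
    rw [mem_R_aa]
    constructor
    · intro h
      funext j
      show w (e.symm (Sum.inr j)) = 0
      rw [he]
      exact h (n + j) (by omega)
    · intro h k hk
      have h1 := congrFun h (k - n)
      have h2 : w (e.symm (Sum.inr (k - n))) = 0 := h1
      rwa [he, show n + (k - n) = k by omega] at h2
  set Z : Set (Y × Q) := {p | p.1 ∈ C ∧ p.2 ∈ R (aa n)} with hZ
  set Z' : Set (Q × I) := {p | p.2 = 0} with hZ'
  have hRc : IsClosed (R (aa n)) :=
    R_closed.preimage (f := fun w : Q => ((aa n, w) : ℝ × Q)) (by fun_prop)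
  have hZc : IsClosed Z := (hC.preimage continuous_fst).inter (hRc.preimage continuous_snd)
  have hZd : Defic Z := by
    refine ⟨((Homeomorph.refl Y).prodCongr (collarSplit e)).trans
      ((Homeomorph.prodAssoc Y Q Q).symm.trans (fY.prodCongr (Homeomorph.refl Q))), ?_⟩
    intro z hz
    exact (hR z.2).1 hz.2
  let k1 : Z ≃ₜ (C × Q) :=
    { toFun := fun p => (⟨p.1.1, p.2.1⟩, (collarSplit e p.1.2).1)
      invFun := fun c => ⟨(c.1.1, (collarSplit e).symm (c.2, 0)), c.1.2,
        (hR _).2 (by rw [Homeomorph.apply_symm_apply])⟩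
      left_inv := fun p => by
        apply Subtype.ext
        refine Prod.ext rfl ?_
        show (collarSplit e).symm ((collarSplit e p.1.2).1, 0) = p.1.2
        have h1 : (((collarSplit e p.1.2).1, 0) : Q × Q) = collarSplit e p.1.2 :=
          Prod.ext rfl ((hR p.1.2).1 p.2.2).symm
        rw [h1, Homeomorph.symm_apply_apply]
      right_inv := fun c => by
        refine Prod.ext rfl ?_
        show (collarSplit e ((collarSplit e).symm (c.2, 0))).1 = c.2
        rw [Homeomorph.apply_symm_apply]
      continuous_toFun := by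
        refine Continuous.prodMk ?_ ?_
        · exact Continuous.subtype_mk (continuous_fst.comp continuous_subtype_val) _
        · exact continuous_fst.comp ((collarSplit e).continuous.comp
            (continuous_snd.comp continuous_subtype_val))
      continuous_invFun := by
        refine Continuous.subtype_mk ?_ _
        refine Continuous.prodMk (continuous_subtype_val.comp continuous_fst) ?_
        exact (collarSplit e).symm.continuous.comp (continuous_snd.prodMk continuous_const) }
  let k2 : Z' ≃ₜ Q :=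
    { toFun := fun p => p.1.1
      invFun := fun q => ⟨(q, 0), rfl⟩
      left_inv := fun p => by
        apply Subtype.ext
        exact Prod.ext rfl (show (0 : I) = p.1.2 from p.2.symm)
      right_inv := fun q => rfl
      continuous_toFun := continuous_fst.comp continuous_subtype_val
      continuous_invFun := Continuous.subtype_mk (continuous_id.prodMk continuous_const) _ }
  obtain ⟨H, hH⟩ := extend_homeo (A := Y × Q) (A' := Q × I) hZc hZd collar_defic
    (k1.trans (fC.trans k2.symm))
  refine ⟨H, fun p => ⟨fun hp => ?_, fun hp => ?_⟩⟩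
  · obtain ⟨z, hz⟩ := (k1.trans (fC.trans k2.symm)).surjective ⟨H p, hp⟩
    have h1 := hH z
    rw [hz] at h1
    have h2 : (z : Y × Q) = p := H.injective h1
    rw [← h2]
    exact z.2
  · have h1 := hH ⟨p, hp⟩
    rw [h1]
    exact ((k1.trans (fC.trans k2.symm)) ⟨p, hp⟩).2

end Pool.Agent.H56.SQ
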