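import Mathlib
import Pool.Agent.H56.SQ.Basic

set_option autoImplicit false

/-!
# SQ-09a: cubical cones over finite complexes: attaching one cell

`PP L = {z : α → [0,1] | support of z ∈ L}` for a finite set `L` of finite subsets of the finite type `α`,
closed under subsets and containing `∅` (the cubical cone over the complex `L \ {∅}`).

`cone_step`: `L₁` closed under subsets, `σ` nonempty, `σ ∉ L₁`, all proper subsets of `σ` in `L₁`.  Then
`PP L₁` with a collar attached on `PP (proper subsets of σ)` is `PP (insert σ L₁)`.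
Map `Φ : {(y,u) ∈ PP L₁ × I | u = 0 ∨ y ∈ PP σ.ssubsets} → PP (insert σ L₁)`: `Φ (y,0) = y`, and for
`y ∈ PP σ.ssubsets` (so `y` is supported in `σ` and `y i = 0` for some `i ∈ σ`)
  `z i = (y i + u) * (max u M) / (u + M)` for `i ∈ σ`, `z i = 0` otherwise, `M = max_i y i`
(value `0` at `u = M = 0`).  For `u = 0` it is `z = y`, so the two definitions agree.
Continuity: on the closed piece `{u = 0}` clear; on the closed piece `{y ∈ PP σ.ssubsets}` at points with
`u + M > 0` clear, at `(0,0)` because `0 ≤ z i ≤ max u M`.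
Injective/surjective: the image of `{u = 0}` is `PP L₁`.  For `u > 0` all `z i > 0`, `i ∈ σ`, so `z ∉ PP L₁`
(otherwise `σ ⊆ s ∈ L₁`, `σ ∈ L₁`).  If `z` is supported in `σ` with `c = min_σ z > 0`, put `y0 = z - c` on
`σ`, `M0 = max y0`; then `(y,u) = (y0, c) * (c + M0) / max c M0` is the unique preimage (note
`c + M0 = max z ≤ 1`, and for `Φ (y,u) = z` one has `max u M = max z = c + M0`,
`u * max u M / (u + M) = c`, `M * max u M / (u + M) = M0`).
Continuous bijection of compact Hausdorff spaces = homeomorphism.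
-/

namespace Pool.Agent.H56.SQ

open unitInterval Set

/-- the cubical cone over a complex -/
def PP {α : Type} [Fintype α] [DecidableEq α] (L : Finset (Finset α)) : Set (α → I) :=
  {z | ∃ s ∈ L, ∀ i, i ∉ s → z i = 0}

theorem PP_closed {α : Type} [Fintype α] [DecidableEq α] (L : Finset (Finset α)) :
    IsClosed (PP L) := by
  have h : PP L = ⋃ s ∈ L, {z : α → I | ∀ i, i ∉ s → z i = 0} := by
    ext z
    simp [PP]
  rw [h]
  refine L.finite_toSet.isClosed_biUnion fun s _ => ?_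
  have h2 : {z : α → I | ∀ i, i ∉ s → z i = 0} = ⋂ i, {z : α → I | i ∉ s → z i = 0} := by
    ext z
    simp
  rw [h2]
  refine isClosed_iInter fun i => ?_
  by_cases hi : i ∈ s
  · have : {z : α → I | i ∉ s → z i = 0} = Set.univ := by ext z; simp [hi]
    rw [this]
    exact isClosed_univ
  · have : {z : α → I | i ∉ s → z i = 0} = {z : α → I | z i = 0} := by ext z; simp [hi]
    rw [this]
    exact isClosed_eq (continuous_apply i) continuous_const

namespace ConeStepAux

variable {α : Type} [Fintype α] [DecidableEq α] (s : Finset α) (hs : s.Nonempty)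

/-- the maximum on `s` -/
noncomputable def mx (y : α → I) : ℝ := s.sup' hs fun i => (y i : ℝ)

omit [Fintype α] [DecidableEq α] in
theorem mx_cont : Continuous (mx s hs) := by
  unfold mx
  exact Continuous.finset_sup'_apply hs fun i _ => continuous_subtype_val.comp (continuous_apply i)

omit [Fintype α] [DecidableEq α] in
theorem le_mx {y : α → I} {i : α} (hi : i ∈ s) : (y i : ℝ) ≤ mx s hs y :=
  Finset.le_sup' (fun i => (y i : ℝ)) hi

omit [Fintype α] [DecidableEq α] in
theorem exists_mx (y : α → I) : ∃ i ∈ s, mx s hs y = y i :=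
  Finset.exists_mem_eq_sup' hs fun i => (y i : ℝ)

omit [Fintype α] [DecidableEq α] in
theorem mx_nonneg (y : α → I) : 0 ≤ mx s hs y := by
  obtain ⟨i, _, h⟩ := exists_mx s hs y
  rw [h]
  exact (y i).2.1

omit [Fintype α] [DecidableEq α] in
theorem mx_le_one (y : α → I) : mx s hs y ≤ 1 := by
  obtain ⟨i, _, h⟩ := exists_mx s hs y
  rw [h]
  exact (y i).2.2

/-- the formula -/
noncomputable def fr (p : (α → I) × I) (i : α) : ℝ :=
  ((p.1 i : ℝ) + p.2) * max (p.2 : ℝ) (mx s hs p.1) / ((p.2 : ℝ) + mx s hs p.1)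

theorem fr_nonneg (p : (α → I) × I) (i : α) : 0 ≤ fr s hs p i := by
  have h1 := (p.1 i).2.1
  have h2 := p.2.2.1
  have h3 := mx_nonneg s hs p.1
  unfold fr
  positivity

theorem fr_le (p : (α → I) × I) {i : α} (hi : i ∈ s) :
    fr s hs p i ≤ max (p.2 : ℝ) (mx s hs p.1) := by
  have h1 := (p.1 i).2.1
  have h2 := p.2.2.1
  have h3 := mx_nonneg s hs p.1
  have h4 := le_mx s hs (y := p.1) hi
  have h5 : 0 ≤ max (p.2 : ℝ) (mx s hs p.1) := le_max_of_le_left h2
  unfold fr
  rcases (add_nonneg h2 h3).eq_or_lt with h0 | h0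
  · rw [← h0, div_zero]
    exact h5
  · rw [div_le_iff₀ h0, mul_comm]
    exact mul_le_mul_of_nonneg_left (by linarith) h5

theorem fr_le_one (p : (α → I) × I) {i : α} (hi : i ∈ s) : fr s hs p i ≤ 1 :=
  (fr_le s hs p hi).trans (max_le p.2.2.2 (mx_le_one s hs p.1))

theorem fr_cont {i : α} (hi : i ∈ s) : Continuous fun p => fr s hs p i := by
  have c1 : Continuous fun p : (α → I) × I => (p.1 i : ℝ) :=
    continuous_subtype_val.comp ((continuous_apply i).comp continuous_fst)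
  have c2 : Continuous fun p : (α → I) × I => (p.2 : ℝ) := continuous_subtype_val.comp continuous_snd
  have c3 : Continuous fun p : (α → I) × I => mx s hs p.1 := (mx_cont s hs).comp continuous_fst
  rw [continuous_iff_continuousAt]
  intro p
  by_cases h0 : (p.2 : ℝ) + mx s hs p.1 = 0
  · have h2 := p.2.2.1
    have h3 := mx_nonneg s hs p.1
    have hp2 : (p.2 : ℝ) = 0 := by linarith
    have hm : mx s hs p.1 = 0 := by linarith
    have hv : fr s hs p i = 0 := by
      unfold fr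
      rw [h0, div_zero]
    have hlim : Filter.Tendsto (fun q : (α → I) × I => max (q.2 : ℝ) (mx s hs q.1)) (nhds p)
        (nhds 0) := by
      have := (c2.max c3).tendsto p
      rwa [hp2, hm, max_self] at this
    show Filter.Tendsto (fun q => fr s hs q i) (nhds p) (nhds (fr s hs p i))
    rw [hv]
    exact squeeze_zero (fun q => fr_nonneg s hs q i) (fun q => fr_le s hs q hi) hlim
  · unfold fr
    exact ContinuousAt.div ((c1.add c2).mul (c2.max c3)).continuousAt
      (c2.add c3).continuousAt h0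

/-- the map -/
noncomputable def Fm (p : (α → I) × I) : α → I := fun i =>
  if h : i ∈ s then ⟨fr s hs p i, fr_nonneg s hs p i, fr_le_one s hs p h⟩ else 0

theorem Fm_cont : Continuous (Fm s hs) := by
  refine continuous_pi fun i => ?_
  by_cases hi : i ∈ s
  · have : (fun p => Fm s hs p i) =
        fun p => (⟨fr s hs p i, fr_nonneg s hs p i, fr_le_one s hs p hi⟩ : I) := by
      funext p
      simp [Fm, hi]
    rw [this]
    exact (fr_cont s hs hi).subtype_mk _
  · have : (fun p => Fm s hs p i) = fun _ => (0 : I) := by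
      funext p
      simp [Fm, hi]
    rw [this]
    exact continuous_const

theorem Fm_mem {p : (α → I) × I} {i : α} (hi : i ∈ s) : (Fm s hs p i : ℝ) = fr s hs p i := by
  simp [Fm, hi]

theorem Fm_not {p : (α → I) × I} {i : α} (hi : i ∉ s) : Fm s hs p i = 0 := by
  simp [Fm, hi]

theorem Fm_zero {y : α → I} (hy : ∀ i, i ∉ s → y i = 0) : Fm s hs (y, 0) = y := by
  funext i
  by_cases hi : i ∈ s
  · apply Subtype.ext
    rw [Fm_mem s hs hi]
    unfold fr
    have h3 := mx_nonneg s hs y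
    have h4 := le_mx s hs (y := y) hi
    have h1 := (y i).2.1
    simp only [Set.Icc.coe_zero, add_zero, zero_add, max_eq_right h3]
    rcases h3.eq_or_lt with h0 | h0
    · rw [← h0, div_zero]
      linarith
    · rw [mul_div_assoc, div_self h0.ne', mul_one]
  · rw [Fm_not s hs hi, hy i hi]

theorem fr_pos {p : (α → I) × I} (hp : 0 < (p.2 : ℝ)) (i : α) : 0 < fr s hs p i := by
  have h1 := (p.1 i).2.1
  have h3 := mx_nonneg s hs p.1
  have h4 : 0 < max (p.2 : ℝ) (mx s hs p.1) := lt_max_of_lt_left hp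
  unfold fr
  positivity

theorem Fm_inj {y y' : α → I} {u u' : I} (hy : ∀ i, i ∉ s → y i = 0) (hy' : ∀ i, i ∉ s → y' i = 0)
    {i0 i0' : α} (hi0 : i0 ∈ s) (hi0' : i0' ∈ s) (hz : y i0 = 0) (hz' : y' i0' = 0)
    (hu : 0 < (u : ℝ)) (hu' : 0 < (u' : ℝ)) (h : Fm s hs (y, u) = Fm s hs (y', u')) :
    y = y' ∧ u = u' := by
  obtain ⟨M, hM⟩ : ∃ M, M = mx s hs y := ⟨_, rfl⟩
  obtain ⟨M', hM'⟩ : ∃ M', M' = mx s hs y' := ⟨_, rfl⟩
  have hM0 : 0 ≤ M := hM ▸ mx_nonneg s hs y
  have hM0' : 0 ≤ M' := hM' ▸ mx_nonneg s hs y'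
  obtain ⟨l, hl⟩ : ∃ l, l = max (u : ℝ) M / (u + M) := ⟨_, rfl⟩
  obtain ⟨l', hl'⟩ : ∃ l', l' = max (u' : ℝ) M' / (u' + M') := ⟨_, rfl⟩
  have hlp : 0 < l := by
    rw [hl]
    have : 0 < max (u : ℝ) M := lt_max_of_lt_left hu
    positivity
  have hlp' : 0 < l' := by
    rw [hl']
    have : 0 < max (u' : ℝ) M' := lt_max_of_lt_left hu'
    positivity
  have hsum : l * (u + M) = max (u : ℝ) M := by
    rw [hl]
    exact div_mul_cancel₀ _ (by positivity)
  have hsum' : l' * (u' + M') = max (u' : ℝ) M' := by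
    rw [hl']
    exact div_mul_cancel₀ _ (by positivity)
  have key : ∀ i ∈ s, ((y i : ℝ) + u) * l = ((y' i : ℝ) + u') * l' := by
    intro i hi
    have h1 : (Fm s hs (y, u) i : ℝ) = Fm s hs (y', u') i := by rw [h]
    rw [Fm_mem s hs hi, Fm_mem s hs hi] at h1
    unfold fr at h1
    simp only at h1
    rw [← hM, ← hM', mul_div_assoc, mul_div_assoc, ← hl, ← hl'] at h1
    exact h1
  have e0 := key i0 hi0
  have e0' := key i0' hi0'
  rw [hz] at e0
  rw [hz'] at e0'
  simp only [Set.Icc.coe_zero, zero_add] at e0 e0'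
  have hc : (u : ℝ) * l = u' * l' := by
    apply le_antisymm
    · rw [← e0']
      have := (y i0').2.1
      nlinarith
    · rw [e0]
      have := (y' i0).2.1
      nlinarith
  have key2 : ∀ i ∈ s, (y i : ℝ) * l = y' i * l' := by
    intro i hi
    have := key i hi
    linarith
  have hMM : M * l = M' * l' := by
    obtain ⟨i1, hi1, h1⟩ := exists_mx s hs y
    obtain ⟨i1', hi1', h1'⟩ := exists_mx s hs y'
    rw [← hM] at h1
    rw [← hM'] at h1'
    apply le_antisymm
    · rw [h1, key2 i1 hi1]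
      have := le_mx s hs (y := y') hi1
      rw [← hM'] at this
      nlinarith
    · rw [h1', ← key2 i1' hi1']
      have := le_mx s hs (y := y) hi1'
      rw [← hM] at this
      nlinarith
  have hmax : max (u : ℝ) M = max (u' : ℝ) M' := by
    rw [← hsum, ← hsum']
    linarith
  have hmax2 : max (u : ℝ) M * l = max (u' : ℝ) M' * l' := by
    rw [max_mul_of_nonneg _ _ hlp.le, max_mul_of_nonneg _ _ hlp'.le, hc, hMM]
  have hll : l = l' := by
    rw [← hmax] at hmax2
    exact mul_left_cancel₀ (lt_max_of_lt_left hu).ne' hmax2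
  constructor
  · funext i
    by_cases hi : i ∈ s
    · apply Subtype.ext
      have := key2 i hi
      rw [← hll] at this
      exact mul_right_cancel₀ hlp.ne' this
    · rw [hy i hi, hy' i hi]
  · apply Subtype.ext
    rw [← hll] at hc
    exact mul_right_cancel₀ hlp.ne' hc

theorem Fm_surj {z : α → I} (hz : ∀ i, i ∉ s → z i = 0) (hpos : ∀ i ∈ s, 0 < (z i : ℝ)) :
    ∃ (y : α → I) (u : I), 0 < (u : ℝ) ∧ (∀ i, i ∉ s → y i = 0) ∧ (∃ i0 ∈ s, y i0 = 0) ∧
      Fm s hs (y, u) = z := by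
  obtain ⟨i0, hi0, hmin⟩ := Finset.exists_min_image s (fun i => (z i : ℝ)) hs
  obtain ⟨i1, hi1, hmax⟩ := Finset.exists_max_image s (fun i => (z i : ℝ)) hs
  obtain ⟨c, hc⟩ : ∃ c : ℝ, c = z i0 := ⟨_, rfl⟩
  obtain ⟨m, hm⟩ : ∃ m : ℝ, m = z i1 := ⟨_, rfl⟩
  rw [← hc] at hmin
  rw [← hm] at hmax
  have hc0 : 0 < c := hc ▸ hpos i0 hi0
  have hcm : c ≤ m := hm ▸ hmin i1 hi1
  have hm1 : m ≤ 1 := hm ▸ (z i1).2.2
  have hm0 : 0 < m := by linarith
  obtain ⟨μ, hμ⟩ : ∃ μ : ℝ, μ = max c (m - c) := ⟨_, rfl⟩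
  have hμ1 : c ≤ μ := hμ ▸ le_max_left _ _
  have hμ2 : m - c ≤ μ := hμ ▸ le_max_right _ _
  have hμ0 : 0 < μ := by linarith
  obtain ⟨k, hk⟩ : ∃ k : ℝ, k = m / μ := ⟨_, rfl⟩
  have hk0 : 0 < k := by rw [hk]; positivity
  have hkμ : k * μ = m := by rw [hk]; exact div_mul_cancel₀ _ hμ0.ne'
  have hu1 : c * k ≤ 1 := by nlinarith
  have hy1 : ∀ i ∈ s, ((z i : ℝ) - c) * k ≤ 1 := by
    intro i hi
    have := hmax i hi
    nlinarith
  have hy0 : ∀ i ∈ s, 0 ≤ ((z i : ℝ) - c) * k := by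
    intro i hi
    have := hmin i hi
    exact mul_nonneg (by linarith) hk0.le
  obtain ⟨y, hy⟩ : ∃ y : α → I, y = fun i =>
      if h : i ∈ s then (⟨((z i : ℝ) - c) * k, hy0 i h, hy1 i h⟩ : I) else 0 := ⟨_, rfl⟩
  have hyv : ∀ i ∈ s, (y i : ℝ) = ((z i : ℝ) - c) * k := by
    intro i hi
    rw [hy]
    simp [hi]
  have hyn : ∀ i, i ∉ s → y i = 0 := by
    intro i hi
    rw [hy]
    simp [hi]
  have hM : mx s hs y = (m - c) * k := by
    apply le_antisymm
    · obtain ⟨i, hi, h⟩ := exists_mx s hs y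
      rw [h, hyv i hi]
      have := hmax i hi
      exact mul_le_mul_of_nonneg_right (by linarith) hk0.le
    · have := le_mx s hs (y := y) hi1
      rw [hyv i1 hi1, ← hm] at this
      exact this
  refine ⟨y, ⟨c * k, by positivity, hu1⟩, by simp only; positivity, hyn, ⟨i0, hi0, ?_⟩, ?_⟩
  · apply Subtype.ext
    rw [hyv i0 hi0, ← hc, sub_self, zero_mul]
    rfl
  · funext i
    by_cases hi : i ∈ s
    · apply Subtype.ext
      rw [Fm_mem s hs hi]
      unfold fr
      simp only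
      rw [hM, hyv i hi]
      have h1 : max (c * k) ((m - c) * k) = m := by
        rw [← max_mul_of_nonneg _ _ hk0.le, ← hμ, mul_comm, hkμ]
      have h2 : c * k + (m - c) * k = m * k := by ring
      rw [h1, h2]
      field_simp
      ring
    · rw [Fm_not s hs hi, hz i hi]

end ConeStepAux

open ConeStepAux in
theorem cone_step {α : Type} [Fintype α] [DecidableEq α] (L₁ : Finset (Finset α)) (s : Finset α)
    (hs : s.Nonempty) (hsL : s ∉ L₁) (hdown : ∀ t ∈ L₁, ∀ t' ⊆ t, t' ∈ L₁)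
    (hsub : ∀ t, t ⊂ s → t ∈ L₁) :
    Nonempty ({p : PP L₁ × I | p.2 = 0 ∨ p.1 ∈ {y : PP L₁ | (y : α → I) ∈ PP s.ssubsets}} ≃ₜ
      PP (insert s L₁)) := by
  have hL1 : ∀ z : α → I, z ∈ PP L₁ → z ∈ PP (insert s L₁) := by
    rintro z ⟨t, ht, h⟩
    exact ⟨t, Finset.mem_insert_of_mem ht, h⟩
  have hss : ∀ z : α → I, z ∈ PP s.ssubsets → (∀ i, i ∉ s → z i = 0) ∧ ∃ i0 ∈ s, z i0 = 0 := by
    rintro z ⟨t, ht, h⟩
    rw [Finset.mem_ssubsets] at ht
    refine ⟨fun i hi => h i fun hit => hi (ht.1 hit), ?_⟩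
    obtain ⟨i0, h1, h2⟩ := Finset.exists_of_ssubset ht
    exact ⟨i0, h1, h i0 h2⟩
  have hss' : ∀ z : α → I, (∀ i, i ∉ s → z i = 0) → (∃ i0 ∈ s, z i0 = 0) → z ∈ PP s.ssubsets := by
    rintro z h ⟨i0, hi0, h0⟩
    refine ⟨s.erase i0, Finset.mem_ssubsets.2 (Finset.erase_ssubset hi0), fun i hi => ?_⟩
    by_cases hii : i = i0
    · rw [hii, h0]
    · exact h i fun his => hi (Finset.mem_erase.2 ⟨hii, his⟩)
  have hssL : ∀ z : α → I, z ∈ PP s.ssubsets → z ∈ PP L₁ := by
    rintro z ⟨t, ht, h⟩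
    exact ⟨t, hsub t (Finset.mem_ssubsets.1 ht), h⟩
  obtain ⟨D0, hD0⟩ : ∃ D0 : Set (PP L₁ × I), D0 = {p | p.2 = 0} := ⟨_, rfl⟩
  obtain ⟨D1, hD1⟩ : ∃ D1 : Set (PP L₁ × I), D1 = {p | ((p.1 : PP L₁) : α → I) ∈ PP s.ssubsets} :=
    ⟨_, rfl⟩
  have hD : {p : PP L₁ × I | p.2 = 0 ∨ p.1 ∈ {y : PP L₁ | (y : α → I) ∈ PP s.ssubsets}}
      = D0 ∪ D1 := by
    rw [hD0, hD1]
    rfl
  rw [hD]
  have hD0c : IsClosed D0 := by
    rw [hD0]
    exact isClosed_eq continuous_snd continuous_const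
  have hD1c : IsClosed D1 := by
    rw [hD1]
    exact (PP_closed s.ssubsets).preimage (continuous_subtype_val.comp continuous_fst)
  obtain ⟨Φ, hΦ⟩ : ∃ Φ : PP L₁ × I → (α → I), Φ = fun p =>
      if p.2 = 0 then (p.1 : α → I) else Fm s hs ((p.1 : α → I), p.2) := ⟨_, rfl⟩
  have hΦ0 : ∀ p, p.2 = 0 → Φ p = p.1 := by
    intro p hp
    rw [hΦ]
    simp [hp]
  have hΦ1 : ∀ p ∈ D1, Φ p = Fm s hs ((p.1 : α → I), p.2) := by
    intro p hp
    by_cases h0 : p.2 = 0
    · rw [hΦ0 p h0, h0]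
      rw [hD1] at hp
      exact (Fm_zero s hs (hss _ hp).1).symm
    · rw [hΦ]
      simp [h0]
  have hD1m : ∀ q : PP L₁ × I, q ∈ D1 → ((q.1 : PP L₁) : α → I) ∈ PP s.ssubsets := by
    intro q hq
    rw [hD1] at hq
    exact hq
  have hcont : ContinuousOn Φ (D0 ∪ D1) := by
    refine ContinuousOn.union_of_isClosed ?_ ?_ hD0c hD1c
    · have : ContinuousOn (fun p : PP L₁ × I => ((p.1 : PP L₁) : α → I)) D0 :=
        (continuous_subtype_val.comp continuous_fst).continuousOn
      refine this.congr fun p hp => ?_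
      rw [hD0] at hp
      exact hΦ0 p hp
    · have : ContinuousOn (fun p : PP L₁ × I => Fm s hs ((p.1 : α → I), p.2)) D1 :=
        ((Fm_cont s hs).comp ((continuous_subtype_val.comp continuous_fst).prodMk
          continuous_snd)).continuousOn
      exact this.congr fun p hp => hΦ1 p hp
  have hmaps : ∀ p ∈ D0 ∪ D1, Φ p ∈ PP (insert s L₁) := by
    rintro p (hp | hp)
    · rw [hD0] at hp
      rw [hΦ0 p hp]
      exact hL1 _ p.1.2
    · rw [hΦ1 p hp]
      exact ⟨s, Finset.mem_insert_self _ _, fun i hi => Fm_not s hs hi⟩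
  have : CompactSpace (PP L₁) := isCompact_iff_compactSpace.1 (PP_closed L₁).isCompact
  have : CompactSpace ↥(D0 ∪ D1) := isCompact_iff_compactSpace.1 (hD0c.union hD1c).isCompact
  obtain ⟨Ψ, hΨ⟩ : ∃ Ψ : ↥(D0 ∪ D1) → PP (insert s L₁), Ψ = fun p => ⟨Φ p.1, hmaps p.1 p.2⟩ :=
    ⟨_, rfl⟩
  have hΨc : Continuous Ψ := by
    rw [hΨ]
    exact (hcont.comp_continuous continuous_subtype_val fun p => p.2).subtype_mk _
  -- positivity on `s` for `u > 0`
  have hposn : ∀ p ∈ D0 ∪ D1, p.2 ≠ 0 → p ∈ D1 ∧ 0 < (p.2 : ℝ) ∧ Φ p ∉ PP L₁ := by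
    intro p hp h0
    have hp1 : p ∈ D1 := by
      rcases hp with hp | hp
      · rw [hD0] at hp
        exact absurd hp h0
      · exact hp
    have hpos : 0 < (p.2 : ℝ) := by
      rcases p.2.2.1.eq_or_lt with h | h
      · exact absurd (Subtype.ext h.symm) h0
      · exact h
    refine ⟨hp1, hpos, ?_⟩
    rintro ⟨t, ht, h⟩
    apply hsL
    refine hdown t ht s fun i hi => ?_
    by_contra hit
    have h1 := h i hit
    rw [hΦ1 p hp1] at h1
    have h2 := fr_pos s hs (p := ((p.1 : α → I), p.2)) hpos i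
    rw [← Fm_mem s hs hi, h1] at h2
    simp at h2
  have hbij : Function.Bijective Ψ := by
    constructor
    · intro p p' h
      rw [hΨ] at h
      have h1 : Φ p.1 = Φ p'.1 := congrArg Subtype.val h
      apply Subtype.ext
      by_cases h0 : p.1.2 = 0
      · by_cases h0' : p'.1.2 = 0
        · rw [hΦ0 _ h0, hΦ0 _ h0'] at h1
          exact Prod.ext (Subtype.ext h1) (h0.trans h0'.symm)
        · exfalso
          apply (hposn p'.1 p'.2 h0').2.2
          rw [← h1, hΦ0 _ h0]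
          exact p.1.1.2
      · obtain ⟨a1, a2, a3⟩ := hposn p.1 p.2 h0
        by_cases h0' : p'.1.2 = 0
        · exfalso
          apply a3
          rw [h1, hΦ0 _ h0']
          exact p'.1.1.2
        · obtain ⟨b1, b2, b3⟩ := hposn p'.1 p'.2 h0'
          rw [hΦ1 _ a1, hΦ1 _ b1] at h1
          obtain ⟨c1, i0, c2, c3⟩ := hss _ (hD1m _ a1)
          obtain ⟨d1, i0', d2, d3⟩ := hss _ (hD1m _ b1)
          obtain ⟨e1, e2⟩ := Fm_inj s hs c1 d1 c2 d2 c3 d3 a2 b2 h1
          exact Prod.ext (Subtype.ext e1) e2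
    · rintro ⟨z, hz⟩
      by_cases hzL : z ∈ PP L₁
      · have hmem : ((⟨z, hzL⟩ : PP L₁), (0 : I)) ∈ D0 ∪ D1 := by
          left
          rw [hD0]
          rfl
        refine ⟨⟨_, hmem⟩, ?_⟩
        rw [hΨ]
        apply Subtype.ext
        exact hΦ0 _ rfl
      · obtain ⟨t, ht, h⟩ := hz
        rcases Finset.mem_insert.1 ht with rfl | ht
        · have hpos : ∀ i ∈ t, 0 < (z i : ℝ) := by
            intro i hi
            rcases (z i).2.1.eq_or_lt with h1 | h1
            · exact absurd (hssL z (hss' z h ⟨i, hi, Subtype.ext h1.symm⟩)) hzL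
            · exact h1
          obtain ⟨y, u, hu, hy1, hy2, hyz⟩ := Fm_surj t hs h hpos
          have hyt := hss' y hy1 hy2
          have hmem : ((⟨y, hssL y hyt⟩ : PP L₁), u) ∈ D1 := by
            rw [hD1]
            exact hyt
          refine ⟨⟨_, Or.inr hmem⟩, ?_⟩
          rw [hΨ]
          apply Subtype.ext
          exact (hΦ1 _ hmem).trans hyz
        · exact absurd ⟨t, ht, h⟩ hzL
  exact ⟨Continuous.homeoOfEquivCompactToT2 (f := Equiv.ofBijective Ψ hbij) hΨc⟩

end Pool.Agent.H56.SQ
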