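import Mathlib
import Pool.Agent.H56.SQ.Basic
import Pool.Agent.H56.SQ.Ins
import Pool.Agent.H56.SQ.Fam

set_option autoImplicit false

/-!
# SQ-07b: the map q: `⋃ {u} × R u ≃ [0,1] × Q`

Recall (Fam.lean) `aa n = 1/(n+1)`, `psi n u = clamp ((aa n - u)/(aa n - aa (n+1)))` to `[0,1]`,
`R u = {w | w (2k) ≤ psi k u for all k}`.  For `u ∈ [aa (n+1), aa n]`: `w (2k)` is free for `k < n`,
`w (2n) ≤ psi n u`, `w (2k) = 0` for `k > n`.  `R 0 = Q`.

The map `q`.  `q 0 w = w`.  For `u ∈ (aa (n+1), aa n]` (this determines `n`), `ψ = psi n u`,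
  `q u w i = w i` for `i < 2n`,
  `q u w (2n+m) = ins ψ (w (2n) / ψ) (fun j => w (2(n+j)+1)) m`
(`ins` from `exists_ins Unit`, scalar; for `ψ = 0` the second argument does not matter).
For `w ∈ R u` the value `w (2n)/ψ` is in `[0,1]`.
Matching at `u = aa (n+1)`: from `[aa (n+1), aa n]`, `ψ = 1`: `q (2n) = w (2n)`, `q (2n+1+j) = w (2(n+j)+1)`;
from `[aa (n+2), aa (n+1)]`, `ψ = 0`: `q (2n) = w (2n)`, `q (2n+1) = w (2n+1)`,
`q (2n+2+m) = w (2(n+1+m)+1)`: the same.  So for each coordinate `i` the function `q u w i` is continuous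
on each `{(u,w) | u ∈ [aa (n+1), aa n], w ∈ R u}` (near `ψ = 0` as in SQ-04: `ins ψ e o m` is jointly
continuous and independent of `e` at `ψ = 0`), the pieces agree at the ends, and `q u w i = w i` for
`u ≤ aa (i+1)`, say; hence `q` is continuous on `Λ = {(u,w) | u ∈ [0,1], w ∈ R u}`.
Bijectivity of `q u : R u → Q`: clear for `u = 0`; for `u ∈ (aa (n+1), aa n]` with `ψ > 0` by bijectivity of
`ins ψ` (the coordinates `w (2k)`, `k > n`, are `0`); for `u = aa n` (`ψ = 0`, `w (2n) = 0`) it is the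
renumbering `q i = w i (i < 2n)`, `q (2n+m) = w (2(n+m)+1)`.
-/

namespace Pool.Agent.H56.SQ

open unitInterval Set Topology

/-! ### the scalar insertion -/

theorem exists_is : ∃ s : I → I → Q → Q,
    Continuous (fun p : I × I × Q => s p.1 p.2.1 p.2.2) ∧
    (∀ e o, s 0 e o = o) ∧
    (∀ ψ : I, 0 < ψ → Function.Bijective (fun p : I × Q => s ψ p.1 p.2)) ∧
    (∀ e o, s 1 e o 0 = e) ∧
    (∀ e o n, s 1 e o (n + 1) = o n) := by
  obtain ⟨ins, h1, h2, h3, h4, h5⟩ := exists_ins Unit
  refine ⟨fun ψ e o n => ins ψ (fun _ => e) (fun n _ => o n) n (), ?_, ?_, ?_, ?_, ?_⟩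
  · refine continuous_pi fun n => ?_
    have hc : Continuous (fun p : I × I × Q =>
        ((p.1, (fun _ : Unit => p.2.1), fun (n : ℕ) (_ : Unit) => p.2.2 n) :
          I × (Unit → I) × (ℕ → Unit → I))) := by
      fun_prop
    exact (continuous_apply ()).comp ((continuous_apply n).comp (h1.comp hc))
  · intro e o
    funext n
    simp only [h2]
  · intro ψ hψ
    obtain ⟨hi, hs⟩ := h3 ψ hψ
    constructor
    · intro p p' h
      have : (fun p : (Unit → I) × (ℕ → Unit → I) => ins ψ p.1 p.2)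
          ((fun _ => p.1), fun n _ => p.2 n) =
          (fun p : (Unit → I) × (ℕ → Unit → I) => ins ψ p.1 p.2)
          ((fun _ => p'.1), fun n _ => p'.2 n) := by
        funext n x
        have := congrFun h n
        simpa using this
      have h6 := hi this
      rw [Prod.mk.injEq] at h6
      refine Prod.ext ?_ ?_
      · exact congrFun h6.1 ()
      · funext n
        exact congrFun (congrFun h6.2 n) ()
    · intro v
      obtain ⟨⟨e, o⟩, h⟩ := hs (fun n _ => v n)
      refine ⟨(e (), fun n => o n ()), ?_⟩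
      funext n
      have h7 := congrFun (congrFun h n) ()
      simpa using h7
  · intro e o
    simp only [h4]
  · intro e o n
    simp only [h5]

/-! ### continuity when an argument is forgotten -/

theorem cont_forget {X Y : Type} [TopologicalSpace X] [TopologicalSpace Y] (F : X × I → Y)
    (hF : Continuous F) (e : X → I) (x0 : X) (h : ∀ e', F (x0, e') = F (x0, e x0)) :
    ContinuousAt (fun x => F (x, e x)) x0 := by
  intro V hV
  have h1 : ∀ᶠ x in 𝓝 x0, ∀ y ∈ (univ : Set I), F (x, y) ∈ V := by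
    refine IsCompact.eventually_forall_of_forall_eventually isCompact_univ ?_
    intro y _
    have : F (x0, y) = F (x0, e x0) := h y
    refine hF.continuousAt.eventually ?_
    rw [this]
    exact hV
  show ∀ᶠ x in 𝓝 x0, F (x, e x) ∈ V
  filter_upwards [h1] with x hx
  exact hx _ (mem_univ _)

/-! ### the numbers `aa` -/

theorem aa_pos (n : ℕ) : 0 < aa n := by
  unfold aa; positivity

theorem aa_lt (n : ℕ) : aa (n + 1) < aa n := by
  unfold aa
  apply one_div_lt_one_div_of_lt
  · positivity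
  · push_cast; linarith

theorem aa_zero : aa 0 = 1 := by simp [aa]

theorem aa_anti : Antitone aa := antitone_nat_of_succ_le fun n => (aa_lt n).le

theorem exists_aa_lt {u : ℝ} (hu : 0 < u) : ∃ n, aa (n + 1) < u := by
  obtain ⟨n, hn⟩ := exists_nat_one_div_lt hu
  exact ⟨n, (aa_lt n).trans hn⟩

/-- the interval number of `u` -/
noncomputable def NN (u : ℝ) : ℕ := sInf {n | aa (n + 1) < u}

theorem NN_lt {u : ℝ} (hu : 0 < u) : aa (NN u + 1) < u := Nat.sInf_mem (exists_aa_lt hu)

theorem le_NN {u : ℝ} (hu1 : u ≤ 1) : u ≤ aa (NN u) := by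
  rcases Nat.eq_zero_or_pos (NN u) with h | h
  · rw [h, aa_zero]; exact hu1
  · have h1 : NN u - 1 ∉ {n | aa (n + 1) < u} := Nat.notMem_of_lt_sInf (by
      show NN u - 1 < NN u
      omega)
    have h2 : NN u - 1 + 1 = NN u := by omega
    simp only [Set.mem_ofPred_eq, h2, not_lt] at h1
    exact h1

theorem NN_eq {u : ℝ} {n : ℕ} (h1 : aa (n + 1) < u) (h2 : u ≤ aa n) : NN u = n := by
  have hu : 0 < u := (aa_pos _).trans h1
  have hu1 : u ≤ 1 := h2.trans (aa_zero ▸ aa_anti (Nat.zero_le n))
  apply le_antisymm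
  · exact Nat.sInf_le h1
  · by_contra hlt
    push Not at hlt
    have h3 := aa_anti (show NN u + 1 ≤ n by omega)
    have h4 := NN_lt hu
    linarith

/-! ### the pieces -/

theorem psi_nonneg (n : ℕ) (u : ℝ) : 0 ≤ psi n u := le_max_left _ _

theorem psi_le_one (n : ℕ) (u : ℝ) : psi n u ≤ 1 := max_le zero_le_one (min_le_left _ _)

/-- `psi` with values in the interval -/
noncomputable def psiI (n : ℕ) (u : ℝ) : I := ⟨psi n u, psi_nonneg n u, psi_le_one n u⟩

theorem psi_cont (n : ℕ) : Continuous (psi n) := by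
  unfold psi
  fun_prop

theorem psiI_cont (n : ℕ) : Continuous (psiI n) := (psi_cont n).subtype_mk _

/-- clamped division -/
noncomputable def dv (a : I) (r : ℝ) : I := projIcc 0 1 zero_le_one ((a : ℝ) / r)

/-- the formula on the `n`-th interval -/
noncomputable def pc (s : I → I → Q → Q) (n : ℕ) (u : ℝ) (w : Q) : Q := fun i =>
  if i < 2 * n then w i
  else s (psiI n u) (dv (w (2 * n)) (psi n u)) (fun j => w (2 * (n + j) + 1)) (i - 2 * n)

theorem pc_cont (s : I → I → Q → Q) (hs : Continuous (fun p : I × I × Q => s p.1 p.2.1 p.2.2))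
    (hs0 : ∀ e o, s 0 e o = o) (n : ℕ) : Continuous (fun p : ℝ × Q => pc s n p.1 p.2) := by
  refine continuous_pi fun i => ?_
  by_cases hi : i < 2 * n
  · simp only [pc, hi, if_true]
    fun_prop
  · simp only [pc, hi, if_false]
    set m := i - 2 * n
    have h1 : Continuous (fun p : (ℝ × Q) × I =>
        s (psiI n p.1.1) p.2 (fun j => p.1.2 (2 * (n + j) + 1)) m) := by
      have hc : Continuous (fun p : (ℝ × Q) × I =>
          ((psiI n p.1.1, p.2, fun j => p.1.2 (2 * (n + j) + 1)) : I × I × Q)) := by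
        have := psiI_cont n
        fun_prop
      exact (continuous_apply m).comp (hs.comp hc)
    rw [continuous_iff_continuousAt]
    intro p
    by_cases hp : psi n p.1 = 0
    · have hp' : psiI n p.1 = 0 := Subtype.ext hp
      exact cont_forget (fun p : (ℝ × Q) × I =>
        s (psiI n p.1.1) p.2 (fun j => p.1.2 (2 * (n + j) + 1)) m) h1
        (fun p => dv (p.2 (2 * n)) (psi n p.1)) p (fun e' => by simp only [hp', hs0])
    · have h2 : ContinuousAt (fun p : ℝ × Q => dv (p.2 (2 * n)) (psi n p.1)) p := by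
        unfold dv
        refine continuous_projIcc.continuousAt.comp ?_
        refine ContinuousAt.div ?_ ?_ hp
        · exact (by fun_prop : Continuous fun p : ℝ × Q => ((p.2 (2 * n) : I) : ℝ)).continuousAt
        · exact ((psi_cont n).comp continuous_fst).continuousAt
      exact ContinuousAt.comp (f := fun p : ℝ × Q => (p, dv (p.2 (2 * n)) (psi n p.1)))
        (g := fun p : (ℝ × Q) × I => s (psiI n p.1.1) p.2 (fun j => p.1.2 (2 * (n + j) + 1)) m)
        h1.continuousAt (continuousAt_id.prodMk h2)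

theorem psi_left (n : ℕ) : psi n (aa (n + 1)) = 1 := by
  have : aa n - aa (n + 1) ≠ 0 := by have := aa_lt n; linarith
  simp [psi, div_self this]

theorem psi_right (n : ℕ) : psi n (aa n) = 0 := by
  simp [psi]

theorem psi_between {n : ℕ} {u : ℝ} (h1 : aa (n + 1) ≤ u) (h2 : u ≤ aa n) :
    psi n u = (aa n - u) / (aa n - aa (n + 1)) := by
  have h3 := aa_lt n
  have h4 : 0 < aa n - aa (n + 1) := by linarith
  have h5 : (aa n - u) / (aa n - aa (n + 1)) ≤ 1 := by
    rw [div_le_one h4]; linarith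
  have h6 : 0 ≤ (aa n - u) / (aa n - aa (n + 1)) := div_nonneg (by linarith) h4.le
  rw [psi, min_eq_right h5, max_eq_right h6]

theorem pc_match (s : I → I → Q → Q) (hs0 : ∀ e o, s 0 e o = o) (hs1 : ∀ e o, s 1 e o 0 = e)
    (hs2 : ∀ e o n, s 1 e o (n + 1) = o n) (n : ℕ) (w : Q) :
    pc s n (aa (n + 1)) w = pc s (n + 1) (aa (n + 1)) w := by
  have e1 : psiI n (aa (n + 1)) = 1 := Subtype.ext (psi_left n)
  have e2 : psiI (n + 1) (aa (n + 1)) = 0 := Subtype.ext (psi_right (n + 1))
  funext i
  by_cases h1 : i < 2 * n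
  · have h2 : i < 2 * (n + 1) := by omega
    simp only [pc, h1, h2, if_true]
  · obtain ⟨m, rfl⟩ : ∃ m, i = 2 * n + m := ⟨i - 2 * n, by omega⟩
    have e3 : 2 * n + m - 2 * n = m := by omega
    simp only [pc, h1, if_false, e1, e2, hs0, e3, psi_left]
    rcases m with _ | _ | m
    · have h2 : 2 * n < 2 * (n + 1) := by omega
      simp only [add_zero, h2, if_true, hs1, dv, div_one]
      exact projIcc_val (zero_le_one : (0:ℝ) ≤ 1) _
    · have h2 : 2 * n + (0 + 1) < 2 * (n + 1) := by omega
      simp only [h2, if_true, hs2]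
      congr 1
    · have h2 : ¬ 2 * n + (m + 1 + 1) < 2 * (n + 1) := by omega
      simp only [h2, if_false, hs2]
      congr 1
      omega

/-- the map `q` -/
noncomputable def qq (s : I → I → Q → Q) (u : ℝ) (w : Q) : Q :=
  if u ≤ 0 then w else pc s (NN u) u w

theorem qq_eq (s : I → I → Q → Q) (hs0 : ∀ e o, s 0 e o = o) (hs1 : ∀ e o, s 1 e o 0 = e)
    (hs2 : ∀ e o n, s 1 e o (n + 1) = o n) (n : ℕ) (u : ℝ) (h1 : aa (n + 1) ≤ u) (h2 : u ≤ aa n)
    (w : Q) : qq s u w = pc s n u w := by
  have hu : 0 < u := lt_of_lt_of_le (aa_pos _) h1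
  rw [qq, if_neg (not_le.mpr hu)]
  rcases h1.lt_or_eq with h | h
  · rw [NN_eq h h2]
  · subst h
    rw [NN_eq (aa_lt (n + 1)) le_rfl, pc_match s hs0 hs1 hs2]

theorem qq_low (s : I → I → Q → Q) (i n : ℕ) (hi : i < 2 * n) (u : ℝ) (h2 : u ≤ aa n)
    (w : Q) : qq s u w i = w i := by
  by_cases hu : u ≤ 0
  · rw [qq, if_pos hu]
  · push Not at hu
    rw [qq, if_neg (not_le.mpr hu)]
    have h3 : n ≤ NN u := by
      by_contra hlt
      push Not at hlt
      have h3 := aa_anti (show NN u + 1 ≤ n by omega)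
      have h4 := NN_lt hu
      linarith
    have h4 : i < 2 * NN u := by omega
    simp only [pc, h4, if_true]

theorem qq_cont (s : I → I → Q → Q) (hs : Continuous (fun p : I × I × Q => s p.1 p.2.1 p.2.2))
    (hs0 : ∀ e o, s 0 e o = o) (hs1 : ∀ e o, s 1 e o 0 = e)
    (hs2 : ∀ e o n, s 1 e o (n + 1) = o n) :
    ContinuousOn (fun p : ℝ × Q => qq s p.1 p.2) {p | p.1 ≤ 1} := by
  refine continuousOn_pi.mpr fun i => ?_
  have key : ∀ d n : ℕ, i < 2 * (n + d) →
      ContinuousOn (fun p : ℝ × Q => qq s p.1 p.2 i) {p | p.1 ≤ aa n} := by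
    intro d
    induction d with
    | zero =>
      intro n hn
      have h1 : ContinuousOn (fun p : ℝ × Q => p.2 i) {p | p.1 ≤ aa n} :=
        (by fun_prop : Continuous (fun p : ℝ × Q => p.2 i)).continuousOn
      refine h1.congr ?_
      intro p hp
      exact qq_low s i n (by omega) p.1 hp p.2
    | succ d ih =>
      intro n hn
      have h1 := ih (n + 1) (by omega)
      have h2 : ContinuousOn (fun p : ℝ × Q => qq s p.1 p.2 i)
          {p | aa (n + 1) ≤ p.1 ∧ p.1 ≤ aa n} := by
        have h3 : ContinuousOn (fun p : ℝ × Q => pc s n p.1 p.2 i)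
            {p | aa (n + 1) ≤ p.1 ∧ p.1 ≤ aa n} :=
          ((continuous_apply i).comp (pc_cont s hs hs0 n)).continuousOn
        refine h3.congr ?_
        intro p hp
        exact congrFun (qq_eq s hs0 hs1 hs2 n p.1 hp.1 hp.2 p.2) i
      have h4 : IsClosed {p : ℝ × Q | p.1 ≤ aa (n + 1)} :=
        isClosed_le continuous_fst continuous_const
      have h5 : IsClosed {p : ℝ × Q | aa (n + 1) ≤ p.1 ∧ p.1 ≤ aa n} :=
        (isClosed_le continuous_const continuous_fst).inter
          (isClosed_le continuous_fst continuous_const)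
      refine (h1.union_of_isClosed h2 h4 h5).mono ?_
      intro p hp
      rcases le_total p.1 (aa (n + 1)) with h | h
      · exact Or.inl h
      · exact Or.inr ⟨h, hp⟩
  have := key (i + 1) 0 (by omega)
  rwa [aa_zero] at this

theorem mem_R_iff {n : ℕ} {u : ℝ} (h1 : aa (n + 1) ≤ u) (h2 : u ≤ aa n) (w : Q) :
    w ∈ R u ↔ (∀ k, n + 1 ≤ k → w (2 * k) = 0) ∧ ((w (2 * n) : I) : ℝ) ≤ psi n u := by
  rw [mem_R_between n u h1 h2, mem_R_aa, psi_between h1 h2]
  have h3 := aa_lt n
  have h4 : 0 < aa n - aa (n + 1) := by linarith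
  refine and_congr_right fun _ => ?_
  rw [le_div_iff₀ h4]
  constructor <;> intro h <;> nlinarith

theorem qq_bij (s : I → I → Q → Q) (hs0 : ∀ e o, s 0 e o = o)
    (hsb : ∀ ψ : I, 0 < ψ → Function.Bijective (fun p : I × Q => s ψ p.1 p.2))
    (hs1 : ∀ e o, s 1 e o 0 = e)
    (hs2 : ∀ e o n, s 1 e o (n + 1) = o n) (u : ℝ) (hu : u ∈ Icc (0:ℝ) 1) :
    BijOn (qq s u) (R u) univ := by
  rcases hu.1.eq_or_lt with h0 | h0
  · subst h0
    rw [R_zero]
    have : qq s 0 = id := by
      funext w
      simp [qq]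
    rw [this]
    exact bijOn_id _
  set n := NN u with hn
  have h1 : aa (n + 1) ≤ u := (NN_lt h0).le
  have h2 : u ≤ aa n := le_NN hu.2
  have hq : ∀ w, qq s u w = pc s n u w := qq_eq s hs0 hs1 hs2 n u h1 h2
  refine ⟨fun _ _ => mem_univ _, ?_, ?_⟩
  · -- injectivity
    intro w hw w' hw' h
    rw [mem_R_iff h1 h2] at hw hw'
    rw [hq, hq] at h
    have ha : ∀ i, i < 2 * n → w i = w' i := by
      intro i hi
      have := congrFun h i
      simpa [pc, hi] using this
    have hb : s (psiI n u) (dv (w (2 * n)) (psi n u)) (fun j => w (2 * (n + j) + 1)) =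
        s (psiI n u) (dv (w' (2 * n)) (psi n u)) (fun j => w' (2 * (n + j) + 1)) := by
      funext m
      have := congrFun h (2 * n + m)
      have e3 : 2 * n + m - 2 * n = m := by omega
      have e4 : ¬ 2 * n + m < 2 * n := by omega
      simpa only [pc, e3, e4, if_false] using this
    have hc : w (2 * n) = w' (2 * n) ∧ ∀ j, w (2 * (n + j) + 1) = w' (2 * (n + j) + 1) := by
      rcases (psi_nonneg n u).eq_or_lt with hp | hp
      · have e0 : psiI n u = 0 := Subtype.ext hp.symm
        rw [e0, hs0, hs0] at hb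
        constructor
        · rw [← hp] at hw hw'
          apply Subtype.ext
          exact (le_antisymm hw.2 (w (2 * n)).2.1).trans
            (le_antisymm hw'.2 (w' (2 * n)).2.1).symm
        · exact fun j => congrFun hb j
      · have hpos : 0 < psiI n u := hp
        have h5 := (hsb _ hpos).1 (a₁ := (dv (w (2 * n)) (psi n u), fun j => w (2 * (n + j) + 1)))
          (a₂ := (dv (w' (2 * n)) (psi n u), fun j => w' (2 * (n + j) + 1))) hb
        rw [Prod.mk.injEq] at h5
        refine ⟨?_, fun j => congrFun h5.2 j⟩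
        have h6 := congrArg Subtype.val h5.1
        simp only [dv] at h6
        rw [projIcc_of_mem zero_le_one (show ((w (2 * n) : I) : ℝ) / psi n u ∈ Icc (0:ℝ) 1 from
            ⟨div_nonneg (w (2 * n)).2.1 hp.le, (div_le_one hp).mpr hw.2⟩),
          projIcc_of_mem zero_le_one (show ((w' (2 * n) : I) : ℝ) / psi n u ∈ Icc (0:ℝ) 1 from
            ⟨div_nonneg (w' (2 * n)).2.1 hp.le, (div_le_one hp).mpr hw'.2⟩)] at h6
        apply Subtype.ext
        exact (div_left_inj' hp.ne').mp h6
    funext i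
    by_cases hi : i < 2 * n
    · exact ha i hi
    · obtain ⟨m, rfl⟩ : ∃ m, i = 2 * n + m := ⟨i - 2 * n, by omega⟩
      rcases Nat.even_or_odd' m with ⟨k, rfl | rfl⟩
      · rcases Nat.eq_zero_or_pos k with rfl | hk
        · simpa using hc.1
        · rw [show 2 * n + 2 * k = 2 * (n + k) by ring, hw.1 (n + k) (by omega),
            hw'.1 (n + k) (by omega)]
      · have := hc.2 k
        rw [show 2 * n + (2 * k + 1) = 2 * (n + k) + 1 by ring]
        exact this
  · -- surjectivity
    intro v _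
    -- find the new data
    obtain ⟨x, o, hx, ho⟩ : ∃ (x : I) (o : Q), (x : ℝ) ≤ psi n u ∧
        s (psiI n u) (dv x (psi n u)) o = fun m => v (2 * n + m) := by
      rcases (psi_nonneg n u).eq_or_lt with hp | hp
      · have e0 : psiI n u = 0 := Subtype.ext hp.symm
        refine ⟨0, fun m => v (2 * n + m), ?_, ?_⟩
        · rw [← hp]; exact le_rfl
        · rw [e0, hs0]
      · have hpos : 0 < psiI n u := hp
        obtain ⟨⟨e, o⟩, he⟩ := (hsb _ hpos).2 (fun m => v (2 * n + m))
        refine ⟨⟨psi n u * e, mul_nonneg hp.le e.2.1,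
          mul_le_one₀ (psi_le_one n u) e.2.1 e.2.2⟩, o, ?_, ?_⟩
        · show psi n u * e ≤ psi n u
          exact mul_le_of_le_one_right hp.le e.2.2
        · have e5 : dv ⟨psi n u * e, mul_nonneg hp.le e.2.1,
              mul_le_one₀ (psi_le_one n u) e.2.1 e.2.2⟩ (psi n u) = e := by
            simp only [dv]
            rw [mul_div_cancel_left₀ _ hp.ne']
            exact projIcc_val _ _
          rw [e5]
          exact he
    refine ⟨fun i => if i < 2 * n then v i else if i = 2 * n then x else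
      if i % 2 = 0 then 0 else o (i / 2 - n), ?_, ?_⟩
    · rw [mem_R_iff h1 h2]
      constructor
      · intro k hk
        have e1 : ¬ 2 * k < 2 * n := by omega
        have e2 : ¬ 2 * k = 2 * n := by omega
        have e3 : 2 * k % 2 = 0 := by omega
        simp only [e1, e2, e3, if_false, if_true]
      · simpa using hx
    · rw [hq]
      have e6 : (fun j => (fun i => if i < 2 * n then v i else if i = 2 * n then x else
          if i % 2 = 0 then 0 else o (i / 2 - n)) (2 * (n + j) + 1)) = o := by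
        funext j
        have e1 : ¬ 2 * (n + j) + 1 < 2 * n := by omega
        have e2 : ¬ 2 * (n + j) + 1 = 2 * n := by omega
        have e3 : ¬ (2 * (n + j) + 1) % 2 = 0 := by omega
        have e4 : (2 * (n + j) + 1) / 2 - n = j := by omega
        simp only [e1, e2, e3, e4, if_false]
      funext i
      by_cases hi : i < 2 * n
      · simp only [pc, hi, if_true]
      · obtain ⟨m, rfl⟩ : ∃ m, i = 2 * n + m := ⟨i - 2 * n, by omega⟩
        have e3 : 2 * n + m - 2 * n = m := by omega
        simp only [pc, hi, if_false, e3]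
        rw [e6]
        simp only [lt_irrefl, if_false, if_true]
        exact congrFun ho m

theorem exists_q : ∃ q : ℝ → Q → Q,
    ContinuousOn (fun p : ℝ × Q => q p.1 p.2) {p | p.1 ∈ Icc (0:ℝ) 1 ∧ p.2 ∈ R p.1} ∧
    (∀ w, q 0 w = w) ∧ (∀ u ∈ Icc (0:ℝ) 1, BijOn (q u) (R u) univ) := by
  obtain ⟨s, h1, h2, h3, h4, h5⟩ := exists_is
  refine ⟨qq s, ?_, ?_, ?_⟩
  · exact (qq_cont s h1 h2 h4 h5).mono fun p hp => hp.1.2
  · intro w
    simp [qq]
  · exact fun u hu => qq_bij s h2 h3 h4 h5 u hu

end Pool.Agent.H56.SQ
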