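import Mathlib

set_option autoImplicit false

/-!
# SQ-06: absorbing a tapered fin over a collared set

`B` compact metric with a collar structure `Ω : B ≃ E × [0,1]`; `Zb = {b | (Ω b).2 = 0}`.  `U : E → [0,δ]`
continuous.  `W'` = rest of the leg: a set of pairs `(b,v)`, `v > 0`, sitting over points of `Zb` with
`U = δ`.
`X' = {(b,v) | v = 0 ∨ (b,v) ∈ W'}` (compact by assumption) and
`X = {(b,v) | v = 0 ∨ ((Ω b).2 = 0 ∧ 0 ≤ v ≤ U (Ω b).1) ∨ (δ ≤ v ∧ (b, v-δ) ∈ W')}`.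
The map `(b,v) ↦ (b, max (v-δ) 0)`, `X → X'`, is a near homeomorphism.

Proof.  Let `0 < κ ≤ 1`.  Write `Ω b = (ζ,s)`, `u = U ζ`.
 * if `v = 0`, `s ≥ κ`:  `h (b,v) = (b,0)`;
 * if `v = 0`, `s ≤ κ`:  `h (b,v) = (Ω⁻¹ (ζ, κ (s+u)/(κ+u)), 0)`;
 * if `s = 0`, `v ≥ 0` (fin or rest): `h (b,v) = (Ω⁻¹ (ζ, κ (max (u-v) 0)/(κ+u)), max (v-δ) 0)`.
The three pieces are closed, the formulas agree on the overlaps (`v = 0, s = κ`; `v = 0, s = 0`), so `h` is
continuous on `X`.  In the third case with `(b,v-δ) ∈ W'` we have `u = δ ≤ v`, so `h (b,v) = (b, v-δ)`.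
Bijective onto `X'`: the part `v' = 0`, `s' ≥ κ` comes from the first piece; `v' = 0`, `0 ≤ s' ≤ κ`: the
linear bijection `[-u,κ] → [0,κ]`, `t ↦ κ (t+u)/(κ+u)`, `t = s ≥ 0` (second piece), `t = -v ≤ 0` (third);
`(b,v') ∈ W'` comes from `(b,v'+δ)`.  `X` is compact (it is a finite union of compact sets; or it is closed
and bounded; note that the limit points of the third part with `v = δ` are in the second part because
`U` is continuous and `(Ω ·).2` is continuous), `X'` is Hausdorff: homeomorphism.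
Distance: the `v`-coordinates of `h p` and of the target point are equal, and the `B`-coordinates are
`b` and a point `Ω⁻¹ (ζ,s')` with `|s - s'| ≤ κ`, same `ζ`: `< ε` for small `κ` by uniform continuity of
`Ω⁻¹`.
-/

namespace Pool.Agent.H56.SQ

open unitInterval

/-- The new `s`-coordinate. -/
noncomputable def finS (κ u s v : ℝ) : ℝ := max s (κ * (s + max (u - v) 0) / (κ + u))

theorem finS_nonneg {κ u s v : ℝ} (hs : 0 ≤ s) : 0 ≤ finS κ u s v := hs.trans (le_max_left _ _)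

theorem finS_sub_le {κ u s v : ℝ} (hκ : 0 < κ) (hu : 0 ≤ u) (hs : 0 ≤ s) (hv : 0 ≤ v) :
    finS κ u s v ≤ s + κ := by
  unfold finS
  refine max_le (by linarith) ?_
  rw [div_le_iff₀ (by linarith)]
  have h1 : max (u - v) 0 ≤ u := max_le (by linarith) hu
  have h2 : κ * max (u - v) 0 ≤ κ * u := mul_le_mul_of_nonneg_left h1 hκ.le
  have h3 : 0 ≤ s * u := mul_nonneg hs hu
  nlinarith

theorem finS_le_one {κ u s v : ℝ} (hκ : 0 < κ) (hκ1 : κ ≤ 1) (hu : 0 ≤ u) (hs1 : s ≤ 1)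
    (hv : 0 ≤ v) : finS κ u s v ≤ 1 := by
  unfold finS
  refine max_le hs1 ?_
  rw [div_le_iff₀ (by linarith)]
  have h1 : max (u - v) 0 ≤ u := max_le (by linarith) hu
  have h2 : κ * max (u - v) 0 ≤ κ * u := mul_le_mul_of_nonneg_left h1 hκ.le
  have h3 : κ * s ≤ κ * 1 := mul_le_mul_of_nonneg_left hs1 hκ.le
  have h4 : κ * u ≤ 1 * u := mul_le_mul_of_nonneg_right hκ1 hu
  nlinarith

theorem finS_zero {κ u s : ℝ} (hu : 0 ≤ u) : finS κ u s 0 = max s (κ * (s + u) / (κ + u)) := by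
  rw [finS, sub_zero, max_eq_left hu]

theorem finS_strict {κ u s t : ℝ} (hκ : 0 < κ) (hu : 0 ≤ u) (h : s < t) :
    finS κ u s 0 < finS κ u t 0 := by
  rw [finS_zero hu, finS_zero hu]
  refine max_lt (h.trans_le (le_max_left _ _)) (lt_of_lt_of_le ?_ (le_max_right _ _))
  have h1 : 0 < κ + u := by linarith
  exact div_lt_div_of_pos_right (mul_lt_mul_of_pos_left (by linarith) hκ) h1

theorem finS_fin {κ u v : ℝ} (hκ : 0 < κ) (hu : 0 ≤ u) (hv : v ≤ u) :
    finS κ u 0 v = κ * (u - v) / (κ + u) := by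
  rw [finS, zero_add, max_eq_left (by linarith : (0 : ℝ) ≤ u - v)]
  refine max_eq_right (div_nonneg (mul_nonneg hκ.le (by linarith)) (by linarith))

theorem finS_rest {κ u v : ℝ} (hv : u ≤ v) : finS κ u 0 v = 0 := by
  rw [finS, zero_add, max_eq_right (by linarith : u - v ≤ 0), mul_zero, zero_div, max_self]

/-- The admissible pairs `(s, v)`. -/
def FinP (δ u s v : ℝ) : Prop := v = 0 ∨ (s = 0 ∧ 0 ≤ v ∧ v ≤ u) ∨ (s = 0 ∧ u = δ ∧ δ < v)

theorem FinP.nonneg {δ u s v : ℝ} (hδ : 0 < δ) (h : FinP δ u s v) : 0 ≤ v := by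
  rcases h with h | ⟨-, h, -⟩ | ⟨-, -, h⟩ <;> linarith

theorem finP_inj {κ δ u s₁ v₁ s₂ v₂ : ℝ} (hκ : 0 < κ) (hδ : 0 < δ) (hu : 0 ≤ u) (hu1 : u ≤ δ)
    (hs₁ : 0 ≤ s₁) (hs₂ : 0 ≤ s₂) (h₁ : FinP δ u s₁ v₁) (h₂ : FinP δ u s₂ v₂)
    (hS : finS κ u s₁ v₁ = finS κ u s₂ v₂) (hV : max (v₁ - δ) 0 = max (v₂ - δ) 0) :
    s₁ = s₂ ∧ v₁ = v₂ := by
  have key : ∀ {s v s' v' : ℝ}, 0 ≤ s → v = 0 → s' = 0 → 0 ≤ v' → v' ≤ u →
      finS κ u s v = finS κ u s' v' → s = s' ∧ v = v' := by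
    intro s v s' v' hs hv hs' hv' hvu h
    subst hv hs'
    rw [finS_fin hκ hu hvu, finS_zero hu] at h
    have h1 : κ * (s + u) / (κ + u) ≤ κ * (u - v') / (κ + u) := h ▸ le_max_right _ _
    have h2 : 0 < κ + u := by linarith
    rw [div_le_div_iff_of_pos_right h2] at h1
    have h3 := le_of_mul_le_mul_left h1 hκ
    constructor <;> linarith
  have hlt : ∀ {v : ℝ}, v = 0 ∨ v ≤ u → max (v - δ) 0 = 0 := by
    intro v hv
    refine max_eq_right ?_
    rcases hv with hv | hv <;> linarith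
  have hgt : ∀ {v : ℝ}, δ < v → max (v - δ) 0 = v - δ := fun hv => max_eq_left (by linarith)
  rcases h₁ with a₁ | ⟨a₁, b₁, c₁⟩ | ⟨a₁, b₁, c₁⟩ <;> rcases h₂ with a₂ | ⟨a₂, b₂, c₂⟩ | ⟨a₂, b₂, c₂⟩
  · subst a₁ a₂
    refine ⟨?_, rfl⟩
    rcases lt_trichotomy s₁ s₂ with h | h | h
    · exact absurd hS (finS_strict hκ hu h).ne
    · exact h
    · exact absurd hS (finS_strict hκ hu h).ne'
  · exact key hs₁ a₁ a₂ b₂ c₂ hS
  · rw [hlt (Or.inl a₁), hgt c₂] at hV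
    linarith
  · obtain ⟨h1, h2⟩ := key hs₂ a₂ a₁ b₁ c₁ hS.symm
    exact ⟨h1.symm, h2.symm⟩
  · refine ⟨a₁.trans a₂.symm, ?_⟩
    subst a₁ a₂
    rw [finS_fin hκ hu c₁, finS_fin hκ hu c₂] at hS
    have h2 : 0 < κ + u := by linarith
    rw [div_left_inj' h2.ne'] at hS
    have h3 := mul_left_cancel₀ hκ.ne' hS
    linarith
  · rw [hlt (Or.inr c₁), hgt c₂] at hV
    linarith
  · rw [hlt (Or.inl a₂), hgt c₁] at hV
    linarith
  · rw [hlt (Or.inr c₂), hgt c₁] at hV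
    linarith
  · refine ⟨a₁.trans a₂.symm, ?_⟩
    rw [hgt c₁, hgt c₂] at hV
    linarith

/-- Surjectivity onto the part `v' = 0`. -/
theorem finP_surj {κ δ u s' : ℝ} (hκ : 0 < κ) (hδ : 0 < δ) (hu : 0 ≤ u)
    (hu1 : u ≤ δ) (hs : 0 ≤ s') (hs1 : s' ≤ 1) : ∃ s v : ℝ, 0 ≤ s ∧ s ≤ 1 ∧
      (v = 0 ∨ (s = 0 ∧ 0 ≤ v ∧ v ≤ u)) ∧ finS κ u s v = s' ∧ max (v - δ) 0 = 0 := by
  have hk : 0 < κ + u := by linarith
  rcases le_total κ s' with h | h
  · refine ⟨s', 0, hs, hs1, Or.inl rfl, ?_, max_eq_right (by linarith)⟩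
    rw [finS_zero hu]
    refine max_eq_left ?_
    rw [div_le_iff₀ hk]
    nlinarith [mul_le_mul_of_nonneg_right h hu]
  · have e1 : κ * (s' * (κ + u) / κ - u + u) / (κ + u) = s' := by field_simp; ring
    have e2 : s' * (κ + u) / κ - u = s' - u * (κ - s') / κ := by field_simp; ring
    have h3 : 0 ≤ u * (κ - s') / κ := div_nonneg (mul_nonneg hu (by linarith)) hκ.le
    rcases le_total 0 (s' * (κ + u) / κ - u) with h0 | h0
    · refine ⟨s' * (κ + u) / κ - u, 0, h0, ?_, Or.inl rfl, ?_, max_eq_right (by linarith)⟩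
      · rw [e2]; linarith
      · rw [finS_zero hu, e1]
        refine max_eq_right ?_
        rw [e2]; linarith
    · have h4 : 0 ≤ s' * (κ + u) / κ := by positivity
      have h5 : -(s' * (κ + u) / κ - u) ≤ u := by linarith
      refine ⟨0, -(s' * (κ + u) / κ - u), le_refl _, zero_le_one, Or.inr ⟨rfl, by linarith, h5⟩, ?_,
        max_eq_right (by linarith)⟩
      rw [finS_fin hκ hu h5]
      have e3 : u - -(s' * (κ + u) / κ - u) = s' * (κ + u) / κ - u + u := by ring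
      rw [e3, e1]

theorem fin_near {B E : Type} [MetricSpace B] [CompactSpace B] [MetricSpace E] [CompactSpace E]
    (Ω : B ≃ₜ E × I) (δ : ℝ) (hδ : 0 < δ) (U : E → ℝ) (hU : Continuous U)
    (hU0 : ∀ z, 0 ≤ U z) (hU1 : ∀ z, U z ≤ δ) (W' : Set (B × ℝ))
    (hW : ∀ p ∈ W', 0 < p.2 ∧ (Ω p.1).2 = 0 ∧ U (Ω p.1).1 = δ)
    (hc : IsCompact {p : B × ℝ | p.2 = 0 ∨ p ∈ W'}) (ε : ℝ) (hε : 0 < ε) :
    ∃ h : {p : B × ℝ | p.2 = 0 ∨ ((Ω p.1).2 = 0 ∧ 0 ≤ p.2 ∧ p.2 ≤ U (Ω p.1).1) ∨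
        (δ ≤ p.2 ∧ (p.1, p.2 - δ) ∈ W')} ≃ₜ {p : B × ℝ | p.2 = 0 ∨ p ∈ W'},
      ∀ p, dist ((h p : B × ℝ)) ((p : B × ℝ).1, max ((p : B × ℝ).2 - δ) 0) < ε := by
  -- the constant `κ`
  have huc : UniformContinuous Ω.symm :=
    CompactSpace.uniformContinuous_of_continuous Ω.symm.continuous
  obtain ⟨η, hη, hηε⟩ := Metric.uniformContinuous_iff.1 huc ε hε
  obtain ⟨κ, hκ, hκ1, hκη⟩ : ∃ κ : ℝ, 0 < κ ∧ κ ≤ 1 ∧ κ < η :=
    ⟨min 1 (η / 2), lt_min one_pos (by linarith), min_le_left _ _,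
      (min_le_right _ _).trans_lt (by linarith)⟩
  -- the map on the whole product
  set g : B × ℝ → B × ℝ := fun p => (Ω.symm ((Ω p.1).1, Set.projIcc 0 1 zero_le_one
    (finS κ (U (Ω p.1).1) ((Ω p.1).2 : ℝ) p.2)), max (p.2 - δ) 0) with hg
  have hgc : Continuous g := by
    have c1 : Continuous fun p : B × ℝ => Ω p.1 := Ω.continuous.comp continuous_fst
    have c2 : Continuous fun p : B × ℝ => (Ω p.1).1 := continuous_fst.comp c1
    have c3 : Continuous fun p : B × ℝ => ((Ω p.1).2 : ℝ) :=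
      continuous_subtype_val.comp (continuous_snd.comp c1)
    have c4 : Continuous fun p : B × ℝ => U (Ω p.1).1 := hU.comp c2
    have c5 : Continuous fun p : B × ℝ => finS κ (U (Ω p.1).1) ((Ω p.1).2 : ℝ) p.2 := by
      unfold finS
      refine c3.max (Continuous.div (continuous_const.mul (c3.add
        ((c4.sub continuous_snd).max continuous_const))) (continuous_const.add c4) fun p => ?_)
      have := hU0 (Ω p.1).1
      linarith
    exact (Ω.symm.continuous.comp (c2.prodMk (continuous_projIcc.comp c5))).prodMk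
      ((continuous_snd.sub continuous_const).max continuous_const)
  -- the predicate
  have hP : ∀ p : B × ℝ, (p.2 = 0 ∨ ((Ω p.1).2 = 0 ∧ 0 ≤ p.2 ∧ p.2 ≤ U (Ω p.1).1) ∨
      (δ ≤ p.2 ∧ (p.1, p.2 - δ) ∈ W')) → FinP δ (U (Ω p.1).1) ((Ω p.1).2 : ℝ) p.2 := by
    rintro p (h | ⟨h1, h2, h3⟩ | ⟨h1, h2⟩)
    · exact Or.inl h
    · refine Or.inr (Or.inl ⟨?_, h2, h3⟩)
      rw [h1]; rfl
    · obtain ⟨k1, k2, k3⟩ := hW _ h2
      simp only at k1 k2 k3
      refine Or.inr (Or.inr ⟨?_, k3, by linarith⟩)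
      rw [k2]; rfl
  have hmemI : ∀ p : B × ℝ, 0 ≤ p.2 →
      finS κ (U (Ω p.1).1) ((Ω p.1).2 : ℝ) p.2 ∈ Set.Icc (0 : ℝ) 1 := fun p hp =>
    ⟨finS_nonneg (Ω p.1).2.2.1, finS_le_one hκ hκ1 (hU0 _) (Ω p.1).2.2.2 hp⟩
  have hΩg : ∀ p : B × ℝ, ∀ hp : 0 ≤ p.2, Ω (g p).1 = ((Ω p.1).1, ⟨_, hmemI p hp⟩) := by
    intro p hp
    simp only [hg, Homeomorph.apply_symm_apply]
    rw [Set.projIcc_of_mem _ (hmemI p hp)]
  set X : Set (B × ℝ) := {p : B × ℝ | p.2 = 0 ∨ ((Ω p.1).2 = 0 ∧ 0 ≤ p.2 ∧ p.2 ≤ U (Ω p.1).1) ∨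
        (δ ≤ p.2 ∧ (p.1, p.2 - δ) ∈ W')} with hX
  set X' : Set (B × ℝ) := {p : B × ℝ | p.2 = 0 ∨ p ∈ W'} with hX'
  -- `g` maps the rest by translation
  have hrest : ∀ p : B × ℝ, δ ≤ p.2 → (p.1, p.2 - δ) ∈ W' → g p = (p.1, p.2 - δ) := by
    intro p h1 h2
    obtain ⟨k1, k2, k3⟩ := hW _ h2
    simp only at k1 k2 k3
    have hp0 : 0 ≤ p.2 := by linarith
    have e1 : Ω (g p).1 = Ω p.1 := by
      rw [hΩg p hp0]
      refine Prod.ext rfl (Subtype.ext ?_)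
      change finS κ (U (Ω p.1).1) ((Ω p.1).2 : ℝ) p.2 = _
      rw [k2, k3]
      exact finS_rest (by linarith)
    refine Prod.ext (Ω.injective e1) ?_
    exact max_eq_left (by linarith)
  have hmaps : ∀ p ∈ X, g p ∈ X' := by
    rintro p (h | ⟨h1, h2, h3⟩ | ⟨h1, h2⟩)
    · left
      change max (p.2 - δ) 0 = 0
      exact max_eq_right (by linarith)
    · left
      change max (p.2 - δ) 0 = 0
      have := hU1 (Ω p.1).1
      exact max_eq_right (by linarith)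
    · right
      rw [hrest p h1 h2]
      exact h2
  have hinj : ∀ p ∈ X, ∀ q ∈ X, g p = g q → p = q := by
    intro p hp q hq hpq
    have hp1 := hP p hp
    have hq1 := hP q hq
    have e1 := hΩg p (hp1.nonneg hδ)
    rw [hpq, hΩg q (hq1.nonneg hδ)] at e1
    have e2 : (Ω q.1).1 = (Ω p.1).1 := (Prod.ext_iff.1 e1).1
    have e3 : finS κ (U (Ω q.1).1) ((Ω q.1).2 : ℝ) q.2 =
        finS κ (U (Ω p.1).1) ((Ω p.1).2 : ℝ) p.2 := congrArg Subtype.val (Prod.ext_iff.1 e1).2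
    have e4 : max (p.2 - δ) 0 = max (q.2 - δ) 0 := congrArg Prod.snd hpq
    rw [e2] at e3 hq1
    obtain ⟨k1, k2⟩ := finP_inj hκ hδ (hU0 _) (hU1 _) (Ω p.1).2.2.1 (Ω q.1).2.2.1 hp1 hq1
      e3.symm e4
    refine Prod.ext (Ω.injective (Prod.ext e2.symm (Subtype.ext k1))) k2
  have hsurj : ∀ q ∈ X', ∃ p ∈ X, g p = q := by
    rintro q (hq | hq)
    · obtain ⟨s, v, hs0, hs1, hsv, hS, hV⟩ := finP_surj hκ hδ (hU0 (Ω q.1).1) (hU1 (Ω q.1).1)
        (Ω q.1).2.2.1 (Ω q.1).2.2.2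
      have hv0 : 0 ≤ v := by
        rcases hsv with h | ⟨-, h, -⟩
        · exact h.ge
        · exact h
      have hΩp : Ω (Ω.symm ((Ω q.1).1, (⟨s, hs0, hs1⟩ : I))) = ((Ω q.1).1, (⟨s, hs0, hs1⟩ : I)) :=
        Ω.apply_symm_apply _
      refine ⟨(Ω.symm ((Ω q.1).1, ⟨s, hs0, hs1⟩), v), ?_, ?_⟩
      · rcases hsv with h | ⟨h1, h2, h3⟩
        · exact Or.inl h
        · refine Or.inr (Or.inl ⟨?_, h2, ?_⟩)
          · simp only [hΩp]
            exact Subtype.ext h1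
          · simp only [hΩp]
            exact h3
      · refine Prod.ext (Ω.injective ?_) ?_
        · rw [hΩg _ hv0]
          refine Prod.ext ?_ (Subtype.ext ?_)
          · simp only [hΩp]
          · simp only [hΩp]
            exact hS
        · change max (v - δ) 0 = q.2
          rw [hV, hq]
    · obtain ⟨k1, k2, k3⟩ := hW _ hq
      have h1 : δ ≤ (q.1, q.2 + δ).2 := by simp only; linarith
      have h2 : ((q.1, q.2 + δ).1, (q.1, q.2 + δ).2 - δ) ∈ W' := by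
        simp only [add_sub_cancel_right]
        exact hq
      refine ⟨(q.1, q.2 + δ), Or.inr (Or.inr ⟨h1, h2⟩), ?_⟩
      rw [hrest _ h1 h2]
      simp only [add_sub_cancel_right]
  -- compactness of `X`
  have hXc : IsCompact X := by
    have hzero : IsCompact {p : B × ℝ | p.2 = 0} := by
      have : {p : B × ℝ | p.2 = 0} = (Set.univ : Set B) ×ˢ ({0} : Set ℝ) := by
        ext p; simp
      rw [this]
      exact isCompact_univ.prod isCompact_singleton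
    have c1 : Continuous fun p : B × ℝ => Ω p.1 := Ω.continuous.comp continuous_fst
    have c3 : Continuous fun p : B × ℝ => (Ω p.1).2 := continuous_snd.comp c1
    have c4 : Continuous fun p : B × ℝ => U (Ω p.1).1 := hU.comp (continuous_fst.comp c1)
    have hfin : IsCompact {p : B × ℝ | (Ω p.1).2 = 0 ∧ 0 ≤ p.2 ∧ p.2 ≤ U (Ω p.1).1} := by
      refine (isCompact_univ.prod (isCompact_Icc (a := (0 : ℝ)) (b := δ))).of_isClosed_subset ?_ ?_
      · exact (isClosed_eq c3 continuous_const).inter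
          ((isClosed_le continuous_const continuous_snd).inter (isClosed_le continuous_snd c4))
      · rintro p ⟨-, h2, h3⟩
        exact ⟨Set.mem_univ _, h2, h3.trans (hU1 _)⟩
    have hA : IsCompact (X' ∩ {p : B × ℝ | (Ω p.1).2 = 0 ∧ U (Ω p.1).1 = δ}) :=
      hc.inter_right ((isClosed_eq c3 continuous_const).inter (isClosed_eq c4 continuous_const))
    have hshift : Continuous fun p : B × ℝ => (p.1, p.2 + δ) :=
      continuous_fst.prodMk (continuous_snd.add continuous_const)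
    have hall := (hzero.union hfin).union (hA.image hshift)
    convert hall using 1
    ext p
    constructor
    · rintro (h | h | ⟨h1, h2⟩)
      · exact Or.inl (Or.inl h)
      · exact Or.inl (Or.inr h)
      · obtain ⟨k1, k2, k3⟩ := hW _ h2
        exact Or.inr ⟨(p.1, p.2 - δ), ⟨Or.inr h2, k2, k3⟩, by simp⟩
    · rintro ((h | h) | ⟨q, ⟨hq1, hq2, hq3⟩, rfl⟩)
      · exact Or.inl h
      · exact Or.inr (Or.inl h)
      · rcases hq1 with h | h
        · refine Or.inr (Or.inl ⟨hq2, ?_, ?_⟩)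
          · simp only
            rw [h]; linarith
          · simp only
            rw [h, hq3]; linarith
        · obtain ⟨k1, k2, k3⟩ := hW _ h
          refine Or.inr (Or.inr ⟨?_, ?_⟩)
          · simp only; linarith
          · simpa using h
  have : CompactSpace X := isCompact_iff_compactSpace.1 hXc
  let f : X → X' := fun p => ⟨g p, hmaps p p.2⟩
  have hf : Function.Bijective f := by
    constructor
    · intro p q hpq
      exact Subtype.ext (hinj p p.2 q q.2 (congrArg Subtype.val hpq))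
    · intro q
      obtain ⟨p, hp, hpq⟩ := hsurj q q.2
      exact ⟨⟨p, hp⟩, Subtype.ext hpq⟩
  have hfc : Continuous (Equiv.ofBijective f hf) :=
    (hgc.comp continuous_subtype_val).subtype_mk _
  refine ⟨hfc.homeoOfEquivCompactToT2, fun p => ?_⟩
  change dist (g p) _ < ε
  have hv0 : 0 ≤ (p : B × ℝ).2 := (hP p p.2).nonneg hδ
  have e1 : dist (g p) ((p : B × ℝ).1, max ((p : B × ℝ).2 - δ) 0) =
      dist (g p).1 (p : B × ℝ).1 := by
    rw [Prod.dist_eq]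
    have : (g p).2 = max ((p : B × ℝ).2 - δ) 0 := rfl
    rw [this, dist_self]
    exact max_eq_left dist_nonneg
  rw [e1]
  have e2 : (g p).1 = Ω.symm (Ω (g p).1) := (Ω.symm_apply_apply _).symm
  have e3 : (p : B × ℝ).1 = Ω.symm (Ω (p : B × ℝ).1) := (Ω.symm_apply_apply _).symm
  rw [e2, e3]
  refine hηε ?_
  rw [hΩg _ hv0, Prod.dist_eq]
  refine max_lt ?_ ?_
  · simp only
    rw [dist_self]
    exact hη
  · rw [Subtype.dist_eq, Real.dist_eq]
    have h1 : finS κ (U (Ω (p : B × ℝ).1).1) ((Ω (p : B × ℝ).1).2 : ℝ) (p : B × ℝ).2 ≤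
      ((Ω (p : B × ℝ).1).2 : ℝ) + κ := finS_sub_le hκ (hU0 _) (Ω (p : B × ℝ).1).2.2.1 hv0
    have h2 : ((Ω (p : B × ℝ).1).2 : ℝ) ≤
      finS κ (U (Ω (p : B × ℝ).1).1) ((Ω (p : B × ℝ).1).2 : ℝ) (p : B × ℝ).2 := le_max_left _ _
    rw [abs_of_nonneg (by simpa using h2)]
    have h3 : finS κ (U (Ω (p : B × ℝ).1).1) ((Ω (p : B × ℝ).1).2 : ℝ) (p : B × ℝ).2 -
      ((Ω (p : B × ℝ).1).2 : ℝ) < η := by linarith
    exact h3

end Pool.Agent.H56.SQ
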