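import Mathlib
import Pool.Agent.H56.SQ.Basic
import Pool.Agent.H56.SQ.Collar
import Pool.Agent.H56.SQ.Brown
import Pool.Agent.H56.SQ.FinNear
import Pool.Agent.H56.SQ.Fam
import Pool.Agent.H56.SQ.FamQ

set_option autoImplicit false

/-!
# SQ-08b: adding a collar to a closed subset does not change the product with Q

`collar_R` (Collar.lean): for every `n` there is a homeomorphism `Ω : Y × Q ≃ Q × I` with
`(Ω p).2 = 0 ↔ p ∈ C × R (aa n)`.

`west`: `{(y,u) ∈ Y × I | u = 0 ∨ y ∈ C} × Q ≃ Q`.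
Proof: `B = Y × Q`, `X n = {(b,v) : B × ℝ | v = 0 ∨ (0 < v ∧ v + aa n ≤ 1 ∧ b.1 ∈ C ∧ b.2 ∈ R (v + aa n))}`
(`X 0 = B × {0}`), `X' = {(b,u) | u = 0 ∨ (0 < u ≤ 1 ∧ b.1 ∈ C ∧ b.2 ∈ R u)}` (all compact: closed and
bounded, use `R_closed`, `R_anti`, `R_zero`), `π n (b,u) = (b, max (u - aa n) 0)`,
`g n (b,v) = (b, max (v - δ n) 0)`, `δ n = aa n - aa (n+1)`.  `g n` is a near homeomorphism by `fin_near`
with `Ω` from `collar_R (n+1)`, `E = Q`, `U ζ = δ n * (1 - w (2n))` where `(c,w) = Ω⁻¹ (ζ,0)`,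
`W' = {(b,v) | 0 < v ∧ v + aa n ≤ 1 ∧ b.1 ∈ C ∧ b.2 ∈ R (v + aa n)}`: `mem_R_between` shows that `X (n+1)` is
exactly the set of `fin_near`.  `brown` gives `X' ≃ X 0 ≃ B = Y × Q ≃ Q`.  Finally
`X' ≃ {(y,u) | u = 0 ∨ y ∈ C} × Q` by `((y,w),u) ↦ ((y,u), q u w)` (`exists_q`; continuous bijection of
compact Hausdorff spaces; for `u = 0` it is `w ↦ w`, also over `y ∉ C`).
-/

namespace Pool.Agent.H56.SQ

open unitInterval Set

/-- the set `X n` -/
def WestX {B : Type} (RR : ℝ → Set B) (n : ℕ) : Set (B × ℝ) :=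
  {p | p.2 = 0 ∨ (0 < p.2 ∧ p.2 + aa n ≤ 1 ∧ p.1 ∈ RR (p.2 + aa n))}

/-- the set `X'` -/
def WestX' {B : Type} (RR : ℝ → Set B) : Set (B × ℝ) :=
  {p | p.2 = 0 ∨ (0 < p.2 ∧ p.2 ≤ 1 ∧ p.1 ∈ RR p.2)}

theorem west_aa_le_one (n : ℕ) : aa n ≤ 1 := by
  have := Fam_aa_anti (Nat.zero_le n)
  simpa [aa] using this

theorem westX_nonneg {B : Type} {RR : ℝ → Set B} {n : ℕ} {p : B × ℝ} (h : p ∈ WestX RR n) :
    0 ≤ p.2 := by
  rcases h with h | h
  · exact h.ge
  · exact h.1.le

theorem westX'_nonneg {B : Type} {RR : ℝ → Set B} {p : B × ℝ} (h : p ∈ WestX' RR) :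
    0 ≤ p.2 := by
  rcases h with h | h
  · exact h.ge
  · exact h.1.le

theorem westX_compact {B : Type} [TopologicalSpace B] [CompactSpace B] {RR : ℝ → Set B}
    (hcl : IsClosed {p : B × ℝ | p.1 ∈ RR p.2}) (n : ℕ) : IsCompact (WestX RR n) := by
  have hK : IsCompact ((univ : Set B) ×ˢ Icc (0 : ℝ) 1) := isCompact_univ.prod isCompact_Icc
  have e : WestX RR n = {p : B × ℝ | p.2 = 0} ∪
      ({p : B × ℝ | 0 ≤ p.2} ∩ {p : B × ℝ | p.2 + aa n ≤ 1} ∩
        {p : B × ℝ | p.1 ∈ RR (p.2 + aa n)}) := by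
    ext p
    constructor
    · rintro (h | h)
      · exact Or.inl h
      · exact Or.inr ⟨⟨h.1.le, h.2.1⟩, h.2.2⟩
    · rintro (h | h)
      · exact Or.inl h
      · rcases eq_or_lt_of_le (show 0 ≤ p.2 from h.1.1) with h1 | h1
        · exact Or.inl h1.symm
        · exact Or.inr ⟨h1, h.1.2, h.2⟩
  have hc : IsClosed (WestX RR n) := by
    rw [e]
    refine (isClosed_eq continuous_snd continuous_const).union
      (((isClosed_le continuous_const continuous_snd).inter
        (isClosed_le (continuous_snd.add continuous_const) continuous_const)).inter ?_)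
    exact hcl.preimage (continuous_fst.prodMk (continuous_snd.add continuous_const))
  refine hK.of_isClosed_subset hc ?_
  intro p hp
  refine ⟨mem_univ _, westX_nonneg hp, ?_⟩
  have h1 := Fam_aa_pos n
  rcases hp with h | h
  · rw [h]; exact zero_le_one
  · linarith [h.2.1]

theorem westX'_compact {B : Type} [TopologicalSpace B] [CompactSpace B] {RR : ℝ → Set B}
    (hcl : IsClosed {p : B × ℝ | p.1 ∈ RR p.2}) : IsCompact (WestX' RR) := by
  have hK : IsCompact ((univ : Set B) ×ˢ Icc (0 : ℝ) 1) := isCompact_univ.prod isCompact_Icc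
  have e : WestX' RR = {p : B × ℝ | p.2 = 0} ∪
      ({p : B × ℝ | 0 ≤ p.2} ∩ {p : B × ℝ | p.2 ≤ 1} ∩ {p : B × ℝ | p.1 ∈ RR p.2}) := by
    ext p
    constructor
    · rintro (h | h)
      · exact Or.inl h
      · exact Or.inr ⟨⟨h.1.le, h.2.1⟩, h.2.2⟩
    · rintro (h | h)
      · exact Or.inl h
      · rcases eq_or_lt_of_le (show 0 ≤ p.2 from h.1.1) with h1 | h1
        · exact Or.inl h1.symm
        · exact Or.inr ⟨h1, h.1.2, h.2⟩
  have hc : IsClosed (WestX' RR) := by
    rw [e]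
    exact (isClosed_eq continuous_snd continuous_const).union
      (((isClosed_le continuous_const continuous_snd).inter
        (isClosed_le continuous_snd continuous_const)).inter hcl)
  refine hK.of_isClosed_subset hc ?_
  intro p hp
  refine ⟨mem_univ _, westX'_nonneg hp, ?_⟩
  rcases hp with h | h
  · rw [h]; exact zero_le_one
  · exact h.2.1

theorem west_g_mem {B : Type} {RR : ℝ → Set B} (n : ℕ) {p : B × ℝ} (h : p ∈ WestX RR (n + 1)) :
    (p.1, max (p.2 - (aa n - aa (n + 1))) 0) ∈ WestX RR n := by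
  have hd := Fam_aa_lt n
  rcases le_or_gt p.2 (aa n - aa (n + 1)) with h1 | h1
  · left
    exact max_eq_right (by linarith)
  · rcases h with h | h
    · exfalso; linarith
    · right
      have e : max (p.2 - (aa n - aa (n + 1))) 0 = p.2 - (aa n - aa (n + 1)) :=
        max_eq_left (by linarith)
      have e2 : p.2 - (aa n - aa (n + 1)) + aa n = p.2 + aa (n + 1) := by ring
      simp only [e, e2]
      exact ⟨by linarith, h.2.1, h.2.2⟩

theorem west_pi_mem {B : Type} {RR : ℝ → Set B} (n : ℕ) {p : B × ℝ} (h : p ∈ WestX' RR) :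
    (p.1, max (p.2 - aa n) 0) ∈ WestX RR n := by
  have hd := Fam_aa_pos n
  rcases le_or_gt p.2 (aa n) with h1 | h1
  · left
    exact max_eq_right (by linarith)
  · rcases h with h | h
    · exfalso; linarith
    · right
      have e : max (p.2 - aa n) 0 = p.2 - aa n := max_eq_left (by linarith)
      have e2 : p.2 - aa n + aa n = p.2 := by ring
      simp only [e, e2]
      exact ⟨by linarith, h.2.1, h.2.2⟩

/-- the inverse limit argument for metric spaces -/
theorem west_metric {B E : Type} [MetricSpace B] [CompactSpace B] [MetricSpace E] [CompactSpace E]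
    (RR : ℝ → Set B) (hcl : IsClosed {p : B × ℝ | p.1 ∈ RR p.2})
    (hanti : ∀ u v, u ≤ v → RR v ⊆ RR u)
    (Uf : ℕ → B → ℝ) (hUc : ∀ n, Continuous (Uf n)) (hU0 : ∀ n b, 0 ≤ Uf n b)
    (hU1 : ∀ n b, Uf n b ≤ aa n - aa (n + 1))
    (hbet : ∀ n u, aa (n + 1) ≤ u → u ≤ aa n → ∀ b, b ∈ RR u ↔ b ∈ RR (aa (n + 1)) ∧
      u - aa (n + 1) ≤ Uf n b)
    (Ω : ℕ → B ≃ₜ E × I) (hΩ : ∀ n b, (Ω n b).2 = 0 ↔ b ∈ RR (aa n)) :
    Nonempty (WestX' RR ≃ₜ B) := by
  have hcomp : ∀ n, CompactSpace (WestX RR n) := fun n =>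
    isCompact_iff_compactSpace.1 (westX_compact hcl n)
  have hcomp' : CompactSpace (WestX' RR) := isCompact_iff_compactSpace.1 (westX'_compact hcl)
  have hnear : ∀ n, ∀ ε > 0, ∃ h : WestX RR (n + 1) ≃ₜ WestX RR n,
      ∀ x, dist (h x) (⟨_, west_g_mem n x.2⟩ : WestX RR n) < ε := by
    intro n ε hε
    have hd := Fam_aa_lt n
    set δ := aa n - aa (n + 1) with hδ
    set W' : Set (B × ℝ) := {p | 0 < p.2 ∧ p.2 + aa n ≤ 1 ∧ p.1 ∈ RR (p.2 + aa n)} with hW'
    set U : E → ℝ := fun ζ => Uf n ((Ω (n + 1)).symm (ζ, 0)) with hU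
    have hUb : ∀ b, (Ω (n + 1) b).2 = 0 → U (Ω (n + 1) b).1 = Uf n b := by
      intro b hb
      have : ((Ω (n + 1) b).1, (0 : I)) = Ω (n + 1) b := Prod.ext rfl hb.symm
      simp only [hU, this, Homeomorph.symm_apply_apply]
    have hWp : ∀ p ∈ W', 0 < p.2 ∧ (Ω (n + 1) p.1).2 = 0 ∧ U (Ω (n + 1) p.1).1 = δ := by
      rintro p ⟨h1, h2, h3⟩
      have h4 : p.1 ∈ RR (aa n) := hanti _ _ (by linarith) h3
      have h5 := (hbet n (aa n) (by linarith) le_rfl p.1).1 h4
      have h6 : (Ω (n + 1) p.1).2 = 0 := (hΩ (n + 1) p.1).2 h5.1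
      refine ⟨h1, h6, ?_⟩
      rw [hUb _ h6]
      exact le_antisymm (hU1 n _) h5.2
    have hcW : IsCompact {p : B × ℝ | p.2 = 0 ∨ p ∈ W'} := westX_compact hcl n
    obtain ⟨h, hh⟩ := fin_near (Ω (n + 1)) δ hd U
      ((hUc n).comp ((Ω (n + 1)).symm.continuous.comp (continuous_id.prodMk continuous_const)))
      (fun z => hU0 n _) (fun z => hU1 n _) W' hWp hcW ε hε
    have hset : WestX RR (n + 1) = {p : B × ℝ | p.2 = 0 ∨ ((Ω (n + 1) p.1).2 = 0 ∧ 0 ≤ p.2 ∧
        p.2 ≤ U (Ω (n + 1) p.1).1) ∨ (δ ≤ p.2 ∧ (p.1, p.2 - δ) ∈ W')} := by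
      ext p
      constructor
      · rintro (h1 | ⟨h1, h2, h3⟩)
        · exact Or.inl h1
        · right
          rcases le_or_gt p.2 δ with h4 | h4
          · left
            have h5 := (hbet n (p.2 + aa (n + 1)) (by linarith) (by linarith) p.1).1 h3
            have h6 : (Ω (n + 1) p.1).2 = 0 := (hΩ (n + 1) p.1).2 h5.1
            refine ⟨h6, h1.le, ?_⟩
            rw [hUb _ h6]
            linarith [h5.2]
          · right
            have e2 : p.2 - δ + aa n = p.2 + aa (n + 1) := by rw [hδ]; ring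
            refine ⟨h4.le, ?_, ?_, ?_⟩
            · show 0 < p.2 - δ
              linarith
            · show p.2 - δ + aa n ≤ 1
              rw [e2]; exact h2
            · show p.1 ∈ RR (p.2 - δ + aa n)
              rw [e2]; exact h3
      · rintro (h1 | ⟨h1, h2, h3⟩ | ⟨h1, h2, h3, h4⟩)
        · exact Or.inl h1
        · rcases eq_or_lt_of_le h2 with h4 | h4
          · exact Or.inl h4.symm
          · right
            rw [hUb _ h1] at h3
            have h5 := hU1 n p.1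
            have h6 := west_aa_le_one n
            refine ⟨h4, by linarith, ?_⟩
            refine (hbet n (p.2 + aa (n + 1)) (by linarith) (by linarith) p.1).2
              ⟨(hΩ (n + 1) p.1).1 h1, by linarith⟩
        · right
          have e2 : p.2 - δ + aa n = p.2 + aa (n + 1) := by rw [hδ]; ring
          change 0 < p.2 - δ at h2
          change p.2 - δ + aa n ≤ 1 at h3
          change p.1 ∈ RR (p.2 - δ + aa n) at h4
          rw [e2] at h3 h4
          exact ⟨by linarith, h3, h4⟩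
    refine ⟨(Homeomorph.setCongr hset).trans h, fun x => ?_⟩
    exact hh (Homeomorph.setCongr hset x)
  have hb := brown (fun n => WestX RR n) (WestX' RR) (fun n x => ⟨_, west_g_mem n x.2⟩)
    (fun n => by
      refine Continuous.subtype_mk ?_ _
      exact (continuous_fst.comp continuous_subtype_val).prodMk
        (((continuous_snd.comp continuous_subtype_val).sub continuous_const).max continuous_const))
    hnear (fun n x => ⟨_, west_pi_mem n x.2⟩)
    (fun n => by
      refine Continuous.subtype_mk ?_ _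
      exact (continuous_fst.comp continuous_subtype_val).prodMk
        (((continuous_snd.comp continuous_subtype_val).sub continuous_const).max continuous_const))
    (fun n => by
      rintro ⟨⟨b, v⟩, hv⟩
      rcases hv with hv | ⟨h1, h2, h3⟩
      · change v = 0 at hv
        subst hv
        refine ⟨⟨(b, 0), Or.inl rfl⟩, ?_⟩
        apply Subtype.ext
        refine Prod.ext rfl ?_
        exact max_eq_right (by have := Fam_aa_pos n; show (0:ℝ) - aa n ≤ 0; linarith)
      · change 0 < v at h1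
        change v + aa n ≤ 1 at h2
        change b ∈ RR (v + aa n) at h3
        have h4 := Fam_aa_pos n
        refine ⟨⟨(b, v + aa n), Or.inr ⟨by show 0 < v + aa n; linarith, h2, h3⟩⟩, ?_⟩
        apply Subtype.ext
        refine Prod.ext rfl ?_
        show max (v + aa n - aa n) 0 = v
        rw [add_sub_cancel_right]
        exact max_eq_left h1.le)
    (fun n x => by
      apply Subtype.ext
      refine Prod.ext rfl ?_
      have h4 := Fam_aa_pos (n + 1)
      have hd := Fam_aa_lt n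
      show max (max ((x : B × ℝ).2 - aa (n + 1)) 0 - (aa n - aa (n + 1))) 0
        = max ((x : B × ℝ).2 - aa n) 0
      rcases le_or_gt (x : B × ℝ).2 (aa (n + 1)) with h1 | h1
      · rw [max_eq_right (by linarith : (x : B × ℝ).2 - aa (n + 1) ≤ 0),
          max_eq_right (by linarith), max_eq_right (by linarith)]
      · rw [max_eq_left (by linarith : 0 ≤ (x : B × ℝ).2 - aa (n + 1))]
        congr 1
        ring)
    (fun x y hxy => by
      have h1 : (x : B × ℝ).1 = (y : B × ℝ).1 := by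
        have := congrArg (fun t : WestX RR 0 => (t : B × ℝ).1) (hxy 0)
        exact this
      have h2 : ∀ n, max ((x : B × ℝ).2 - aa n) 0 = max ((y : B × ℝ).2 - aa n) 0 := fun n =>
        congrArg (fun t : WestX RR n => (t : B × ℝ).2) (hxy n)
      have key : ∀ a b : ℝ, 0 ≤ a → (∀ n, max (a - aa n) 0 = max (b - aa n) 0) → ¬ a < b := by
        intro a b ha hab hlt
        obtain ⟨n, hn⟩ := exists_nat_one_div_lt (show (0 : ℝ) < b by linarith)
        have h3 := hab n
        have h5 : aa n < b := hn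
        rw [max_eq_left (by linarith : 0 ≤ b - aa n)] at h3
        rcases le_or_gt a (aa n) with h4 | h4
        · rw [max_eq_right (by linarith)] at h3
          linarith
        · rw [max_eq_left (by linarith)] at h3
          linarith
      have h3 : (x : B × ℝ).2 = (y : B × ℝ).2 := by
        rcases lt_trichotomy (x : B × ℝ).2 (y : B × ℝ).2 with h | h | h
        · exact (key _ _ (westX'_nonneg x.2) h2 h).elim
        · exact h
        · exact (key _ _ (westX'_nonneg y.2) (fun n => (h2 n).symm) h).elim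
      exact Subtype.ext (Prod.ext h1 h3))
  obtain ⟨hb⟩ := hb
  -- `X 0 ≃ B`
  have haa0 : aa 0 = 1 := by simp [aa]
  have hX0 : ∀ p ∈ WestX RR 0, p.2 = 0 := by
    rintro p (h | ⟨h1, h2, h3⟩)
    · exact h
    · rw [haa0] at h2
      exfalso; linarith
  have e0 : Nonempty (WestX RR 0 ≃ₜ B) := by
    refine ⟨{ toFun := fun x => (x : B × ℝ).1
              invFun := fun b => ⟨(b, 0), Or.inl rfl⟩
              left_inv := fun x => Subtype.ext (Prod.ext rfl (hX0 _ x.2).symm)
              right_inv := fun b => rfl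
              continuous_toFun := continuous_fst.comp continuous_subtype_val
              continuous_invFun := Continuous.subtype_mk
                (continuous_id.prodMk continuous_const) _ }⟩
  obtain ⟨e0⟩ := e0
  exact ⟨hb.trans e0⟩

/-- the inverse limit argument for metrizable spaces -/
theorem west_top {B E : Type} [tB : TopologicalSpace B] [CompactSpace B]
    [hmB : TopologicalSpace.MetrizableSpace B]
    [tE : TopologicalSpace E] [CompactSpace E] [hmE : TopologicalSpace.MetrizableSpace E]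
    (RR : ℝ → Set B) (hcl : IsClosed {p : B × ℝ | p.1 ∈ RR p.2})
    (hanti : ∀ u v, u ≤ v → RR v ⊆ RR u)
    (Uf : ℕ → B → ℝ) (hUc : ∀ n, Continuous (Uf n)) (hU0 : ∀ n b, 0 ≤ Uf n b)
    (hU1 : ∀ n b, Uf n b ≤ aa n - aa (n + 1))
    (hbet : ∀ n u, aa (n + 1) ≤ u → u ≤ aa n → ∀ b, b ∈ RR u ↔ b ∈ RR (aa (n + 1)) ∧
      u - aa (n + 1) ≤ Uf n b)
    (Ω : ℕ → B ≃ₜ E × I) (hΩ : ∀ n b, (Ω n b).2 = 0 ↔ b ∈ RR (aa n)) :
    Nonempty (WestX' RR ≃ₜ B) := by
  letI : MetricSpace B := TopologicalSpace.metrizableSpaceMetric B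
  letI : MetricSpace E := TopologicalSpace.metrizableSpaceMetric E
  exact west_metric RR hcl hanti Uf hUc hU0 hU1 hbet Ω hΩ

theorem west {Y : Type} [MetricSpace Y] [CompactSpace Y] (C : Set Y) (hC : IsClosed C)
    (hY : Nonempty ((Y × Q) ≃ₜ Q)) (hCQ : Nonempty ((C × Q) ≃ₜ Q)) :
    Nonempty (({p : Y × I | p.2 = 0 ∨ p.1 ∈ C} × Q) ≃ₜ Q) := by
  choose Ω hΩ using collar_R C hC hY hCQ
  set RR : ℝ → Set (Y × Q) := fun u => {b | b.1 ∈ C ∧ b.2 ∈ R u} with hRR
  have hcl : IsClosed {p : (Y × Q) × ℝ | p.1 ∈ RR p.2} := by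
    have h1 : IsClosed {p : (Y × Q) × ℝ | p.1.1 ∈ C} :=
      hC.preimage (continuous_fst.comp continuous_fst)
    have h2 : IsClosed {p : (Y × Q) × ℝ | p.1.2 ∈ R p.2} :=
      R_closed.preimage (continuous_snd.prodMk (continuous_snd.comp continuous_fst))
    exact h1.inter h2
  obtain ⟨e1⟩ := west_top (B := Y × Q) (E := Q) RR hcl
    (fun u v huv b hb => ⟨hb.1, R_anti huv hb.2⟩)
    (fun n b => (aa n - aa (n + 1)) * (1 - ((b.2 (2 * n) : I) : ℝ)))
    (fun n => continuous_const.mul (continuous_const.sub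
      (continuous_subtype_val.comp ((continuous_apply (2 * n)).comp continuous_snd))))
    (fun n b => mul_nonneg (Fam_aa_lt n).le (by linarith [(b.2 (2 * n)).2.2]))
    (fun n b => by
      have h1 := (b.2 (2 * n)).2.1
      have h2 := Fam_aa_lt n
      nlinarith)
    (fun n u h1 h2 b => by
      have h3 := mem_R_between n u h1 h2 b.2
      show (b.1 ∈ C ∧ b.2 ∈ R u) ↔ (b.1 ∈ C ∧ b.2 ∈ R (aa (n + 1))) ∧ _
      rw [h3, and_assoc])
    Ω (fun n b => by
      rw [hΩ n b]
      rfl)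
  obtain ⟨q, hq1, hq2, hq3⟩ := exists_q
  have hcomp' : CompactSpace (WestX' RR) := isCompact_iff_compactSpace.1 (westX'_compact hcl)
  have hdom : ∀ x : WestX' RR, ((x : (Y × Q) × ℝ).2, (x : (Y × Q) × ℝ).1.2) ∈
      {p : ℝ × Q | p.1 ∈ Icc (0:ℝ) 1 ∧ p.2 ∈ R p.1} := by
    rintro ⟨⟨⟨y, w⟩, u⟩, hx⟩
    rcases hx with h | ⟨h1, h2, h3⟩
    · change u = 0 at h
      subst h
      refine ⟨⟨le_rfl, zero_le_one⟩, ?_⟩
      show w ∈ R 0
      rw [R_zero]
      exact mem_univ _
    · exact ⟨⟨h1.le, h2⟩, h3.2⟩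
  have hmem : ∀ x : WestX' RR, (((x : (Y × Q) × ℝ).1.1,
      (⟨(x : (Y × Q) × ℝ).2, (hdom x).1⟩ : I)) : Y × I) ∈ {p : Y × I | p.2 = 0 ∨ p.1 ∈ C} := by
    rintro ⟨⟨⟨y, w⟩, u⟩, hx⟩
    rcases hx with h | ⟨h1, h2, h3⟩
    · left
      exact Subtype.ext h
    · right
      exact h3.1
  set f : WestX' RR → {p : Y × I | p.2 = 0 ∨ p.1 ∈ C} × Q := fun x =>
    (⟨_, hmem x⟩, q (x : (Y × Q) × ℝ).2 (x : (Y × Q) × ℝ).1.2) with hf
  have hfc : Continuous f := by
    refine Continuous.prodMk ?_ ?_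
    · refine Continuous.subtype_mk ?_ _
      refine Continuous.prodMk ?_ ?_
      · exact continuous_fst.comp (continuous_fst.comp continuous_subtype_val)
      · exact Continuous.subtype_mk (continuous_snd.comp continuous_subtype_val) _
    · exact hq1.comp_continuous ((continuous_snd.comp continuous_subtype_val).prodMk
        (continuous_snd.comp (continuous_fst.comp continuous_subtype_val))) hdom
  have hfi : Function.Injective f := by
    intro x x' hxx
    have h1 : (x : (Y × Q) × ℝ).1.1 = (x' : (Y × Q) × ℝ).1.1 :=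
      congrArg (fun t : {p : Y × I | p.2 = 0 ∨ p.1 ∈ C} × Q => (t.1 : Y × I).1) hxx
    have h2 : (x : (Y × Q) × ℝ).2 = (x' : (Y × Q) × ℝ).2 :=
      congrArg (fun t : {p : Y × I | p.2 = 0 ∨ p.1 ∈ C} × Q => ((t.1 : Y × I).2 : ℝ)) hxx
    have h3 : q (x : (Y × Q) × ℝ).2 (x : (Y × Q) × ℝ).1.2
        = q (x' : (Y × Q) × ℝ).2 (x' : (Y × Q) × ℝ).1.2 :=
      congrArg (fun t : {p : Y × I | p.2 = 0 ∨ p.1 ∈ C} × Q => t.2) hxx
    rw [← h2] at h3
    have h4 : (x' : (Y × Q) × ℝ).1.2 ∈ R (x : (Y × Q) × ℝ).2 := by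
      rw [h2]; exact (hdom x').2
    have h5 := (hq3 _ (hdom x).1).injOn (hdom x).2 h4 h3
    exact Subtype.ext (Prod.ext (Prod.ext h1 h5) h2)
  have hfs : Function.Surjective f := by
    rintro ⟨⟨⟨y, u⟩, hyu⟩, z⟩
    obtain ⟨w, hw, hwz⟩ := (hq3 (u : ℝ) u.2).surjOn (mem_univ z)
    have hx : ((y, w), (u : ℝ)) ∈ WestX' RR := by
      rcases hyu with h | h
      · left
        change u = 0 at h
        rw [h]; rfl
      · rcases eq_or_lt_of_le u.2.1 with h1 | h1
        · exact Or.inl h1.symm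
        · exact Or.inr ⟨h1, u.2.2, h, hw⟩
    refine ⟨⟨_, hx⟩, ?_⟩
    exact Prod.ext (Subtype.ext (Prod.ext rfl (Subtype.ext rfl))) hwz
  have e2 : WestX' RR ≃ₜ ({p : Y × I | p.2 = 0 ∨ p.1 ∈ C} × Q) :=
    Continuous.homeoOfEquivCompactToT2 (f := Equiv.ofBijective f ⟨hfi, hfs⟩) hfc
  obtain ⟨eY⟩ := hY
  exact ⟨e2.symm.trans (e1.trans eY)⟩

end Pool.Agent.H56.SQ
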