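import Mathlib
import Pool.Agent.H56.SQ.Basic
import Pool.Agent.H56.SQ.West
import Pool.Agent.H56.SQ.ConeStep

set_option autoImplicit false

/-!
# SQ-09b: (cubical cone over a finite complex) x Q = Q

`cone_Q`: `PP L × Q ≃ Q`.  Strong induction on `card L`.  If `L = {∅}`: `PP L` is a point (the zero
function).  Otherwise take `s ∈ L` of maximal cardinality (so it is maximal under inclusion, and nonempty),
`L₁ = L.erase s`, `L₂ = s.ssubsets`; both contain `∅`, are closed under subsets and have fewer elements than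
`L` (`L₂ ⊆ L.erase s`).  `Y = PP L₁` (a compact metric space, `PP_closed`), `C = {y : Y | y ∈ PP L₂}`, closed,
homeomorphic to `PP L₂` because `PP L₂ ⊆ PP L₁`.  By induction `Y × Q ≃ Q`, `C × Q ≃ Q`; `west` gives
`{p : Y × I | p.2 = 0 ∨ p.1 ∈ C} × Q ≃ Q`, and `cone_step` identifies the first factor with
`PP (insert s L₁) = PP L`.
-/

namespace Pool.Agent.H56.SQ

open unitInterval Set

theorem cone_Q {α : Type} [Fintype α] [DecidableEq α] (L : Finset (Finset α)) (h0 : ∅ ∈ L)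
    (hdown : ∀ s ∈ L, ∀ t ⊆ s, t ∈ L) : Nonempty ((PP L × Q) ≃ₜ Q) := by
  induction hn : L.card using Nat.strong_induction_on generalizing L with
  | _ n ih =>
  by_cases hL : ∀ t ∈ L, t = ∅
  · have hz : ∀ z : PP L, z = ⟨fun _ => 0, ⟨∅, h0, fun _ _ => rfl⟩⟩ := by
      rintro ⟨z, t, ht, h⟩
      apply Subtype.ext
      funext i
      rw [hL t ht] at h
      exact h i (Finset.notMem_empty i)
    have : Unique (PP L) := ⟨⟨⟨fun _ => 0, ⟨∅, h0, fun _ _ => rfl⟩⟩⟩, hz⟩
    exact ⟨Homeomorph.uniqueProd _ _⟩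
  · push Not at hL
    obtain ⟨t0, ht0, hne⟩ := hL
    obtain ⟨s, hsL, hmax⟩ := Finset.exists_max_image L Finset.card ⟨∅, h0⟩
    have hs : s.Nonempty := by
      rw [← Finset.card_pos]
      have h1 := hmax t0 ht0
      have h2 : 0 < t0.card := Finset.card_pos.2 hne
      omega
    obtain ⟨L₁, hL₁⟩ : ∃ L₁, L₁ = L.erase s := ⟨_, rfl⟩
    have hins : insert s L₁ = L := by rw [hL₁, Finset.insert_erase hsL]
    have hsL₁ : s ∉ L₁ := by rw [hL₁]; exact Finset.notMem_erase s L
    have hdown₁ : ∀ t ∈ L₁, ∀ t' ⊆ t, t' ∈ L₁ := by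
      intro t ht t' htt
      rw [hL₁, Finset.mem_erase] at ht ⊢
      refine ⟨?_, hdown t ht.2 t' htt⟩
      rintro rfl
      exact ht.1 (Finset.eq_of_subset_of_card_le htt (hmax t ht.2)).symm
    have hsub : ∀ t, t ⊂ s → t ∈ L₁ := by
      intro t ht
      rw [hL₁, Finset.mem_erase]
      exact ⟨ht.ne, hdown s hsL t ht.1⟩
    have h0₁ : ∅ ∈ L₁ := hsub ∅ (Finset.empty_ssubset.2 hs)
    have hcard₁ : L₁.card < n := by
      rw [← hn, hL₁]
      exact Finset.card_erase_lt_of_mem hsL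
    have hcard₂ : s.ssubsets.card < n := by
      refine lt_of_le_of_lt (Finset.card_le_card ?_) hcard₁
      intro t ht
      exact hsub t (Finset.mem_ssubsets.1 ht)
    have hY := ih L₁.card hcard₁ L₁ h0₁ hdown₁ rfl
    have hC := ih s.ssubsets.card hcard₂ s.ssubsets
      (Finset.mem_ssubsets.2 (Finset.empty_ssubset.2 hs))
      (fun t ht t' htt => Finset.mem_ssubsets.2
        (lt_of_le_of_lt htt (Finset.mem_ssubsets.1 ht))) rfl
    have hssL : ∀ z : α → I, z ∈ PP s.ssubsets → z ∈ PP L₁ := by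
      rintro z ⟨t, ht, h⟩
      exact ⟨t, hsub t (Finset.mem_ssubsets.1 ht), h⟩
    have : CompactSpace (PP L₁) := isCompact_iff_compactSpace.1 (PP_closed L₁).isCompact
    obtain ⟨C, hCd⟩ : ∃ C : Set (PP L₁), C = {y : PP L₁ | (y : α → I) ∈ PP s.ssubsets} := ⟨_, rfl⟩
    have hCm : ∀ y : PP L₁, y ∈ C ↔ (y : α → I) ∈ PP s.ssubsets := by
      intro y
      rw [hCd]
      rfl
    have hCc : IsClosed C := by
      rw [hCd]
      exact (PP_closed s.ssubsets).preimage continuous_subtype_val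
    obtain ⟨e⟩ : Nonempty (C ≃ₜ PP s.ssubsets) := ⟨{
      toFun := fun y => ⟨y.1.1, (hCm _).1 y.2⟩
      invFun := fun z => ⟨⟨z.1, hssL z.1 z.2⟩, (hCm _).2 z.2⟩
      left_inv := fun y => rfl
      right_inv := fun z => rfl
      continuous_toFun := (continuous_subtype_val.comp continuous_subtype_val).subtype_mk _
      continuous_invFun := (continuous_subtype_val.subtype_mk _).subtype_mk _ }⟩
    obtain ⟨f⟩ := hC
    have hCQ : Nonempty ((C × Q) ≃ₜ Q) := ⟨(e.prodCongr (Homeomorph.refl Q)).trans f⟩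
    obtain ⟨g⟩ := west C hCc hY hCQ
    rw [hCd] at g
    obtain ⟨h⟩ := cone_step L₁ s hs hsL₁ hdown₁ hsub
    rw [hins] at h
    exact ⟨(h.symm.prodCongr (Homeomorph.refl Q)).trans g⟩

end Pool.Agent.H56.SQ
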