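import Mathlib
import Pool.Agent.H56.SQ.Basic
import Pool.Agent.H56.SQ.PushDef
import Pool.Agent.H56.SQ.ConeStep
import Pool.Agent.H56.SQ.ConeCx

set_option autoImplicit false

/-!
# SQ-09c: the base of the cubical cone is deficient in the product with Q

Apply `defic_of_push` with `A = PP L` (compact by `PP_closed`), `r z = 1 - max_i z i` (`r = 1` if `α` is
empty; e.g. `r z = 1 - Finset.univ.sup (fun i => z i)` with `⊥ = 0` in `I`), `η m z i = (1 - m) * z i`
(`PP L` is invariant).  `η 0 = id`; for `m ≤ 1/2` (so `1 - m > 0`) `η m` is injective with range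
`{z | max z ≤ 1 - m} = {z | m ≤ r z}`; `hA` is `cone_Q`.  `r z = 0` iff some `z i = 1`.
-/

namespace Pool.Agent.H56.SQ

open unitInterval Set

/-- the base of the cone is deficient in the product with `Q` -/
theorem cone_defic {α : Type} [Fintype α] [DecidableEq α] (L : Finset (Finset α)) (h0 : ∅ ∈ L)
    (hdown : ∀ s ∈ L, ∀ t ⊆ s, t ∈ L) :
    Defic {p : PP L × Q | ∃ i, (p.1 : α → I) i = 1} := by
  have : CompactSpace (PP L) := isCompact_iff_compactSpace.mp (PP_closed L).isCompact
  have hmem : ∀ (m : I) (z : PP L), (fun i => σ m * (z : α → I) i) ∈ PP L := by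
    intro m z
    obtain ⟨s, hs, hz⟩ := z.2
    exact ⟨s, hs, fun i hi => by show σ m * (z : α → I) i = 0; rw [hz i hi, mul_zero]⟩
  let r : PP L → I := fun z => σ (Finset.univ.sup fun i => (z : α → I) i)
  let η : I → PP L → PP L := fun m z => ⟨fun i => σ m * (z : α → I) i, hmem m z⟩
  have hr : Continuous r := by
    refine continuous_symm.comp ?_
    exact Continuous.finset_sup_apply fun i _ =>
      (continuous_apply i).comp continuous_subtype_val
  have hη : Continuous (fun p : I × PP L => η p.1 p.2) := by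
    refine Continuous.subtype_mk (continuous_pi fun i => ?_) _
    exact (continuous_symm.comp continuous_fst).mul
      ((continuous_apply i).comp (continuous_subtype_val.comp continuous_snd))
  have hη0 : ∀ a, η 0 a = a := by
    intro a
    apply Subtype.ext
    funext i
    show σ 0 * (a : α → I) i = (a : α → I) i
    rw [unitInterval.symm_zero, one_mul]
  have hpos : ∀ m : I, (m : ℝ) ≤ 1 / 2 → (0 : ℝ) < (σ m : I) := by
    intro m hm
    rw [unitInterval.coe_symm_eq]
    linarith
  have hinj : ∀ m : I, (m : ℝ) ≤ 1 / 2 → Function.Injective (η m) := by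
    intro m hm a b hab
    apply Subtype.ext
    funext i
    have h1 : σ m * (a : α → I) i = σ m * (b : α → I) i := by
      have := congrArg (fun z : PP L => (z : α → I) i) hab
      exact this
    have h2 := congrArg (fun x : I => (x : ℝ)) h1
    simp only [Set.Icc.coe_mul] at h2
    exact Subtype.ext (mul_left_cancel₀ (hpos m hm).ne' h2)
  have hran : ∀ m : I, (m : ℝ) ≤ 1 / 2 → Set.range (η m) = {a | m ≤ r a} := by
    intro m hm
    have key : ∀ a : PP L, m ≤ r a ↔ ∀ i, (a : α → I) i ≤ σ m := by
      intro a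
      show m ≤ σ _ ↔ _
      rw [unitInterval.le_symm_comm, Finset.sup_le_iff]
      simp
    ext a
    rw [Set.mem_ofPred_eq, key]
    constructor
    · rintro ⟨z, rfl⟩ i
      show σ m * (z : α → I) i ≤ σ m
      exact unitInterval.mul_le_left
    · intro h
      obtain ⟨s, hs, hz⟩ := a.2
      have hb : ∀ i, ((a : α → I) i : ℝ) / (σ m : I) ∈ Set.Icc (0 : ℝ) 1 := fun i =>
        ⟨div_nonneg ((a : α → I) i).2.1 (hpos m hm).le,
          (div_le_one (hpos m hm)).2 (by exact_mod_cast h i)⟩
      refine ⟨⟨fun i => ⟨((a : α → I) i : ℝ) / (σ m : I), hb i⟩, s, hs, fun i hi => ?_⟩, ?_⟩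
      · apply Subtype.ext
        show ((a : α → I) i : ℝ) / (σ m : I) = ((0 : I) : ℝ)
        rw [hz i hi]
        simp
      · apply Subtype.ext
        funext i
        apply Subtype.ext
        show ((σ m : I) : ℝ) * (((a : α → I) i : ℝ) / (σ m : I)) = _
        rw [mul_div_cancel₀ _ (hpos m hm).ne']
  refine (defic_of_push r hr η hη hη0 hinj hran (cone_Q L h0 hdown)).mono ?_
  rintro p ⟨i, hi⟩
  show σ (Finset.univ.sup fun i => (p.1 : α → I) i) = 0
  have h1 : (Finset.univ.sup fun i => (p.1 : α → I) i) = 1 := by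
    apply le_antisymm unitInterval.le_one'
    rw [← hi]
    exact Finset.le_sup (f := fun i => (p.1 : α → I) i) (Finset.mem_univ i)
  rw [h1, unitInterval.symm_one]

end Pool.Agent.H56.SQ
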