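import Mathlib
import Pool.Agent.H56.SQ.Basic
import Pool.Agent.H56.SQ.Klee

set_option autoImplicit false

/-!
# SQ-11: two spaces with covers of the same nerve are homeomorphic

`A : ι → Set X`, `A' : ι → Set X'` locally finite closed covers.  For a finite set `S` put
`inter A S = ⋂ i ∈ S, A i`, and `bd A S = {x ∈ inter A S | ∃ j ∉ S, x ∈ A j}`.
Assume: for nonempty finite `S`, `inter A S` nonempty iff `inter A' S` nonempty; each index `i` meets only
finitely many others; whenever `S` is nonempty and `inter A S ≠ ∅` the sets `bd A S`, `bd A' S` are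
deficient in `inter A S`, `inter A' S`.  Then `X ≃ X'`.

Proof.  `T x = {i | x ∈ A i}` (finite, nonempty), `T' x'`.  For every nonempty `S` with `inter A S ≠ ∅` we
construct a homeomorphism `h S : inter A S ≃ inter A' S` such that `h S = h T` on `inter A T` for all
`T ⊋ S` with `inter A T ≠ ∅`, by well-founded recursion on `⊋` (every `S` is contained in finitely many such
`T`).  Step: given compatible `h T`, `T ⊋ S`; on `bd A S = ⋃_{T ⊋ S} inter A T` define `k x = h (T x) x`.
If `x ∈ inter A T`, `T ⊋ S`, then `T ⊆ T x` and `h T x = h (T x) x`; so `k = h T` on `inter A T`, hence `k` is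
continuous (finite closed cover).  `T' (k x) = T x`: `⊇` clear; if `T'' = T' (k x) ⊋ T x` then
`k x ∈ inter A' T''`, `k x = h T'' y` for some `y ∈ inter A T''` (`inter A T'' ≠ ∅` by the nerve
hypothesis) and `h (T x) y = h T'' y = k x = h (T x) x`, so `x = y ∈ inter A T''`, contradiction.
Therefore `k : bd A S → bd A' S` is bijective with inverse `x' ↦ (h (T' x'))⁻¹ x'`, continuous by symmetry.
`bd A S` is closed (locally finite union).  `extend_homeo` gives `h S`.
Finally `H x = h (T x) x` is a homeomorphism `X ≃ X'` by the same argument: on each `A i` it is `h {i}`,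
continuity from the locally finite closed cover (mathlib: `LocallyFinite.continuous`).
(The recursion may be organised as: a partial solution on an up-closed family of sets; or
`WellFounded.fix` with `if compatible then choose extension else default`.)
-/

namespace Pool.Agent.H56.SQ

open unitInterval Set

/-- intersection over a finite set of indices -/
def inter {ι X : Type} (A : ι → Set X) (S : Finset ι) : Set X := {x | ∀ i ∈ S, x ∈ A i}

/-- the part of the intersection which lies in a further set -/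
def bd {ι X : Type} (A : ι → Set X) (S : Finset ι) : Set (inter A S) :=
  {x | ∃ j, j ∉ S ∧ (x : X) ∈ A j}

theorem inter_anti {ι X : Type} (A : ι → Set X) {S T : Finset ι} (h : S ⊆ T) :
    inter A T ⊆ inter A S := fun _ hx i hi => hx i (h hi)

/-- the map `x ↦ h (t x) x` on the part of `X` whose types lie in `U` -/
def glueMap {ι X X' : Type} [TopologicalSpace X] [TopologicalSpace X']
    (A : ι → Set X) (A' : ι → Set X') (U : Set (Finset ι))
    (h : ∀ S, S ∈ U → (inter A S ≃ₜ inter A' S)) (t : X → Finset ι)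
    (ht : ∀ x i, i ∈ t x ↔ x ∈ A i) (y : {x : X // t x ∈ U}) : X' :=
  (h (t y.1) y.2 ⟨y.1, fun i hi => (ht y.1 i).1 hi⟩ : inter A' (t y.1))

/-- hypotheses for gluing along an up-closed family `U` of faces -/
structure GlueData {ι X X' : Type} [TopologicalSpace X] [TopologicalSpace X']
    (A : ι → Set X) (A' : ι → Set X') (U : Set (Finset ι))
    (h : ∀ S, S ∈ U → (inter A S ≃ₜ inter A' S)) : Prop where
  cl : ∀ i, IsClosed (A i)
  lf : LocallyFinite A
  ne : ∀ S ∈ U, S.Nonempty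
  up : ∀ S ∈ U, ∀ T, S ⊆ T → (inter A T).Nonempty → T ∈ U
  up' : ∀ S ∈ U, ∀ T, S ⊆ T → (inter A' T).Nonempty → T ∈ U
  compat : ∀ S (hS : S ∈ U) T (hT : T ∈ U) (hST : S ⊆ T) x (hx : x ∈ inter A T),
    ((h S hS ⟨x, inter_anti A hST hx⟩ : inter A' S) : X') = (h T hT ⟨x, hx⟩ : inter A' T)

theorem glueMap_eq {ι X X' : Type} [TopologicalSpace X] [TopologicalSpace X']
    {A : ι → Set X} {A' : ι → Set X'} {U : Set (Finset ι)}
    {h : ∀ S, S ∈ U → (inter A S ≃ₜ inter A' S)} (D : GlueData A A' U h) (t : X → Finset ι)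
    (ht : ∀ x i, i ∈ t x ↔ x ∈ A i) (y : {x : X // t x ∈ U}) (T : Finset ι) (hT : T ∈ U)
    (hy : y.1 ∈ inter A T) :
    glueMap A A' U h t ht y = (h T hT ⟨y.1, hy⟩ : inter A' T) := by
  have hsub : T ⊆ t y.1 := fun i hi => (ht y.1 i).2 (hy i hi)
  exact (D.compat T hT (t y.1) y.2 hsub y.1 (fun i hi => (ht y.1 i).1 hi)).symm

theorem glueMap_type {ι X X' : Type} [TopologicalSpace X] [TopologicalSpace X']
    {A : ι → Set X} {A' : ι → Set X'} {U : Set (Finset ι)}
    {h : ∀ S, S ∈ U → (inter A S ≃ₜ inter A' S)} (D : GlueData A A' U h) (t : X → Finset ι)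
    (ht : ∀ x i, i ∈ t x ↔ x ∈ A i) (t' : X' → Finset ι) (ht' : ∀ x i, i ∈ t' x ↔ x ∈ A' i)
    (y : {x : X // t x ∈ U}) : t' (glueMap A A' U h t ht y) = t y.1 := by
  set k := glueMap A A' U h t ht y with hk
  have hkm : k ∈ inter A' (t y.1) :=
    (h (t y.1) y.2 ⟨y.1, fun i hi => (ht y.1 i).1 hi⟩ : inter A' (t y.1)).2
  have hsub : t y.1 ⊆ t' k := fun i hi => (ht' k i).2 (hkm i hi)
  have hkm' : k ∈ inter A' (t' k) := fun i hi => (ht' k i).1 hi
  have hU : t' k ∈ U := D.up' _ y.2 _ hsub ⟨k, hkm'⟩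
  refine Finset.Subset.antisymm ?_ hsub
  set z : inter A (t' k) := (h (t' k) hU).symm ⟨k, hkm'⟩ with hz
  have hc := D.compat (t y.1) y.2 (t' k) hU hsub z.1 z.2
  have hzz : h (t' k) hU ⟨z.1, z.2⟩ = ⟨k, hkm'⟩ := by
    have : (⟨z.1, z.2⟩ : inter A (t' k)) = z := rfl
    rw [this, hz, Homeomorph.apply_symm_apply]
  rw [hzz] at hc
  have hinj : (⟨z.1, inter_anti A hsub z.2⟩ : inter A (t y.1)) =
      ⟨y.1, fun i hi => (ht y.1 i).1 hi⟩ := by
    apply (h (t y.1) y.2).injective
    exact Subtype.ext hc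
  have hzy : z.1 = y.1 := congrArg Subtype.val hinj
  intro i hi
  rw [ht]
  rw [← hzy]
  exact z.2 i hi

theorem glueMap_cont {ι X X' : Type} [TopologicalSpace X] [TopologicalSpace X']
    {A : ι → Set X} {A' : ι → Set X'} {U : Set (Finset ι)}
    {h : ∀ S, S ∈ U → (inter A S ≃ₜ inter A' S)} (D : GlueData A A' U h) (t : X → Finset ι)
    (ht : ∀ x i, i ∈ t x ↔ x ∈ A i) : Continuous (glueMap A A' U h t ht) := by
  have hlf : LocallyFinite (fun T : U => (Subtype.val ⁻¹' (inter A T.1) :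
      Set {x : X // t x ∈ U})) := by
    intro y
    obtain ⟨O, hO, hOf⟩ := D.lf y.1
    refine ⟨Subtype.val ⁻¹' O, continuous_subtype_val.continuousAt.preimage_mem_nhds hO, ?_⟩
    have hfin : (Set.range (fun T : {T : Finset ι // T ⊆ hOf.toFinset} => T.1)).Finite := by
      refine ((hOf.toFinset.powerset).finite_toSet).subset ?_
      rintro _ ⟨T, rfl⟩
      simpa using T.2
    refine Set.Finite.of_finite_image (f := Subtype.val) (hfin.subset ?_)
      Subtype.val_injective.injOn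
    rintro _ ⟨T, hT, rfl⟩
    refine ⟨⟨T.1, ?_⟩, rfl⟩
    intro i hi
    obtain ⟨y', hy1, hy2⟩ := hT
    rw [Set.Finite.mem_toFinset]
    exact ⟨y'.1, hy1 i hi, hy2⟩
  have hcl : ∀ T : U, IsClosed (Subtype.val ⁻¹' (inter A T.1) : Set {x : X // t x ∈ U}) := by
    intro T
    apply IsClosed.preimage continuous_subtype_val
    have he : inter A T.1 = ⋂ i ∈ T.1, A i := by
      ext x
      simp [inter]
    rw [he]
    exact isClosed_biInter (fun i _ => D.cl i)
  refine hlf.continuous ?_ hcl ?_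
  · rw [Set.eq_univ_iff_forall]
    intro y
    rw [Set.mem_iUnion]
    exact ⟨⟨t y.1, y.2⟩, fun i hi => (ht y.1 i).1 hi⟩
  · intro T
    rw [continuousOn_iff_continuous_domRestrict]
    have he : (Set.domRestrict (Subtype.val ⁻¹' (inter A T.1) : Set {x : X // t x ∈ U})
        (glueMap A A' U h t ht)) = fun y => ((h T.1 T.2 ⟨y.1.1, y.2⟩ : inter A' T.1) : X') := by
      funext y
      exact glueMap_eq D t ht y.1 T.1 T.2 y.2
    rw [he]
    refine continuous_subtype_val.comp ((h T.1 T.2).continuous.comp ?_)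
    exact Continuous.subtype_mk (continuous_subtype_val.comp continuous_subtype_val) _

theorem GlueData.symm {ι X X' : Type} [TopologicalSpace X] [TopologicalSpace X']
    {A : ι → Set X} {A' : ι → Set X'} {U : Set (Finset ι)}
    {h : ∀ S, S ∈ U → (inter A S ≃ₜ inter A' S)} (D : GlueData A A' U h)
    (cl' : ∀ i, IsClosed (A' i)) (lf' : LocallyFinite A') :
    GlueData A' A U (fun S hS => (h S hS).symm) where
  cl := cl'
  lf := lf'
  ne := D.ne
  up := D.up'
  up' := D.up
  compat := by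
    intro S hS T hT hST x hx
    set z : inter A T := (h T hT).symm ⟨x, hx⟩ with hz
    have hc := D.compat S hS T hT hST z.1 z.2
    have hzz : h T hT ⟨z.1, z.2⟩ = ⟨x, hx⟩ := by
      have : (⟨z.1, z.2⟩ : inter A T) = z := rfl
      rw [this, hz, Homeomorph.apply_symm_apply]
    rw [hzz] at hc
    have h2 : h S hS ⟨z.1, inter_anti A hST z.2⟩ = ⟨x, inter_anti A' hST hx⟩ := Subtype.ext hc
    have h3 := congrArg (h S hS).symm h2
    rw [Homeomorph.symm_apply_apply] at h3
    rw [← h3]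

theorem glueMap_inv {ι X X' : Type} [TopologicalSpace X] [TopologicalSpace X']
    {A : ι → Set X} {A' : ι → Set X'} {U : Set (Finset ι)}
    {h : ∀ S, S ∈ U → (inter A S ≃ₜ inter A' S)} (D : GlueData A A' U h)
    (D' : GlueData A' A U (fun S hS => (h S hS).symm)) (t : X → Finset ι)
    (ht : ∀ x i, i ∈ t x ↔ x ∈ A i) (t' : X' → Finset ι) (ht' : ∀ x i, i ∈ t' x ↔ x ∈ A' i)
    (y : {x : X // t x ∈ U}) (hy : t' (glueMap A A' U h t ht y) ∈ U) :
    glueMap A' A U (fun S hS => (h S hS).symm) t' ht' ⟨glueMap A A' U h t ht y, hy⟩ = y.1 := by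
  have hkm : glueMap A A' U h t ht y ∈ inter A' (t y.1) :=
    (h (t y.1) y.2 ⟨y.1, fun i hi => (ht y.1 i).1 hi⟩ : inter A' (t y.1)).2
  rw [glueMap_eq D' t' ht' ⟨glueMap A A' U h t ht y, hy⟩ (t y.1) y.2 hkm]
  have : (⟨glueMap A A' U h t ht y, hkm⟩ : inter A' (t y.1)) =
      h (t y.1) y.2 ⟨y.1, fun i hi => (ht y.1 i).1 hi⟩ := rfl
  rw [this, Homeomorph.symm_apply_apply]

/-- the glued homeomorphism -/
theorem exists_glued {ι X X' : Type} [TopologicalSpace X] [TopologicalSpace X']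
    {A : ι → Set X} {A' : ι → Set X'} {U : Set (Finset ι)}
    {h : ∀ S, S ∈ U → (inter A S ≃ₜ inter A' S)} (D : GlueData A A' U h)
    (cl' : ∀ i, IsClosed (A' i)) (lf' : LocallyFinite A') (t : X → Finset ι)
    (ht : ∀ x i, i ∈ t x ↔ x ∈ A i) (t' : X' → Finset ι) (ht' : ∀ x i, i ∈ t' x ↔ x ∈ A' i) :
    ∃ K : {x : X // t x ∈ U} ≃ₜ {x : X' // t' x ∈ U},
      ∀ (y : {x : X // t x ∈ U}) (T : Finset ι) (hT : T ∈ U) (hy : y.1 ∈ inter A T),
        ((K y).1 : X') = (h T hT ⟨y.1, hy⟩ : inter A' T) := by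
  have D' := D.symm cl' lf'
  have hm : ∀ y, t' (glueMap A A' U h t ht y) ∈ U := fun y => by
    rw [glueMap_type D t ht t' ht' y]
    exact y.2
  have hm' : ∀ y, t (glueMap A' A U (fun S hS => (h S hS).symm) t' ht' y) ∈ U := fun y => by
    rw [glueMap_type D' t' ht' t ht y]
    exact y.2
  refine ⟨{ toFun := fun y => ⟨glueMap A A' U h t ht y, hm y⟩
            invFun := fun y => ⟨glueMap A' A U (fun S hS => (h S hS).symm) t' ht' y, hm' y⟩
            left_inv := fun y => Subtype.ext (glueMap_inv D D' t ht t' ht' y (hm y))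
            right_inv := fun y => Subtype.ext ?_
            continuous_toFun := (glueMap_cont D t ht).subtype_mk _
            continuous_invFun := (glueMap_cont D' t' ht').subtype_mk _ }, ?_⟩
  · exact glueMap_inv D' D t' ht' t ht y (hm' y)
  · intro y T hT hy
    exact glueMap_eq D t ht y T hT hy

theorem bd_closed {ι X : Type} [TopologicalSpace X] (A : ι → Set X)
    (hA : ∀ i, IsClosed (A i)) (hlf : LocallyFinite A) (S : Finset ι) : IsClosed (bd A S) := by
  have h1 : IsClosed (⋃ j : {j // j ∉ S}, A j.1) :=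
    (hlf.comp_injective Subtype.val_injective).isClosed_iUnion (fun j => hA j.1)
  have h2 : bd A S = Subtype.val ⁻¹' (⋃ j : {j // j ∉ S}, A j.1) := by
    ext x
    simp only [bd, Set.mem_ofPred_eq, Set.mem_preimage, Set.mem_iUnion]
    constructor
    · rintro ⟨j, hj, hx⟩
      exact ⟨⟨j, hj⟩, hx⟩
    · rintro ⟨⟨j, hj⟩, hx⟩
      exact ⟨j, hj, hx⟩
  rw [h2]
  exact h1.preimage continuous_subtype_val

/-- `bd A S` as a subspace of `X` -/
theorem exists_bd_homeo {ι X : Type} [TopologicalSpace X] (A : ι → Set X) (S : Finset ι)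
    (t : X → Finset ι) (ht : ∀ x i, i ∈ t x ↔ x ∈ A i) (U : Set (Finset ι))
    (hU : ∀ T, T ∈ U ↔ S ⊂ T ∧ (inter A T).Nonempty) :
    ∃ e : bd A S ≃ₜ {x : X // t x ∈ U}, ∀ z, ((e z).1 : X) = (z.1 : X) := by
  have h1 : ∀ z : bd A S, t (z.1 : X) ∈ U := by
    intro z
    rw [hU]
    refine ⟨⟨fun i hi => (ht _ i).2 (z.1.2 i hi), fun hcon => ?_⟩,
      ⟨z.1.1, fun i hi => (ht _ i).1 hi⟩⟩
    obtain ⟨j, hj, hz⟩ := z.2
    exact hj (hcon ((ht _ j).2 hz))
  have h2 : ∀ y : {x : X // t x ∈ U}, y.1 ∈ inter A S := by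
    intro y i hi
    exact (ht _ i).1 (((hU _).1 y.2).1.1 hi)
  have h3 : ∀ y : {x : X // t x ∈ U}, (⟨y.1, h2 y⟩ : inter A S) ∈ bd A S := by
    intro y
    obtain ⟨j, hj, hjS⟩ := Finset.exists_of_ssubset ((hU _).1 y.2).1
    exact ⟨j, hjS, (ht _ j).1 hj⟩
  refine ⟨{ toFun := fun z => ⟨z.1.1, h1 z⟩
            invFun := fun y => ⟨⟨y.1, h2 y⟩, h3 y⟩
            left_inv := fun z => rfl
            right_inv := fun y => rfl
            continuous_toFun := ?_
            continuous_invFun := ?_ }, fun z => rfl⟩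
  · exact Continuous.subtype_mk (continuous_subtype_val.comp continuous_subtype_val) _
  · exact Continuous.subtype_mk (Continuous.subtype_mk continuous_subtype_val _) _

/-- one step of the recursion -/
theorem glue_step {ι X X' : Type} [TopologicalSpace X] [TopologicalSpace X']
    (A : ι → Set X) (A' : ι → Set X')
    (hA : ∀ i, IsClosed (A i)) (hA' : ∀ i, IsClosed (A' i))
    (hlf : LocallyFinite A) (hlf' : LocallyFinite A')
    (hnerve : ∀ S : Finset ι, S.Nonempty → ((inter A S).Nonempty ↔ (inter A' S).Nonempty))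
    (t : X → Finset ι) (ht : ∀ x i, i ∈ t x ↔ x ∈ A i) (t' : X' → Finset ι)
    (ht' : ∀ x i, i ∈ t' x ↔ x ∈ A' i)
    (S : Finset ι) (hS : S.Nonempty) (hd : Defic (bd A S)) (hd' : Defic (bd A' S))
    (h : ∀ T, S ⊂ T ∧ (inter A T).Nonempty → (inter A T ≃ₜ inter A' T))
    (hc : ∀ T (hT : S ⊂ T ∧ (inter A T).Nonempty) T' (hT' : S ⊂ T' ∧ (inter A T').Nonempty)
      (hTT : T ⊆ T') x (hx : x ∈ inter A T'),
      ((h T hT ⟨x, inter_anti A hTT hx⟩ : inter A' T) : X') = (h T' hT' ⟨x, hx⟩ : inter A' T')) :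
    ∃ H : inter A S ≃ₜ inter A' S, ∀ T (hT : S ⊂ T ∧ (inter A T).Nonempty) x
      (hx : x ∈ inter A T),
      ((H ⟨x, inter_anti A hT.1.1 hx⟩ : inter A' S) : X') = (h T hT ⟨x, hx⟩ : inter A' T) := by
  set U : Set (Finset ι) := {T | S ⊂ T ∧ (inter A T).Nonempty} with hU
  have D : GlueData A A' U h :=
    { cl := hA
      lf := hlf
      ne := fun T hT => hS.mono hT.1.1
      up := fun T hT T' hTT hne => ⟨hT.1.trans_subset hTT, hne⟩
      up' := fun T hT T' hTT hne =>
        ⟨hT.1.trans_subset hTT, (hnerve T' ((hS.mono hT.1.1).mono hTT)).2 hne⟩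
      compat := hc }
  obtain ⟨K, hK⟩ := exists_glued D hA' hlf' t ht t' ht'
  obtain ⟨e, he⟩ := exists_bd_homeo A S t ht U (fun T => Iff.rfl)
  obtain ⟨e', he'⟩ := exists_bd_homeo A' S t' ht' U (fun T => by
    constructor
    · rintro ⟨h1, h2⟩
      exact ⟨h1, (hnerve T (hS.mono h1.1)).1 h2⟩
    · rintro ⟨h1, h2⟩
      exact ⟨h1, (hnerve T (hS.mono h1.1)).2 h2⟩)
  obtain ⟨H, hH⟩ := extend_homeo (bd_closed A hA hlf S) hd hd' ((e.trans K).trans e'.symm)
  refine ⟨H, fun T hT x hx => ?_⟩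
  have hxb : (⟨x, inter_anti A hT.1.1 hx⟩ : inter A S) ∈ bd A S := by
    obtain ⟨j, hj, hjS⟩ := Finset.exists_of_ssubset hT.1
    exact ⟨j, hjS, hx j hj⟩
  have h1 := hH ⟨⟨x, inter_anti A hT.1.1 hx⟩, hxb⟩
  change H ⟨x, inter_anti A hT.1.1 hx⟩ = _ at h1
  rw [h1]
  have h2 := he ⟨⟨x, inter_anti A hT.1.1 hx⟩, hxb⟩
  change ((e ⟨⟨x, inter_anti A hT.1.1 hx⟩, hxb⟩).1 : X) = x at h2
  have h3 : ((e ⟨⟨x, inter_anti A hT.1.1 hx⟩, hxb⟩).1 : X) ∈ inter A T := by
    rw [h2]
    exact hx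
  have h4 := hK (e ⟨⟨x, inter_anti A hT.1.1 hx⟩, hxb⟩) T hT h3
  have h5 := he' (e'.symm (K (e ⟨⟨x, inter_anti A hT.1.1 hx⟩, hxb⟩)))
  rw [Homeomorph.apply_symm_apply] at h5
  change ((e'.symm (K (e ⟨⟨x, inter_anti A hT.1.1 hx⟩, hxb⟩))).1 : X') = _
  rw [← h5, h4]
  congr 2
  exact Subtype.ext h2

/-- the faces -/
abbrev Face {ι X : Type} (A : ι → Set X) : Type :=
  {S : Finset ι // S.Nonempty ∧ (inter A S).Nonempty}

theorem face_wf {ι X : Type} (A : ι → Set X) (hfin : ∀ i, {j | (A i ∩ A j).Nonempty}.Finite) :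
    WellFounded (fun T S : Face A => S.1 ⊂ T.1) := by
  classical
  refine ⟨fun S0 => ?_⟩
  obtain ⟨i, hi⟩ := S0.2.1
  have key : ∀ n : ℕ, ∀ S : Face A, i ∈ S.1 → (hfin i).toFinset.card - S.1.card ≤ n →
      Acc (fun T S : Face A => S.1 ⊂ T.1) S := by
    intro n
    induction n with
    | zero =>
      intro S hiS hn
      refine ⟨S, fun T hT => ?_⟩
      exfalso
      have h1 : T.1 ⊆ (hfin i).toFinset := by
        intro j hj
        rw [Set.Finite.mem_toFinset]
        obtain ⟨x, hx⟩ := T.2.2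
        exact ⟨x, hx i (hT.1 hiS), hx j hj⟩
      have h2 := Finset.card_le_card h1
      have h3 := Finset.card_lt_card hT
      omega
    | succ n ih =>
      intro S hiS hn
      refine ⟨S, fun T hT => ?_⟩
      have h1 : T.1 ⊆ (hfin i).toFinset := by
        intro j hj
        rw [Set.Finite.mem_toFinset]
        obtain ⟨x, hx⟩ := T.2.2
        exact ⟨x, hx i (hT.1 hiS), hx j hj⟩
      have h2 := Finset.card_le_card h1
      have h3 := Finset.card_lt_card hT
      exact ih T (hT.1 hiS) (by omega)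
  exact key _ S0 hi le_rfl

theorem glue {ι X X' : Type} [TopologicalSpace X] [TopologicalSpace X'] [DecidableEq ι]
    (A : ι → Set X) (A' : ι → Set X')
    (hA : ∀ i, IsClosed (A i)) (hA' : ∀ i, IsClosed (A' i))
    (hlf : LocallyFinite A) (hlf' : LocallyFinite A')
    (hcov : ∀ x, ∃ i, x ∈ A i) (hcov' : ∀ x, ∃ i, x ∈ A' i)
    (hfin : ∀ i, {j | (A i ∩ A j).Nonempty}.Finite)
    (hnerve : ∀ S : Finset ι, S.Nonempty → ((inter A S).Nonempty ↔ (inter A' S).Nonempty))
    (hd : ∀ S : Finset ι, S.Nonempty → (inter A S).Nonempty → Defic (bd A S))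
    (hd' : ∀ S : Finset ι, S.Nonempty → (inter A' S).Nonempty → Defic (bd A' S)) :
    Nonempty (X ≃ₜ X') := by
  classical
  -- the types
  set t : X → Finset ι := fun x => (hlf.point_finite x).toFinset with htdef
  have ht : ∀ x i, i ∈ t x ↔ x ∈ A i := fun x i => by
    rw [htdef]
    simp
  set t' : X' → Finset ι := fun x => (hlf'.point_finite x).toFinset with htdef'
  have ht' : ∀ x i, i ∈ t' x ↔ x ∈ A' i := fun x i => by
    rw [htdef']
    simp
  have hdef : ∀ S : Face A, Nonempty (inter A S.1 ≃ₜ inter A' S.1) := by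
    intro S
    obtain ⟨α, -⟩ := hd S.1 S.2.1 S.2.2
    obtain ⟨α', -⟩ := hd' S.1 S.2.1 ((hnerve S.1 S.2.1).1 S.2.2)
    exact ⟨α.trans α'.symm⟩
  let P : ∀ S : Face A, (∀ T : Face A, S.1 ⊂ T.1 → (inter A T.1 ≃ₜ inter A' T.1)) →
      (inter A S.1 ≃ₜ inter A' S.1) → Prop := fun S F H =>
    ∀ (T : Face A) (hT : S.1 ⊂ T.1) (x : X) (hx : x ∈ inter A T.1),
      ((H ⟨x, inter_anti A hT.1 hx⟩ : inter A' S.1) : X') = (F T hT ⟨x, hx⟩ : inter A' T.1)
  let step : ∀ S : Face A, (∀ T : Face A, S.1 ⊂ T.1 → (inter A T.1 ≃ₜ inter A' T.1)) →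
      (inter A S.1 ≃ₜ inter A' S.1) := fun S F =>
    if hex : ∃ H, P S F H then Classical.choose hex else Classical.choice (hdef S)
  have wf := face_wf A hfin
  let h : ∀ S : Face A, inter A S.1 ≃ₜ inter A' S.1 := fun S => wf.fix step S
  have hfix : ∀ S : Face A, h S = step S (fun T _ => h T) := fun S => wf.fix_eq step S
  have hmain : ∀ S : Face A, P S (fun T _ => h T) (h S) := by
    intro S
    induction S using wf.induction with
    | _ S ih =>
      have hex : ∃ H, P S (fun T _ => h T) H := by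
        have hmk : ∀ T, S.1 ⊂ T ∧ (inter A T).Nonempty → T.Nonempty ∧ (inter A T).Nonempty :=
          fun T hT => ⟨S.2.1.mono hT.1.1, hT.2⟩
        obtain ⟨H, hH⟩ := glue_step A A' hA hA' hlf hlf' hnerve t ht t' ht' S.1 S.2.1
          (hd S.1 S.2.1 S.2.2) (hd' S.1 S.2.1 ((hnerve S.1 S.2.1).1 S.2.2))
          (fun T hT => h ⟨T, hmk T hT⟩) (by
            intro T hT T' hT' hTT x hx
            rcases eq_or_ssubset_of_subset hTT with he | hlt
            · subst he
              rfl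
            · exact ih ⟨T, hmk T hT⟩ hT.1 ⟨T', hmk T' hT'⟩ hlt x hx)
        exact ⟨H, fun T hT x hx => hH T.1 ⟨hT, T.2.2⟩ x hx⟩
      have h1 : h S = Classical.choose hex := by
        rw [hfix S]
        exact dif_pos hex
      rw [h1]
      exact Classical.choose_spec hex
  -- the final gluing
  set U : Set (Finset ι) := {T | T.Nonempty ∧ (inter A T).Nonempty} with hU
  have D : GlueData A A' U (fun S hS => h ⟨S, hS⟩) :=
    { cl := hA
      lf := hlf
      ne := fun T hT => hT.1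
      up := fun T hT T' hTT hne => ⟨hT.1.mono hTT, hne⟩
      up' := fun T hT T' hTT hne => ⟨hT.1.mono hTT, (hnerve T' (hT.1.mono hTT)).2 hne⟩
      compat := by
        intro S hS T hT hST x hx
        rcases eq_or_ssubset_of_subset hST with he | hlt
        · subst he
          rfl
        · exact hmain ⟨S, hS⟩ ⟨T, hT⟩ hlt x hx }
  obtain ⟨K, -⟩ := exists_glued D hA' hlf' t ht t' ht'
  have hall : ∀ x, t x ∈ U := fun x => by
    obtain ⟨i, hi⟩ := hcov x
    exact ⟨⟨i, (ht x i).2 hi⟩, ⟨x, fun i hi => (ht x i).1 hi⟩⟩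
  have hall' : ∀ x, t' x ∈ U := fun x => by
    obtain ⟨i, hi⟩ := hcov' x
    have hne : (t' x).Nonempty := ⟨i, (ht' x i).2 hi⟩
    exact ⟨hne, (hnerve _ hne).2 ⟨x, fun i hi => (ht' x i).1 hi⟩⟩
  refine ⟨{ toFun := fun x => (K ⟨x, hall x⟩).1
            invFun := fun x => (K.symm ⟨x, hall' x⟩).1
            left_inv := fun x => ?_
            right_inv := fun x => ?_
            continuous_toFun := ?_
            continuous_invFun := ?_ }⟩
  · change (K.symm ⟨(K ⟨x, hall x⟩).1, _⟩).1 = x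
    have : (⟨(K ⟨x, hall x⟩).1, hall' _⟩ : {x : X' // t' x ∈ U}) = K ⟨x, hall x⟩ := rfl
    rw [this, Homeomorph.symm_apply_apply]
  · change (K ⟨(K.symm ⟨x, hall' x⟩).1, _⟩).1 = x
    have : (⟨(K.symm ⟨x, hall' x⟩).1, hall _⟩ : {x : X // t x ∈ U}) = K.symm ⟨x, hall' x⟩ := rfl
    rw [this, Homeomorph.apply_symm_apply]
  · exact continuous_subtype_val.comp (K.continuous.comp (continuous_id.subtype_mk _))
  · exact continuous_subtype_val.comp (K.symm.continuous.comp (continuous_id.subtype_mk _))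

end Pool.Agent.H56.SQ
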