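import Mathlib
import Pool.Agent.H56.SQ.Basic
import Pool.Agent.H56.SQ.Box
import Pool.Agent.H56.SQ.Glue

set_option autoImplicit false

/-!
# SQ-13: the boxes

`ι` countable (an injection `e : ι → ℕ`), `adj` a symmetric irreflexive locally finite relation on `ι`.
Coordinates `KK ι = ι ⊕ (ι × ι) ⊕ ℕ` (countable, infinite).  The box `BB i` is `boxx (lo i) (hi i)`:
* coordinate `inl i`: `[1/2, 1]`;
* coordinate `inl j`, `e j < e i`, `j` not adjacent to `i`, `j ≠ i`: `[0, 1/4]`;
* coordinate `inr (inl (i,j))`, `adj i j`, `e i < e j`: `[0,1/2]`;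
* coordinate `inr (inl (j,i))`, `adj i j`, `e j < e i`: `[1/2,1]`;
* all others `[0,1]`.
Finitely many coordinates are restricted (`{j | e j < e i}` is finite; `adj i` is finite).

Facts.  (a) `BB i ∩ BB j = ∅` for `i ≠ j` not adjacent (`e i < e j` say: the coordinate `inl i` is in `[1/2,1]`
and in `[0,1/4]`).  (b) For a nonempty finite clique `S` the intersection is nonempty: it is the box with
`lo = sup`, `hi = inf`, and `lo ≤ hi`: at `inl k`: only the box `BB k` has lower end `1/2` there, and for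
`i ∈ S`, `i ≠ k`, `k ∈ S`, `i` and `k` are adjacent, so no box of `S` has upper end `1/4` there; at
`inr (inl (i,j))` with `i,j ∈ S` the two conditions `[0,1/2]`, `[1/2,1]` give `{1/2}`.
(c) `inter BB S` for a nonempty clique `S` is `boxx a b` with `a = max`, `b = min`; `bd BB S` is contained in
the set of `box_defic`: if `x ∈ BB j`, `j ∉ S`, then `S ∪ {j}` is a clique (by (a), because
`x ∈ BB i ∩ BB j`), take `i ∈ S` and the coordinate `k = inr (inl (i,j))` or `inr (inl (j,i))` (according to
`e i < e j` or `e j < e i`): only `BB i` among the members of `S` restricts `k`, so `(a k, b k)` is `(0,1/2)`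
or `(1/2,1)`, and `x k = 1/2`, an end point.  Use `box_defic` for `boxx a b` and transport
(`Defic.mono`, `Defic.image` along the equality of sets).
(d) locally finite ON THE UNION: at `x ∈ BB i` the open set `{x' | 1/4 < x' (inl i)}` meets `BB j` only if
`j = i`, `e j < e i` or `adj i j`.
-/

namespace Pool.Agent.H56.SQ

open unitInterval Set

/-- the coordinates -/
abbrev KK (ι : Type) : Type := ι ⊕ (ι × ι) ⊕ ℕ

namespace CoverAux

/-- `1/2` -/
noncomputable def hf : I := ⟨1/2, by norm_num, by norm_num⟩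

/-- `1/4` -/
noncomputable def qt : I := ⟨1/4, by norm_num, by norm_num⟩

theorem zero_lt_hf : (0 : I) < hf := by
  show ((0 : I) : ℝ) < (hf : ℝ); simp [hf]

theorem zero_lt_qt : (0 : I) < qt := by
  show ((0 : I) : ℝ) < (qt : ℝ); simp [qt]

theorem hf_lt_one : hf < (1 : I) := by
  show (hf : ℝ) < ((1 : I) : ℝ); simp only [hf, Set.Icc.coe_one]; norm_num

theorem qt_lt_hf : qt < hf := by
  show (qt : ℝ) < (hf : ℝ); simp only [hf, qt]; norm_num

section

variable {ι : Type} (adj : ι → ι → Prop) (e : ι → ℕ)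

open Classical in
/-- lower ends -/
noncomputable def lo (i : ι) : KK ι → I
  | Sum.inl j => if j = i then hf else 0
  | Sum.inr (Sum.inl (a, b)) => if b = i ∧ adj a b ∧ e a < e b then hf else 0
  | Sum.inr (Sum.inr _) => 0

open Classical in
/-- upper ends -/
noncomputable def hi (i : ι) : KK ι → I
  | Sum.inl j => if e j < e i ∧ ¬ adj j i then qt else 1
  | Sum.inr (Sum.inl (a, b)) => if a = i ∧ adj a b ∧ e a < e b then hf else 1
  | Sum.inr (Sum.inr _) => 1

theorem lo_lt_hi (i : ι) (k : KK ι) : lo adj e i k < hi adj e i k := by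
  rcases k with j | ⟨a, b⟩ | n
  · by_cases hj : j = i
    · subst hj
      have h1 : lo adj e j (Sum.inl j) = hf := by simp [lo]
      have h2 : hi adj e j (Sum.inl j) = 1 := by simp [hi]
      rw [h1, h2]; exact hf_lt_one
    · have h1 : lo adj e i (Sum.inl j) = 0 := by simp [lo, hj]
      rw [h1]
      simp only [hi]
      split_ifs
      · exact zero_lt_qt
      · exact zero_lt_hf.trans hf_lt_one
  · simp only [lo, hi]
    split_ifs with h1 h2 h2
    · exfalso
      have := h1.1.trans h2.1.symm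
      have h3 := h1.2.2
      rw [this] at h3
      exact lt_irrefl _ h3
    · exact hf_lt_one
    · exact zero_lt_hf
    · exact zero_lt_hf.trans hf_lt_one
  · exact zero_lt_hf.trans hf_lt_one

theorem restr_finite (he : Function.Injective e) (hsymm : ∀ i j, adj i j → adj j i)
    (hfin : ∀ i, {j | adj i j}.Finite) (i : ι) :
    {k | lo adj e i k ≠ 0 ∨ hi adj e i k ≠ 1}.Finite := by
  have h1 : ({j | e j < e i} : Set ι).Finite := (Set.finite_Iio (e i)).preimage he.injOn
  have h2 := (((Set.finite_singleton i).union h1).image (Sum.inl : ι → KK ι)).union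
    (((hfin i).image (fun j => (Sum.inr (Sum.inl (i, j)) : KK ι))).union
      ((hfin i).image (fun j => (Sum.inr (Sum.inl (j, i)) : KK ι))))
  refine h2.subset ?_
  rintro (j | ⟨a, b⟩ | n) hk
  · left
    refine ⟨j, ?_, rfl⟩
    simp only [Set.mem_ofPred_eq, lo, hi] at hk
    rcases hk with hk | hk
    · left
      by_contra hne
      exact hk (if_neg hne)
    · right
      by_contra hne
      exact hk (if_neg (fun h => hne h.1))
  · right
    simp only [Set.mem_ofPred_eq, lo, hi] at hk
    rcases hk with hk | hk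
    · right
      have : b = i ∧ adj a b ∧ e a < e b := by
        by_contra hne
        exact hk (if_neg hne)
      obtain ⟨rfl, h, -⟩ := this
      exact ⟨a, hsymm _ _ h, rfl⟩
    · left
      have : a = i ∧ adj a b ∧ e a < e b := by
        by_contra hne
        exact hk (if_neg hne)
      obtain ⟨rfl, h, -⟩ := this
      exact ⟨b, h, rfl⟩
  · exfalso
    simp [lo, hi] at hk

theorem disj (he : Function.Injective e) (hsymm : ∀ i j, adj i j → adj j i) (i j : ι)
    (hij : i ≠ j) (hadj : ¬ adj i j) :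
    boxx (lo adj e i) (hi adj e i) ∩ boxx (lo adj e j) (hi adj e j) = ∅ := by
  rw [Set.eq_empty_iff_forall_notMem]
  rintro x ⟨hx1, hx2⟩
  have key : ∀ i j : ι, e i < e j → ¬ adj i j → x ∈ boxx (lo adj e i) (hi adj e i) →
      x ∈ boxx (lo adj e j) (hi adj e j) → False := by
    intro i j h1 h2 h3 h4
    have h5 := (h3 (Sum.inl i)).1
    have h6 := (h4 (Sum.inl i)).2
    have h7 : lo adj e i (Sum.inl i) = hf := by simp [lo]
    have h8 : hi adj e j (Sum.inl i) = qt := by simp [hi, h1, h2]
    rw [h7] at h5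
    rw [h8] at h6
    exact absurd (h5.trans h6) (not_le.2 qt_lt_hf)
  rcases lt_trichotomy (e i) (e j) with h | h | h
  · exact key i j h hadj hx1 hx2
  · exact hij (he h)
  · exact key j i h (fun h' => hadj (hsymm _ _ h')) hx2 hx1

theorem lo_le_hi (S : Finset ι) (hS : ∀ i ∈ S, ∀ j ∈ S, i ≠ j → adj i j) (i : ι) (hi' : i ∈ S)
    (j : ι) (hj : j ∈ S) (k : KK ι) : lo adj e i k ≤ hi adj e j k := by
  rcases k with m | ⟨a, b⟩ | n
  · by_cases hm : m = i
    · subst hm
      have h2 : hi adj e j (Sum.inl m) = 1 := by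
        simp only [hi]
        rw [if_neg]
        rintro ⟨h1, h2⟩
        by_cases hmj : m = j
        · subst hmj; exact lt_irrefl _ h1
        · exact h2 (hS m hi' j hj hmj)
      rw [h2]; exact unitInterval.le_one'
    · have h1 : lo adj e i (Sum.inl m) = 0 := by simp [lo, hm]
      rw [h1]; exact unitInterval.nonneg'
  · have h1 : lo adj e i (Sum.inr (Sum.inl (a, b))) ≤ hf := by
      simp only [lo]
      split_ifs
      · exact le_refl _
      · exact zero_lt_hf.le
    have h2 : hf ≤ hi adj e j (Sum.inr (Sum.inl (a, b))) := by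
      simp only [hi]
      split_ifs
      · exact le_refl _
      · exact hf_lt_one.le
    exact h1.trans h2
  · exact unitInterval.nonneg'

theorem locfin (he : Function.Injective e)
    (hfin : ∀ i, {j | adj i j}.Finite) (x : KK ι → I)
    (hx : x ∈ ⋃ i, boxx (lo adj e i) (hi adj e i)) : ∃ O : Set (KK ι → I), IsOpen O ∧ x ∈ O ∧
        {j | (O ∩ boxx (lo adj e j) (hi adj e j)).Nonempty}.Finite := by
  obtain ⟨i, hi'⟩ := Set.mem_iUnion.1 hx
  refine ⟨{x' | qt < x' (Sum.inl i)}, isOpen_lt continuous_const (continuous_apply _), ?_, ?_⟩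
  · have h5 := (hi' (Sum.inl i)).1
    have h7 : lo adj e i (Sum.inl i) = hf := by simp [lo]
    rw [h7] at h5
    exact lt_of_lt_of_le qt_lt_hf h5
  · have h1 : ({j | e j ≤ e i} : Set ι).Finite := (Set.finite_Iic (e i)).preimage he.injOn
    refine (h1.union (hfin i)).subset ?_
    rintro j ⟨x', hx1, hx2⟩
    by_contra hne
    simp only [Set.mem_union, Set.mem_ofPred_eq, not_or, not_le] at hne
    have h6 := (hx2 (Sum.inl i)).2
    have h8 : hi adj e j (Sum.inl i) = qt := by simp [hi, hne.1, hne.2]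
    rw [h8] at h6
    exact absurd h6 (not_le.2 hx1)

variable (S : Finset ι) (hS : S.Nonempty)

/-- lower end of the intersection -/
noncomputable def lw (k : KK ι) : I := S.sup' hS (fun i => lo adj e i k)

/-- upper end of the intersection -/
noncomputable def up (k : KK ι) : I := S.inf' hS (fun i => hi adj e i k)

theorem inter_eq : inter (fun i => boxx (lo adj e i) (hi adj e i)) S =
    boxx (lw adj e S hS) (up adj e S hS) := by
  ext x
  constructor
  · intro hx k
    exact ⟨(Finset.sup'_le_iff _ _).2 (fun i hi => (hx i hi k).1),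
      (Finset.le_inf'_iff _ _).2 (fun i hi => (hx i hi k).2)⟩
  · intro hx i hi' k
    exact ⟨(Finset.sup'_le_iff _ _).1 (hx k).1 i hi', (Finset.le_inf'_iff _ _).1 (hx k).2 i hi'⟩

theorem lw_le_up (hcl : ∀ i ∈ S, ∀ j ∈ S, i ≠ j → adj i j) (k : KK ι) :
    lw adj e S hS k ≤ up adj e S hS k :=
  (Finset.sup'_le_iff _ _).2 (fun i hi => (Finset.le_inf'_iff _ _).2
    (fun j hj => lo_le_hi adj e S hcl i hi j hj k))

theorem lwup_finite (he : Function.Injective e) (hsymm : ∀ i j, adj i j → adj j i)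
    (hfin : ∀ i, {j | adj i j}.Finite) :
    {k | lw adj e S hS k ≠ 0 ∨ up adj e S hS k ≠ 1}.Finite := by
  have h1 : (⋃ i ∈ S, {k | lo adj e i k ≠ 0 ∨ hi adj e i k ≠ 1}).Finite :=
    Set.Finite.biUnion S.finite_toSet (fun i _ => restr_finite adj e he hsymm hfin i)
  refine h1.subset ?_
  intro k hk
  by_contra hne
  simp only [Set.mem_iUnion, Set.mem_ofPred_eq, not_exists, not_or, not_not] at hne
  rcases hk with hk | hk
  · apply hk
    refine le_antisymm ((Finset.sup'_le_iff _ _).2 (fun i hi => ?_)) unitInterval.nonneg'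
    rw [(hne i hi).1]
  · apply hk
    refine le_antisymm unitInterval.le_one' ((Finset.le_inf'_iff _ _).2 (fun i hi => ?_))
    rw [(hne i hi).2]

include hS in
theorem bd_defic [Countable ι] (he : Function.Injective e) (hsymm : ∀ i j, adj i j → adj j i)
    (hfin : ∀ i, {j | adj i j}.Finite) (hcl : ∀ i ∈ S, ∀ j ∈ S, i ≠ j → adj i j) :
    Defic (bd (fun i => boxx (lo adj e i) (hi adj e i)) S) := by
  have heq := inter_eq adj e S hS
  have h1 := box_defic (lw adj e S hS) (up adj e S hS) (lw_le_up adj e S hS hcl)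
    (lwup_finite adj e S hS he hsymm hfin)
  refine (h1.image (Homeomorph.setCongr heq.symm)).mono ?_
  rintro ⟨x, hx⟩ ⟨j, hjS, hxj⟩
  refine ⟨⟨x, heq ▸ hx⟩, ?_, rfl⟩
  change x ∈ boxx (lo adj e j) (hi adj e j) at hxj
  obtain ⟨i, hiS⟩ := hS
  have hxi : x ∈ boxx (lo adj e i) (hi adj e i) := hx i hiS
  have hij : i ≠ j := by rintro rfl; exact hjS hiS
  have hadj : adj i j := by
    by_contra hne
    have := disj adj e he hsymm i j hij hne
    exact Set.eq_empty_iff_forall_notMem.1 this x ⟨hxi, hxj⟩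
  have hne : e i ≠ e j := fun h => hij (he h)
  show ∃ k, lw adj e S ⟨i, hiS⟩ k < up adj e S ⟨i, hiS⟩ k ∧
    (lw adj e S ⟨i, hiS⟩ k ≠ 0 ∨ up adj e S ⟨i, hiS⟩ k ≠ 1) ∧
      (x k = lw adj e S ⟨i, hiS⟩ k ∨ x k = up adj e S ⟨i, hiS⟩ k)
  rcases lt_or_gt_of_ne hne with hlt | hlt
  · have hlw : lw adj e S ⟨i, hiS⟩ (Sum.inr (Sum.inl (i, j))) = 0 := by
      refine le_antisymm ((Finset.sup'_le_iff _ _).2 (fun i' hi' => ?_)) unitInterval.nonneg'
      simp only [lo]
      rw [if_neg]
      rintro ⟨rfl, -⟩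
      exact hjS hi'
    have hup : up adj e S ⟨i, hiS⟩ (Sum.inr (Sum.inl (i, j))) = hf := by
      apply le_antisymm
      · refine (Finset.inf'_le _ hiS).trans ?_
        simp only [hi]
        rw [if_pos ⟨rfl, hadj, hlt⟩]
      · refine (Finset.le_inf'_iff _ _).2 (fun i' hi' => ?_)
        simp only [hi]
        split_ifs
        · exact le_refl _
        · exact hf_lt_one.le
    have h3 : x (Sum.inr (Sum.inl (i, j))) = hf := by
      apply le_antisymm
      · have := (hxi (Sum.inr (Sum.inl (i, j)))).2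
        simp only [hi] at this
        rwa [if_pos ⟨rfl, hadj, hlt⟩] at this
      · have := (hxj (Sum.inr (Sum.inl (i, j)))).1
        simp only [lo] at this
        rwa [if_pos ⟨rfl, hadj, hlt⟩] at this
    refine ⟨Sum.inr (Sum.inl (i, j)), ?_, ?_, ?_⟩
    · rw [hlw, hup]; exact zero_lt_hf
    · right; rw [hup]; exact hf_lt_one.ne
    · right; rw [h3, hup]
  · have hadj' := hsymm _ _ hadj
    have hlw : lw adj e S ⟨i, hiS⟩ (Sum.inr (Sum.inl (j, i))) = hf := by
      apply le_antisymm
      · refine (Finset.sup'_le_iff _ _).2 (fun i' hi' => ?_)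
        simp only [lo]
        split_ifs
        · exact le_refl _
        · exact zero_lt_hf.le
      · refine le_trans ?_ (Finset.le_sup' _ hiS)
        simp only [lo]
        rw [if_pos ⟨rfl, hadj', hlt⟩]
    have hup : up adj e S ⟨i, hiS⟩ (Sum.inr (Sum.inl (j, i))) = 1 := by
      refine le_antisymm unitInterval.le_one' ((Finset.le_inf'_iff _ _).2 (fun i' hi' => ?_))
      simp only [hi]
      rw [if_neg]
      rintro ⟨rfl, -⟩
      exact hjS hi'
    have h3 : x (Sum.inr (Sum.inl (j, i))) = hf := by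
      apply le_antisymm
      · have := (hxj (Sum.inr (Sum.inl (j, i)))).2
        simp only [hi] at this
        rwa [if_pos ⟨rfl, hadj', hlt⟩] at this
      · have := (hxi (Sum.inr (Sum.inl (j, i)))).1
        simp only [lo] at this
        rwa [if_pos ⟨rfl, hadj', hlt⟩] at this
    refine ⟨Sum.inr (Sum.inl (j, i)), ?_, ?_, ?_⟩
    · rw [hlw, hup]; exact hf_lt_one
    · left; rw [hlw]; exact zero_lt_hf.ne'
    · left; rw [h3, hlw]

end

end CoverAux

/-- family of boxes with prescribed (flag) nerve -/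
theorem exists_boxes {ι : Type} [Countable ι] (adj : ι → ι → Prop)
    (hsymm : ∀ i j, adj i j → adj j i) (hirr : ∀ i, ¬ adj i i) (hfin : ∀ i, {j | adj i j}.Finite) :
    ∃ lo hi : ι → KK ι → I,
      (∀ i k, lo i k < hi i k) ∧
      (∀ i, {k | lo i k ≠ 0 ∨ hi i k ≠ 1}.Finite) ∧
      (∀ i j, i ≠ j → ¬ adj i j → boxx (lo i) (hi i) ∩ boxx (lo j) (hi j) = ∅) ∧
      (∀ S : Finset ι, S.Nonempty → (∀ i ∈ S, ∀ j ∈ S, i ≠ j → adj i j) →
        (inter (fun i => boxx (lo i) (hi i)) S).Nonempty) ∧
      (∀ S : Finset ι, S.Nonempty → (∀ i ∈ S, ∀ j ∈ S, i ≠ j → adj i j) →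
        Defic (bd (fun i => boxx (lo i) (hi i)) S)) ∧
      (∀ x ∈ ⋃ i, boxx (lo i) (hi i), ∃ O : Set (KK ι → I), IsOpen O ∧ x ∈ O ∧
        {j | (O ∩ boxx (lo j) (hi j)).Nonempty}.Finite) := by
  obtain ⟨e, he⟩ := exists_injective_nat ι
  refine ⟨CoverAux.lo adj e, CoverAux.hi adj e, CoverAux.lo_lt_hi adj e,
    CoverAux.restr_finite adj e he hsymm hfin, CoverAux.disj adj e he hsymm, ?_, ?_,
    CoverAux.locfin adj e he hfin⟩
  · intro S hS hcl
    rw [CoverAux.inter_eq adj e S hS]
    exact ⟨CoverAux.lw adj e S hS, fun k => ⟨le_refl _, CoverAux.lw_le_up adj e S hS hcl k⟩⟩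
  · intro S hS hcl
    exact CoverAux.bd_defic adj e S hS he hsymm hfin hcl

end Pool.Agent.H56.SQ
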