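import Mathlib

set_option autoImplicit false

/-!
# SQ: locally finite simplicial complexes and their geometric realisation

These definitions appear in the final statement.
-/

namespace Pool.Agent.H56.SQ

/-- A locally finite (abstract) simplicial complex with vertices in `V`: a set of nonempty finite sets of
vertices (the simplices), closed under nonempty subsets, every vertex lying in finitely many simplices. -/
structure Cx (V : Type) where
  faces : Set (Finset V)
  nonempty_of_mem : ∀ s ∈ faces, s.Nonempty
  down_closed : ∀ s ∈ faces, ∀ t : Finset V, t ⊆ s → t.Nonempty → t ∈ faces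
  locally_finite : ∀ v : V, {s ∈ faces | v ∈ s}.Finite

/-- The geometric realisation `|K|`: all systems of barycentric coordinates `y : V → ℝ`, `y ≥ 0`, supported
on a simplex, with sum `1`; topology of pointwise convergence (for locally finite complexes this is the
usual topology). -/
def Cx.Real {V : Type} (K : Cx V) : Type :=
  {y : V → ℝ // (∀ v, 0 ≤ y v) ∧ ∃ s ∈ K.faces, (∀ v, v ∉ s → y v = 0) ∧ ∑ v ∈ s, y v = 1}

instance {V : Type} (K : Cx V) : TopologicalSpace K.Real :=
  inferInstanceAs (TopologicalSpace {y : V → ℝ //
    (∀ v, 0 ≤ y v) ∧ ∃ s ∈ K.faces, (∀ v, v ∉ s → y v = 0) ∧ ∑ v ∈ s, y v = 1})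

end Pool.Agent.H56.SQ
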