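import Mathlib
import Pool.Agent.H56.SQ.Basic
import Pool.Agent.H56.SQ.Cx
import Pool.Agent.H56.SQ.Glue

set_option autoImplicit false

/-!
# SQ-12a: the canonical cover of |N| x Q: closed, locally finite, covering, nerve

`DD N i = {(y,q) ∈ |N| × Q | y j ≤ y i for all j}`.  Facts: closed, locally finite, covering, the
intersection over a nonempty finite `S` is nonempty iff `S ∈ N`, and the boundary is deficient.

Closed: clear.  Covering: a point of `|N|` has finite support, some coordinate is maximal.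
If `(y,q) ∈ DD N i` then `y i > 0` (the maximum is positive), so `(y,q) ∈ inter (DD N) S` implies
`S ⊆ supp y`, `S ∈ N`; conversely the barycentre of `S` is in the intersection.
Locally finite: at `y` choose `v` with `y v > 0`; the open set `{y' v > 0}` meets `DD N j` only if some
`y'` has `y' v > 0`, `y' j > 0`, so `{v,j}` is contained in a simplex containing `v`: finitely many `j`.
-/

namespace Pool.Agent.H56.SQ

open unitInterval Set

/-- dual blocks -/
def DD {ι : Type} (N : Cx ι) (i : ι) : Set (N.Real × Q) := {p | ∀ j, p.1.1 j ≤ p.1.1 i}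

theorem cont_coord {ι : Type} (N : Cx ι) (v : ι) : Continuous (fun y : N.Real => y.1 v) := by
  exact (continuous_apply v).comp continuous_subtype_val

theorem DD_closed {ι : Type} (N : Cx ι) (i : ι) : IsClosed (DD N i) := by
  have : DD N i = ⋂ j, {p : N.Real × Q | p.1.1 j ≤ p.1.1 i} := by
    ext p; simp [DD]
  rw [this]
  refine isClosed_iInter fun j => ?_
  exact isClosed_le ((cont_coord N j).comp continuous_fst) ((cont_coord N i).comp continuous_fst)

theorem exists_pos {ι : Type} (N : Cx ι) (y : N.Real) : ∃ v, 0 < y.1 v := by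
  obtain ⟨y, h0, s, hs, hz, h1⟩ := y
  by_contra h
  push Not at h
  have : ∑ v ∈ s, y v = 0 := Finset.sum_eq_zero fun v _ => le_antisymm (h v) (h0 v)
  rw [this] at h1
  exact zero_ne_one h1

theorem supp_face {ι : Type} (N : Cx ι) (y : N.Real) (S : Finset ι) (hS : S.Nonempty)
    (h : ∀ i ∈ S, 0 < y.1 i) : S ∈ N.faces := by
  obtain ⟨y, h0, s, hs, hz, h1⟩ := y
  refine N.down_closed s hs S (fun i hi => ?_) hS
  by_contra hc
  have := h i hi
  simp only at this
  rw [hz i hc] at this
  exact lt_irrefl _ this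

theorem DD_cover {ι : Type} (N : Cx ι) (p : N.Real × Q) : ∃ i, p ∈ DD N i := by
  obtain ⟨v, hv⟩ := exists_pos N p.1
  obtain ⟨y, q⟩ := p
  obtain ⟨y, h0, s, hs, hz, h1⟩ := y
  obtain ⟨i, hi, hmax⟩ := s.exists_max_image y (N.nonempty_of_mem s hs)
  refine ⟨i, fun j => ?_⟩
  by_cases hj : j ∈ s
  · exact hmax j hj
  · show y j ≤ y i
    rw [hz j hj]
    exact h0 i

theorem pos_of_mem {ι : Type} (N : Cx ι) (i : ι) (p : N.Real × Q) (h : p ∈ DD N i) :
    0 < p.1.1 i := by
  obtain ⟨v, hv⟩ := exists_pos N p.1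
  exact lt_of_lt_of_le hv (h v)

theorem DD_locallyFinite {ι : Type} (N : Cx ι) : LocallyFinite (DD N) := by
  classical
  intro p
  obtain ⟨v, hv⟩ := exists_pos N p.1
  refine ⟨{p' : N.Real × Q | 0 < p'.1.1 v}, ?_, ?_⟩
  · exact (isOpen_lt continuous_const ((cont_coord N v).comp continuous_fst)).mem_nhds hv
  · have hf : (⋃ s ∈ {s ∈ N.faces | v ∈ s}, (s : Set ι)).Finite :=
      Set.Finite.biUnion (N.locally_finite v) fun s _ => s.finite_toSet
    refine hf.subset ?_
    rintro j ⟨p', hj, hp'⟩
    have hj0 := pos_of_mem N j p' hj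
    have hface : ({v, j} : Finset ι) ∈ N.faces := by
      refine supp_face N p'.1 _ ⟨v, by simp⟩ ?_
      intro i hi
      simp only [Finset.mem_insert, Finset.mem_singleton] at hi
      rcases hi with rfl | rfl
      · exact hp'
      · exact hj0
    simp only [Set.mem_iUnion]
    exact ⟨{v, j}, ⟨hface, by simp⟩, by simp⟩

theorem DD_nerve {ι : Type} (N : Cx ι) (S : Finset ι) (hS : S.Nonempty) :
    (inter (DD N) S).Nonempty ↔ S ∈ N.faces := by
  classical
  constructor
  · rintro ⟨p, hp⟩
    exact supp_face N p.1 S hS fun i hi => pos_of_mem N i p (hp i hi)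
  · intro hf
    have hc : (0:ℝ) < S.card := by exact_mod_cast hS.card_pos
    let y : ι → ℝ := fun i => if i ∈ S then (1:ℝ) / S.card else 0
    have hy : (∀ v, 0 ≤ y v) ∧ ∃ s ∈ N.faces, (∀ v, v ∉ s → y v = 0) ∧ ∑ v ∈ s, y v = 1 := by
      refine ⟨fun v => ?_, S, hf, fun v hv => ?_, ?_⟩
      · simp only [y]; split_ifs <;> positivity
      · simp [y, hv]
      · have : ∑ v ∈ S, y v = ∑ v ∈ S, (1:ℝ) / S.card :=
          Finset.sum_congr rfl fun v hv => by simp [y, hv]
        rw [this, Finset.sum_const, nsmul_eq_mul]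
        field_simp
    refine ⟨(⟨y, hy⟩, fun _ => 0), fun i hi j => ?_⟩
    show y j ≤ y i
    simp only [y, hi, if_true]
    split_ifs
    · exact le_rfl
    · positivity

end Pool.Agent.H56.SQ
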