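import Mathlib
import Pool.Agent.H56.SQ.Basic
import Pool.Agent.H56.SQ.Cx
import Pool.Agent.H56.SQ.ConeDef
import Pool.Agent.H56.SQ.Glue
import Pool.Agent.H56.SQ.Nerve

set_option autoImplicit false

/-!
# SQ-12b: the intersections of the canonical cover of |N| x Q have deficient boundaries

Deficient: `S ∈ N`, `inter (DD N) S = {y | y i = max y for i ∈ S} × Q`.  Link: `α = {j ∉ S | S ∪ {j} ∈ N}`
(finite, as a subtype or as a `Finset`), `L = {τ ⊆ α | S ∪ τ ∈ N}` (contains `∅`).
`{y | y i = max y for i ∈ S} ≃ PP L`, `z j = y j / (max y)` (`max y = y i`, `i ∈ S`), inverse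
`y = (1_S + z) / (card S + ∑ z)`.  `bd` corresponds to `{z | ∃ j, z j = 1}`; apply `cone_defic`.
(`PP` is for a `Fintype` with `DecidableEq`.)
-/

namespace Pool.Agent.H56.SQ

open unitInterval Set

theorem continuous_coord {ι : Type} (N : Cx ι) (v : ι) :
    Continuous (fun y : N.Real => y.1 v) :=
  (continuous_apply v).comp continuous_subtype_val

theorem DD_defic {ι : Type} [DecidableEq ι] (N : Cx ι) (S : Finset ι) (hS : S ∈ N.faces) :
    Defic (bd (DD N) S) := by
  classical
  obtain ⟨i0, hi0⟩ := N.nonempty_of_mem S hS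
  have hF : {j | j ∉ S ∧ insert j S ∈ N.faces}.Finite := by
    refine ((N.locally_finite i0).biUnion (t := fun s => (s : Set ι))
      (fun s _ => s.finite_toSet)).subset ?_
    rintro j ⟨hj, hj'⟩
    simp only [mem_iUnion]
    exact ⟨insert j S, ⟨hj', Finset.mem_insert_of_mem hi0⟩, Finset.mem_insert_self j S⟩
  let F : Finset ι := hF.toFinset
  have hFmem : ∀ j, j ∈ F ↔ j ∉ S ∧ insert j S ∈ N.faces := fun j => by
    simp only [F, Finite.mem_toFinset]; rfl
  let em : {j // j ∈ F} ↪ ι := Function.Embedding.subtype _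
  let L : Finset (Finset {j // j ∈ F}) := Finset.univ.filter fun τ => S ∪ τ.map em ∈ N.faces
  have hL : ∀ τ, τ ∈ L ↔ S ∪ τ.map em ∈ N.faces := fun τ => by simp [L]
  have h0 : ∅ ∈ L := by rw [hL]; simpa using hS
  have hdown : ∀ s ∈ L, ∀ t ⊆ s, t ∈ L := by
    intro s hs t hts
    rw [hL] at hs ⊢
    exact N.down_closed _ hs _ (Finset.union_subset_union_right (Finset.map_subset_map.2 hts))
      ⟨i0, Finset.mem_union_left _ hi0⟩
  -- facts on the points of the intersection
  have hy0 : ∀ p : inter (DD N) S, 0 < p.1.1.1 i0 := by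
    intro p
    by_contra hcon
    push Not at hcon
    obtain ⟨s, hs, hs0, hs1⟩ := p.1.1.2.2
    have : ∑ v ∈ s, p.1.1.1 v ≤ 0 :=
      Finset.sum_nonpos fun v _ => (p.2 i0 hi0 v).trans hcon
    linarith
  have hyS : ∀ p : inter (DD N) S, ∀ i ∈ S, p.1.1.1 i = p.1.1.1 i0 := fun p i hi =>
    le_antisymm (p.2 i0 hi0 i) (p.2 i hi i0)
  have hyF : ∀ p : inter (DD N) S, ∀ j, j ∉ S → p.1.1.1 j ≠ 0 → j ∈ F := by
    intro p j hj hne
    obtain ⟨s, hs, hs0, hs1⟩ := p.1.1.2.2
    rw [hFmem]
    refine ⟨hj, N.down_closed s hs _ ?_ ⟨j, Finset.mem_insert_self j S⟩⟩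
    intro v hv
    by_contra hvs
    have h1 := hs0 v hvs
    rcases Finset.mem_insert.1 hv with rfl | hv
    · exact hne h1
    · rw [hyS p v hv] at h1
      exact (hy0 p).ne' h1
  have hmem1 : ∀ p : inter (DD N) S, ∀ j : {j // j ∈ F},
      p.1.1.1 j / p.1.1.1 i0 ∈ Icc (0 : ℝ) 1 := fun p j =>
    ⟨div_nonneg (p.1.1.2.1 _) (hy0 p).le, (div_le_one (hy0 p)).2 (p.2 i0 hi0 _)⟩
  have hmem2 : ∀ p : inter (DD N) S,
      (fun j : {j // j ∈ F} => (⟨p.1.1.1 j / p.1.1.1 i0, hmem1 p j⟩ : I)) ∈ PP L := by
    intro p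
    obtain ⟨s, hs, hs0, hs1⟩ := p.1.1.2.2
    refine ⟨Finset.univ.filter fun j => (j : ι) ∈ s, ?_, ?_⟩
    · rw [hL]
      refine N.down_closed s hs _ ?_ ⟨i0, Finset.mem_union_left _ hi0⟩
      intro v hv
      rcases Finset.mem_union.1 hv with hv | hv
      · by_contra hvs
        have h1 := hs0 v hvs
        rw [hyS p v hv] at h1
        exact (hy0 p).ne' h1
      · obtain ⟨j, hj, rfl⟩ := Finset.mem_map.1 hv
        exact (Finset.mem_filter.1 hj).2
    · intro j hj
      have hj' : (j : ι) ∉ s := by simpa using hj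
      apply Subtype.ext
      show p.1.1.1 j / p.1.1.1 i0 = 0
      rw [hs0 _ hj', zero_div]
  -- the inverse map
  let num : ({j // j ∈ F} → I) → ι → ℝ := fun z v =>
    if v ∈ S then 1 else if h : v ∈ F then (z ⟨v, h⟩ : ℝ) else 0
  let D : ({j // j ∈ F} → I) → ℝ := fun z => (S.card : ℝ) + ∑ j, (z j : ℝ)
  have hcard : (0 : ℝ) < S.card := by exact_mod_cast Finset.card_pos.2 ⟨i0, hi0⟩
  have hD : ∀ z, 0 < D z := fun z => by
    have : 0 ≤ ∑ j, (z j : ℝ) := Finset.sum_nonneg fun j _ => (z j).2.1
    show 0 < (S.card : ℝ) + ∑ j, (z j : ℝ)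
    linarith
  have hnum0 : ∀ z v, 0 ≤ num z v := by
    intro z v
    simp only [num]
    split_ifs with h1 h2
    · exact zero_le_one
    · exact (z ⟨v, h2⟩).2.1
    · exact le_refl _
  have hnum1 : ∀ z v, num z v ≤ 1 := by
    intro z v
    simp only [num]
    split_ifs with h1 h2
    · exact le_refl _
    · exact (z ⟨v, h2⟩).2.2
    · exact zero_le_one
  have hnumS : ∀ z, ∀ v ∈ S, num z v = 1 := fun z v hv => by simp only [num, if_pos hv]
  have hnumF : ∀ z, ∀ j : {j // j ∈ F}, num z j = z j := fun z j => by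
    have h1 : (j : ι) ∉ S := ((hFmem _).1 j.2).1
    simp only [num, if_neg h1, dif_pos j.2]
  have hreal : ∀ z : PP L, (∀ v, 0 ≤ num z v / D z) ∧ ∃ s ∈ N.faces,
      (∀ v, v ∉ s → num z v / D z = 0) ∧ ∑ v ∈ s, num z v / D z = 1 := by
    intro z
    refine ⟨fun v => div_nonneg (hnum0 _ _) (hD _).le, ?_⟩
    obtain ⟨τ, hτ, hz⟩ := z.2
    refine ⟨S ∪ τ.map em, (hL τ).1 hτ, ?_, ?_⟩
    · intro v hv
      have h1 : v ∉ S := fun h => hv (Finset.mem_union_left _ h)
      have h2 : num z v = 0 := by
        by_cases h : v ∈ F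
        · have h3 := hnumF z ⟨v, h⟩
          have h4 : (⟨v, h⟩ : {j // j ∈ F}) ∉ τ := fun h5 =>
            hv (Finset.mem_union_right _ (Finset.mem_map.2 ⟨⟨v, h⟩, h5, rfl⟩))
          rw [hz _ h4] at h3
          exact h3
        · simp only [num, if_neg h1, dif_neg h]
      rw [h2, zero_div]
    · rw [← Finset.sum_div, div_eq_one_iff_eq (hD _).ne']
      have hdisj : Disjoint S (τ.map em) := by
        rw [Finset.disjoint_left]
        rintro v hv hv'
        obtain ⟨j, hj, rfl⟩ := Finset.mem_map.1 hv'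
        exact ((hFmem _).1 j.2).1 hv
      rw [Finset.sum_union hdisj, Finset.sum_map, Finset.sum_congr rfl (hnumS z)]
      show _ = (S.card : ℝ) + ∑ j, ((z : {j // j ∈ F} → I) j : ℝ)
      congr 1
      · simp
      · rw [← Finset.sum_subset (Finset.subset_univ τ)]
        · exact Finset.sum_congr rfl fun j _ => hnumF z.1 j
        · intro j _ hj
          rw [hz j hj]; rfl
  let inv : PP L × Q → inter (DD N) S := fun p =>
    ⟨(⟨fun v => num p.1 v / D p.1, hreal p.1⟩, p.2), fun i hi j =>
      div_le_div_of_nonneg_right ((hnum1 _ _).trans (hnumS _ i hi).ge) (hD _).le⟩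
  let fwd : inter (DD N) S → PP L × Q := fun p => (⟨_, hmem2 p⟩, p.1.2)
  have hinv_coord : ∀ p v, (inv p).1.1.1 v = num p.1 v / D p.1 := fun p v => rfl
  have hfwd_coord : ∀ p j, ((((fwd p).1 : PP L) : {j // j ∈ F} → I) j : ℝ)
      = p.1.1.1 j / p.1.1.1 i0 := fun p j => rfl
  have hcinv : Continuous inv := by
    have hDc : Continuous fun p : PP L × Q => D p.1 := by
      refine continuous_const.add (continuous_finsetSum _ fun j _ => ?_)
      exact continuous_subtype_val.comp ((continuous_apply j).comp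
        (continuous_subtype_val.comp continuous_fst))
    have h1 : Continuous fun p : PP L × Q =>
        (⟨fun v => num p.1 v / D p.1, hreal p.1⟩ : N.Real) := by
      refine Continuous.subtype_mk (continuous_pi fun v => ?_) _
      refine Continuous.div ?_ hDc fun p => (hD _).ne'
      by_cases h1 : v ∈ S
      · have : (fun p : PP L × Q => num p.1 v) = fun _ => 1 := by
          funext p; exact hnumS _ v h1
        rw [this]; exact continuous_const
      · by_cases h2 : v ∈ F
        · have : (fun p : PP L × Q => num p.1 v)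
              = fun p : PP L × Q => (((p.1 : {j // j ∈ F} → I) ⟨v, h2⟩ : I) : ℝ) := by
            funext p; exact hnumF _ ⟨v, h2⟩
          rw [this]
          exact continuous_subtype_val.comp ((continuous_apply _).comp
            (continuous_subtype_val.comp continuous_fst))
        · have : (fun p : PP L × Q => num p.1 v) = fun _ => 0 := by
            funext p; simp only [num, if_neg h1, dif_neg h2]
          rw [this]; exact continuous_const
    exact Continuous.subtype_mk (h1.prodMk continuous_snd) _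
  have hcfwd : Continuous fwd := by
    refine Continuous.prodMk ?_ (continuous_snd.comp continuous_subtype_val)
    refine Continuous.subtype_mk (continuous_pi fun j => ?_) _
    refine Continuous.subtype_mk ?_ _
    refine Continuous.div ?_ ?_ fun p => (hy0 p).ne'
    · exact (continuous_coord N _).comp (continuous_fst.comp continuous_subtype_val)
    · exact (continuous_coord N _).comp (continuous_fst.comp continuous_subtype_val)
  have hright : ∀ p, fwd (inv p) = p := by
    intro p
    refine Prod.ext (Subtype.ext (funext fun j => Subtype.ext ?_)) rfl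
    show (num p.1 j / D p.1) / (num p.1 i0 / D p.1) = _
    rw [hnumS _ _ hi0, hnumF]
    have := (hD p.1).ne'
    field_simp
  have hleft : ∀ p, inv (fwd p) = p := by
    intro p
    have hm := hy0 p
    have hnum : ∀ v, num (fwd p).1 v = p.1.1.1 v / p.1.1.1 i0 := by
      intro v
      by_cases h1 : v ∈ S
      · rw [hnumS _ v h1, hyS p v h1, div_self hm.ne']
      · by_cases h2 : v ∈ F
        · exact hnumF _ ⟨v, h2⟩
        · have h3 : p.1.1.1 v = 0 := by
            by_contra h4
            exact h2 (hyF p v h1 h4)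
          rw [h3, zero_div]
          simp only [num, if_neg h1, dif_neg h2]
    have hDm : D (fwd p).1 = 1 / p.1.1.1 i0 := by
      have h1 : D (fwd p).1 = ∑ v ∈ S ∪ F, p.1.1.1 v / p.1.1.1 i0 := by
        have hdisj : Disjoint S F := by
          rw [Finset.disjoint_left]
          exact fun v hv hv' => ((hFmem _).1 hv').1 hv
        rw [Finset.sum_union hdisj]
        show (S.card : ℝ) + ∑ j, (((fwd p).1 : {j // j ∈ F} → I) j : ℝ) = _
        congr 1
        · rw [Finset.sum_congr rfl fun v hv => by rw [hyS p v hv, div_self hm.ne']]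
          simp
        · rw [← Finset.sum_coe_sort F]
      obtain ⟨s, hs, hs0, hs1⟩ := p.1.1.2.2
      rw [h1, ← Finset.sum_div]
      congr 1
      have e1 : ∑ v ∈ s, p.1.1.1 v = ∑ v ∈ s ∪ (S ∪ F), p.1.1.1 v :=
        Finset.sum_subset Finset.subset_union_left fun v _ hv => hs0 v hv
      have e2 : ∑ v ∈ S ∪ F, p.1.1.1 v = ∑ v ∈ s ∪ (S ∪ F), p.1.1.1 v := by
        refine Finset.sum_subset Finset.subset_union_right fun v _ hv => ?_
        rw [Finset.mem_union, not_or] at hv
        by_contra h4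
        exact hv.2 (hyF p v hv.1 h4)
      exact e2.trans (e1.symm.trans hs1)
    apply Subtype.ext
    refine Prod.ext (Subtype.ext (funext fun v => ?_)) rfl
    show num (fwd p).1 v / D (fwd p).1 = p.1.1.1 v
    rw [hnum, hDm]
    field_simp
  let e : (PP L × Q) ≃ₜ inter (DD N) S :=
    { toFun := inv, invFun := fwd, left_inv := hright, right_inv := hleft,
      continuous_toFun := hcinv, continuous_invFun := hcfwd }
  refine ((cone_defic L h0 hdown).image e).mono ?_
  rintro x ⟨j, hjS, hj⟩
  refine ⟨fwd x, ?_, hleft x⟩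
  have h1 : x.1.1.1 j = x.1.1.1 i0 := le_antisymm (x.2 i0 hi0 j) (hj i0)
  have h2 : j ∈ F := hyF x j hjS (by rw [h1]; exact (hy0 x).ne')
  refine ⟨⟨j, h2⟩, Subtype.ext ?_⟩
  show x.1.1.1 j / x.1.1.1 i0 = 1
  rw [h1, div_self (hy0 x).ne']

end Pool.Agent.H56.SQ
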