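import Mathlib
import Pool.Agent.H56.SQ.Cx

set_option autoImplicit false

/-!
# SQ-14: barycentric subdivision

`sd K`: vertices = simplices of `K` (the subtype `K.faces`), simplices = nonempty finite chains.
`|sd K| ≃ |K|`.  Map `phi : |sd K| → |K|`: `y v = ∑_{σ ∋ v} t σ / card σ` (a finite sum for each `v`, by local
finiteness, hence continuous).

Injective: let `d` be the difference of two weights `t / card` with the same image and let `τ₀` be a face of
maximal cardinality with `d τ₀ ≠ 0`, say `d τ₀ > 0`; every `v ∈ τ₀` lies in some `τ` with `d τ < 0`, all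
these `τ` are in the second chain, the largest of them contains `τ₀`, contradiction.
Surjective: peel off the minimum of `y` on its support, induction on the cardinality of the support.
Closed: the preimage of `{y | ε ≤ y v₀}`, `ε > 0`, is a closed subset of a finite union of simplices.
-/

namespace Pool.Agent.H56.SQ

theorem star_finite {V : Type} (K : Cx V) (v : V) :
    {σ : K.faces | v ∈ (σ : Finset V)}.Finite := by
  have h := (K.locally_finite v).preimage (f := (Subtype.val : K.faces → Finset V))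
    Subtype.val_injective.injOn
  refine h.subset ?_
  intro σ hσ
  exact ⟨σ.2, hσ⟩

theorem sd_locally_finite {V : Type} (K : Cx V) (σ : K.faces) :
    {s : Finset K.faces | s ∈ {c : Finset K.faces | c.Nonempty ∧
      ∀ a ∈ c, ∀ b ∈ c, (a : Finset V) ⊆ b ∨ (b : Finset V) ⊆ a} ∧ σ ∈ s}.Finite := by
  have hB : {τ : K.faces | ∃ v ∈ (σ : Finset V), v ∈ (τ : Finset V)}.Finite := by
    have h := Set.Finite.biUnion (σ : Finset V).finite_toSet
      (t := fun v => {τ : K.faces | v ∈ (τ : Finset V)}) (fun v _ => star_finite K v)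
    refine h.subset ?_
    rintro τ ⟨v, hv, hv'⟩
    simp only [Set.mem_iUnion]
    exact ⟨v, hv, hv'⟩
  refine (hB.toFinset.powerset.finite_toSet).subset ?_
  rintro c ⟨⟨_, hc⟩, hσ⟩
  simp only [Finset.coe_powerset, Set.mem_preimage, Set.mem_powerset_iff]
  intro a ha
  simp only [Set.Finite.coe_toFinset, Set.mem_setOf_eq]
  rcases hc a ha σ hσ with h | h
  · obtain ⟨v, hv⟩ := K.nonempty_of_mem a.1 a.2
    exact ⟨v, h hv, hv⟩
  · obtain ⟨v, hv⟩ := K.nonempty_of_mem σ.1 σ.2
    exact ⟨v, hv, h hv⟩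

/-- barycentric subdivision -/
def sd {V : Type} (K : Cx V) : Cx K.faces where
  faces := {c | c.Nonempty ∧ ∀ a ∈ c, ∀ b ∈ c, (a : Finset V) ⊆ b ∨ (b : Finset V) ⊆ a}
  nonempty_of_mem := fun _ h => h.1
  down_closed := fun s hs t hts ht => ⟨ht, fun a ha b hb => hs.2 a (hts ha) b (hts hb)⟩
  locally_finite := by
    intro σ
    exact sd_locally_finite K σ

/-- the faces containing a vertex -/
noncomputable def star {V : Type} (K : Cx V) (v : V) : Finset K.faces := (star_finite K v).toFinset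

theorem mem_star {V : Type} (K : Cx V) (v : V) (σ : K.faces) :
    σ ∈ star K v ↔ v ∈ (σ : Finset V) := by
  simp [star]

/-- the subdivision map on functions -/
noncomputable def phi {V : Type} (K : Cx V) (t : K.faces → ℝ) (v : V) : ℝ :=
  ∑ σ ∈ star K v, t σ / ((σ : Finset V).card : ℝ)

theorem phi_eq {V : Type} [DecidableEq V] (K : Cx V) (t : K.faces → ℝ) (c : Finset K.faces)
    (hc : ∀ σ, σ ∉ c → t σ = 0) (v : V) :
    phi K t v = ∑ σ ∈ c, if v ∈ (σ : Finset V) then t σ / ((σ : Finset V).card : ℝ) else 0 := by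
  rw [← Finset.sum_filter]
  symm
  apply Finset.sum_subset
  · intro σ hσ
    rw [Finset.mem_filter] at hσ
    exact (mem_star K v σ).2 hσ.2
  · intro σ hσ hσ'
    rw [Finset.mem_filter] at hσ'
    have hv := (mem_star K v σ).1 hσ
    have : σ ∉ c := fun h => hσ' ⟨h, hv⟩
    rw [hc σ this, zero_div]

theorem card_ne {V : Type} (K : Cx V) (σ : K.faces) : (((σ : Finset V).card : ℕ) : ℝ) ≠ 0 := by
  have h := K.nonempty_of_mem σ.1 σ.2
  have h2 : (σ : Finset V).card ≠ 0 := Finset.card_ne_zero.2 h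
  exact_mod_cast h2

theorem mass {V : Type} [DecidableEq V] (K : Cx V) (t : K.faces → ℝ) (c : Finset K.faces)
    (hc : ∀ σ, σ ∉ c → t σ = 0) (s : Finset V) (hs : ∀ σ ∈ c, (σ : Finset V) ⊆ s) :
    ∑ v ∈ s, phi K t v = ∑ σ ∈ c, t σ := by
  have h1 : ∀ v ∈ s, phi K t v =
      ∑ σ ∈ c, if v ∈ (σ : Finset V) then t σ / ((σ : Finset V).card : ℝ) else 0 :=
    fun v _ => phi_eq K t c hc v
  rw [Finset.sum_congr rfl h1, Finset.sum_comm]
  apply Finset.sum_congr rfl
  intro σ hσ
  rw [← Finset.sum_filter]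
  have h2 : s.filter (fun v => v ∈ (σ : Finset V)) = (σ : Finset V) := by
    ext v
    rw [Finset.mem_filter]
    exact ⟨fun h => h.2, fun h => ⟨hs σ hσ h, h⟩⟩
  rw [h2, Finset.sum_const, nsmul_eq_mul]
  field_simp [card_ne K σ]

theorem chain_max {V : Type} (K : Cx V) (c : Finset K.faces) (hne : c.Nonempty)
    (hc : ∀ a ∈ c, ∀ b ∈ c, (a : Finset V) ⊆ b ∨ (b : Finset V) ⊆ a) :
    ∃ m ∈ c, ∀ σ ∈ c, (σ : Finset V) ⊆ m := by
  obtain ⟨m, hm, hmax⟩ := Finset.exists_max_image c (fun σ => (σ : Finset V).card) hne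
  refine ⟨m, hm, fun σ hσ => ?_⟩
  rcases hc σ hσ m hm with h | h
  · exact h
  · have := Finset.eq_of_subset_of_card_le h (hmax σ hσ)
    rw [this]

theorem phi_nonneg {V : Type} (K : Cx V) (t : K.faces → ℝ) (ht : ∀ σ, 0 ≤ t σ) (v : V) :
    0 ≤ phi K t v :=
  Finset.sum_nonneg (fun σ _ => div_nonneg (ht σ) (Nat.cast_nonneg _))

theorem phi_add {V : Type} (K : Cx V) (t u : K.faces → ℝ) (v : V) :
    phi K (fun σ => t σ + u σ) v = phi K t v + phi K u v := by
  unfold phi
  rw [← Finset.sum_add_distrib]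
  apply Finset.sum_congr rfl
  intro σ _
  ring

/-- surjectivity, the inductive core -/
theorem surj_core {V : Type} [DecidableEq V] (K : Cx V) : ∀ n : ℕ, ∀ s : Finset V, s ∈ K.faces →
    s.card ≤ n → ∀ y : V → ℝ, (∀ v ∈ s, 0 < y v) → (∀ v, v ∉ s → y v = 0) →
    ∃ (t : K.faces → ℝ) (c : Finset K.faces), c.Nonempty ∧
      (∀ a ∈ c, ∀ b ∈ c, (a : Finset V) ⊆ b ∨ (b : Finset V) ⊆ a) ∧
      (∀ σ ∈ c, (σ : Finset V) ⊆ s) ∧ (∀ σ, 0 ≤ t σ) ∧ (∀ σ, σ ∉ c → t σ = 0) ∧
      ∀ v, phi K t v = y v := by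
  classical
  intro n
  induction n with
  | zero =>
    intro s hs hcard
    have h := K.nonempty_of_mem s hs
    have : s.card ≠ 0 := Finset.card_ne_zero.2 h
    omega
  | succ n ih =>
    intro s hs hcard y hy hy0
    obtain ⟨v1, hv1, hmin⟩ := Finset.exists_min_image s y (K.nonempty_of_mem s hs)
    set S : K.faces := ⟨s, hs⟩ with hS
    set u : K.faces → ℝ := fun σ => if σ = S then (s.card : ℝ) * y v1 else 0 with hu
    have hcs : ((s.card : ℕ) : ℝ) ≠ 0 := card_ne K S
    have hphi : ∀ v, phi K u v = if v ∈ s then y v1 else 0 := by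
      intro v
      rw [phi_eq K u {S} (by
        intro σ hσ
        rw [Finset.mem_singleton] at hσ
        simp [hu, hσ]) v, Finset.sum_singleton]
      by_cases hv : v ∈ s
      · have hv' : v ∈ (S : Finset V) := hv
        rw [if_pos hv', if_pos hv]
        have : u S = (s.card : ℝ) * y v1 := by simp [hu]
        rw [this]
        change (s.card : ℝ) * y v1 / (s.card : ℝ) = y v1
        field_simp
      · have hv' : v ∉ (S : Finset V) := hv
        rw [if_neg hv', if_neg hv]
    have hu0 : ∀ σ, 0 ≤ u σ := by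
      intro σ
      simp only [hu]
      split_ifs
      · exact mul_nonneg (Nat.cast_nonneg _) (hy v1 hv1).le
      · exact le_rfl
    set s' := s.filter (fun v => y v1 < y v) with hs'
    have hsub : s' ⊆ s := Finset.filter_subset _ _
    set y' : V → ℝ := fun v => if v ∈ s then y v - y v1 else 0 with hy'
    have hy'pos : ∀ v ∈ s', 0 < y' v := by
      intro v hv
      rw [hs', Finset.mem_filter] at hv
      simp only [hy', if_pos hv.1]
      linarith [hv.2]
    have hy'zero : ∀ v, v ∉ s' → y' v = 0 := by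
      intro v hv
      by_cases hvs : v ∈ s
      · simp only [hy', if_pos hvs]
        rw [hs', Finset.mem_filter] at hv
        have h1 : ¬ (y v1 < y v) := fun h => hv ⟨hvs, h⟩
        have h2 := hmin v hvs
        linarith
      · simp only [hy', if_neg hvs]
    have hsum : ∀ v, y' v + (if v ∈ s then y v1 else 0) = y v := by
      intro v
      by_cases hvs : v ∈ s
      · simp only [hy', if_pos hvs]
        ring
      · simp only [hy', if_neg hvs, hy0 v hvs]
        ring
    by_cases hne : s'.Nonempty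
    · have hs'f : s' ∈ K.faces := K.down_closed s hs s' hsub hne
      have hlt : s'.card < s.card := by
        apply Finset.card_lt_card
        refine ⟨hsub, fun h => ?_⟩
        have := h hv1
        rw [hs', Finset.mem_filter] at this
        exact lt_irrefl _ this.2
      obtain ⟨t', c', hc'ne, hc', hc's, ht'0, ht'z, ht'⟩ := ih s' hs'f (by omega) y' hy'pos hy'zero
      refine ⟨fun σ => t' σ + u σ, insert S c', Finset.insert_nonempty _ _, ?_, ?_, ?_, ?_, ?_⟩
      · intro a ha b hb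
        rw [Finset.mem_insert] at ha hb
        rcases ha with rfl | ha
        · rcases hb with rfl | hb
          · exact Or.inl (Finset.Subset.refl _)
          · exact Or.inr ((hc's b hb).trans hsub)
        · rcases hb with rfl | hb
          · exact Or.inl ((hc's a ha).trans hsub)
          · exact hc' a ha b hb
      · intro σ hσ
        rw [Finset.mem_insert] at hσ
        rcases hσ with rfl | hσ
        · exact Finset.Subset.refl _
        · exact (hc's σ hσ).trans hsub
      · intro σ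
        exact add_nonneg (ht'0 σ) (hu0 σ)
      · intro σ hσ
        rw [Finset.mem_insert, not_or] at hσ
        change t' σ + u σ = 0
        rw [ht'z σ hσ.2]
        simp [hu, hσ.1]
      · intro v
        rw [phi_add, ht', hphi, hsum]
    · rw [Finset.not_nonempty_iff_eq_empty] at hne
      refine ⟨u, {S}, Finset.singleton_nonempty _, ?_, ?_, hu0, ?_, ?_⟩
      · intro a ha b hb
        rw [Finset.mem_singleton] at ha hb
        rw [ha, hb]
        exact Or.inl (Finset.Subset.refl _)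
      · intro σ hσ
        rw [Finset.mem_singleton] at hσ
        rw [hσ]
      · intro σ hσ
        rw [Finset.mem_singleton] at hσ
        simp [hu, hσ]
      · intro v
        rw [hphi]
        have h1 := hsum v
        have h2 := hy'zero v (by rw [hne]; exact Finset.notMem_empty v)
        rw [h2, zero_add] at h1
        exact h1

/-- injectivity, one sided core: no face of maximal cardinality has positive difference -/
theorem inj_core {V : Type} [DecidableEq V] (K : Cx V) (t u : K.faces → ℝ)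
    (hu0 : ∀ σ, 0 ≤ u σ) (ht0 : ∀ σ, 0 ≤ t σ) (c : Finset K.faces)
    (hcc : ∀ a ∈ c, ∀ b ∈ c, (a : Finset V) ⊆ b ∨ (b : Finset V) ⊆ a)
    (hc : ∀ σ, σ ∉ c → u σ = 0) (he : ∀ v, phi K t v = phi K u v) (τ : K.faces)
    (hτ : u τ < t τ)
    (hmax : ∀ σ : K.faces, t σ ≠ u σ → (σ : Finset V).card ≤ (τ : Finset V).card) : False := by
  classical
  have key : ∀ v ∈ (τ : Finset V), ∃ σ ∈ star K v, t σ < u σ := by
    intro v hv
    by_contra hcon
    push Not at hcon
    have h1 : phi K u v < phi K t v := by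
      unfold phi
      apply Finset.sum_lt_sum
      · intro σ hσ
        exact div_le_div_of_nonneg_right (hcon σ hσ) (Nat.cast_nonneg _)
      · refine ⟨τ, (mem_star K v τ).2 hv, ?_⟩
        apply div_lt_div_of_pos_right hτ
        have h := K.nonempty_of_mem τ.1 τ.2
        exact_mod_cast Finset.card_pos.2 h
    rw [he v] at h1
    exact lt_irrefl _ h1
  set D : Finset K.faces := c.filter (fun σ => t σ < u σ) with hD
  have hmemD : ∀ σ : K.faces, t σ < u σ → σ ∈ D := by
    intro σ hσ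
    rw [hD, Finset.mem_filter]
    refine ⟨?_, hσ⟩
    by_contra hn
    rw [hc σ hn] at hσ
    exact absurd (ht0 σ) (not_le.2 hσ)
  obtain ⟨v0, hv0⟩ := K.nonempty_of_mem τ.1 τ.2
  obtain ⟨σ0, _, hσ0⟩ := key v0 hv0
  obtain ⟨m, hm, hmm⟩ := chain_max K D ⟨σ0, hmemD σ0 hσ0⟩ (by
    intro a ha b hb
    rw [hD, Finset.mem_filter] at ha hb
    exact hcc a ha.1 b hb.1)
  have hsub : (τ : Finset V) ⊆ m := by
    intro v hv
    obtain ⟨σ, hσ, hlt⟩ := key v hv
    exact hmm σ (hmemD σ hlt) ((mem_star K v σ).1 hσ)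
  have hmlt : t m < u m := by
    rw [hD, Finset.mem_filter] at hm
    exact hm.2
  have hle := hmax m hmlt.ne
  have heq : (τ : Finset V) = m := Finset.eq_of_subset_of_card_le hsub hle
  have heq' : τ = m := Subtype.ext heq
  rw [heq'] at hτ
  exact absurd hτ (not_lt.2 hmlt.le)

theorem inj_aux {V : Type} [DecidableEq V] (K : Cx V) (t u : K.faces → ℝ)
    (ht0 : ∀ σ, 0 ≤ t σ) (hu0 : ∀ σ, 0 ≤ u σ) (c d : Finset K.faces)
    (hcc : ∀ a ∈ c, ∀ b ∈ c, (a : Finset V) ⊆ b ∨ (b : Finset V) ⊆ a)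
    (hdd : ∀ a ∈ d, ∀ b ∈ d, (a : Finset V) ⊆ b ∨ (b : Finset V) ⊆ a)
    (hc : ∀ σ, σ ∉ c → t σ = 0) (hd : ∀ σ, σ ∉ d → u σ = 0)
    (he : ∀ v, phi K t v = phi K u v) : t = u := by
  classical
  by_contra hne
  have hex : ∃ σ, t σ ≠ u σ := by
    by_contra h
    push Not at h
    exact hne (funext h)
  set E : Finset K.faces := (c ∪ d).filter (fun σ => t σ ≠ u σ) with hE
  have hmem : ∀ σ, t σ ≠ u σ → σ ∈ E := by
    intro σ hσ
    rw [hE, Finset.mem_filter, Finset.mem_union]
    refine ⟨?_, hσ⟩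
    by_contra hn
    rw [not_or] at hn
    exact hσ (by rw [hc σ hn.1, hd σ hn.2])
  obtain ⟨σ0, hσ0⟩ := hex
  obtain ⟨τ, hτ, hmax⟩ := Finset.exists_max_image E (fun σ => (σ : Finset V).card) ⟨σ0, hmem σ0 hσ0⟩
  have hτne : t τ ≠ u τ := by
    rw [hE, Finset.mem_filter] at hτ
    exact hτ.2
  rcases lt_or_gt_of_ne hτne with h | h
  · exact inj_core K u t ht0 hu0 c hcc hc (fun v => (he v).symm) τ h
      (fun σ hσ => hmax σ (hmem σ (Ne.symm hσ)))
  · exact inj_core K t u hu0 ht0 d hdd hd he τ h (fun σ hσ => hmax σ (hmem σ hσ))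

/-- the subdivision map `|sd K| → |K|` -/
noncomputable def sdMap {V : Type} [DecidableEq V] (K : Cx V) (t : (sd K).Real) : K.Real :=
  ⟨phi K t.1, fun v => phi_nonneg K t.1 t.2.1 v, by
    obtain ⟨c, hc, hz, hsum⟩ := t.2.2
    obtain ⟨m, hm, hmm⟩ := chain_max K c hc.1 hc.2
    refine ⟨m.1, m.2, ?_, ?_⟩
    · intro v hv
      rw [phi_eq K t.1 c hz v]
      apply Finset.sum_eq_zero
      intro σ hσ
      rw [if_neg (fun h => hv (hmm σ hσ h))]
    · rw [mass K t.1 c hz m.1 hmm]
      exact hsum⟩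

theorem sdMap_injective {V : Type} [DecidableEq V] (K : Cx V) :
    Function.Injective (sdMap K) := by
  intro t u h
  obtain ⟨c, hc, hcz, _⟩ := t.2.2
  obtain ⟨d, hd, hdz, _⟩ := u.2.2
  apply Subtype.ext
  exact inj_aux K t.1 u.1 t.2.1 u.2.1 c d hc.2 hd.2 hcz hdz
    (fun v => congrFun (congrArg Subtype.val h) v)

theorem sdMap_surjective {V : Type} [DecidableEq V] (K : Cx V) :
    Function.Surjective (sdMap K) := by
  classical
  intro y
  obtain ⟨s0, hs0, hz, hsum⟩ := y.2.2
  set s := s0.filter (fun v => 0 < y.1 v) with hs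
  have hsub : s ⊆ s0 := Finset.filter_subset _ _
  have hzs : ∀ v, v ∉ s → y.1 v = 0 := by
    intro v hv
    by_cases h0 : v ∈ s0
    · have h1 : ¬ (0 < y.1 v) := fun h => hv (by rw [hs, Finset.mem_filter]; exact ⟨h0, h⟩)
      exact le_antisymm (not_lt.1 h1) (y.2.1 v)
    · exact hz v h0
  have hsum' : ∑ v ∈ s, y.1 v = 1 :=
    (Finset.sum_subset hsub (fun v _ hv => hzs v hv)).trans hsum
  have hne : s.Nonempty := by
    by_contra h
    rw [Finset.not_nonempty_iff_eq_empty] at h
    rw [h, Finset.sum_empty] at hsum'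
    exact zero_ne_one hsum'
  have hsf : s ∈ K.faces := K.down_closed s0 hs0 s hsub hne
  obtain ⟨t, c, hcne, hcc, hcs, ht0, htz, ht⟩ := surj_core K s.card s hsf le_rfl y.1
    (fun v hv => by rw [hs, Finset.mem_filter] at hv; exact hv.2) hzs
  have hmass : ∑ σ ∈ c, t σ = 1 := by
    rw [← mass K t c htz s hcs]
    exact (Finset.sum_congr rfl (fun v _ => ht v)).trans hsum'
  refine ⟨⟨t, ht0, c, ⟨hcne, hcc⟩, htz, hmass⟩, ?_⟩
  apply Subtype.ext
  funext v
  exact ht v

theorem real_val_continuous {V : Type} (K : Cx V) :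
    Continuous (fun y : K.Real => (y.1 : V → ℝ)) := continuous_subtype_val

theorem real_coord_continuous {V : Type} (K : Cx V) (v : V) :
    Continuous (fun y : K.Real => y.1 v) := (continuous_apply v).comp (real_val_continuous K)

instance real_t2 {V : Type} (K : Cx V) : T2Space K.Real :=
  inferInstanceAs (T2Space {y : V → ℝ //
    (∀ v, 0 ≤ y v) ∧ ∃ s ∈ K.faces, (∀ v, v ∉ s → y v = 0) ∧ ∑ v ∈ s, y v = 1})

theorem sdMap_continuous {V : Type} [DecidableEq V] (K : Cx V) : Continuous (sdMap K) := by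
  apply Continuous.subtype_mk
  apply continuous_pi
  intro v
  change Continuous (fun t : (sd K).Real => ∑ σ ∈ star K v, t.1 σ / ((σ : Finset V).card : ℝ))
  apply continuous_finsetSum
  intro σ _
  exact (real_coord_continuous (sd K) σ).div_const _

/-- closed simplices are compact -/
theorem simplex_compact {V : Type} (K : Cx V) (s : Finset V) (hs : s ∈ K.faces) :
    IsCompact {y : K.Real | ∀ v, v ∉ s → y.1 v = 0} := by
  classical
  have hemb : Topology.IsEmbedding (fun y : K.Real => (y.1 : V → ℝ)) :=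
    Topology.IsEmbedding.subtypeVal
  rw [hemb.isCompact_iff]
  have himg : (fun y : K.Real => (y.1 : V → ℝ)) '' {y : K.Real | ∀ v, v ∉ s → y.1 v = 0} =
      (Set.univ.pi fun _ : V => Set.Icc (0 : ℝ) 1) ∩
        {y : V → ℝ | (∀ v, v ∉ s → y v = 0) ∧ ∑ v ∈ s, y v = 1} := by
    ext y
    constructor
    · rintro ⟨z, hz, rfl⟩
      obtain ⟨s', hs', hz', hsum'⟩ := z.2.2
      have hsum : ∑ v ∈ s, z.1 v = 1 := by
        have h1 : ∑ v ∈ s ∪ s', z.1 v = ∑ v ∈ s, z.1 v :=
          (Finset.sum_subset Finset.subset_union_left (fun v _ hv => hz v hv)).symm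
        have h2 : ∑ v ∈ s ∪ s', z.1 v = ∑ v ∈ s', z.1 v :=
          (Finset.sum_subset Finset.subset_union_right (fun v _ hv => hz' v hv)).symm
        rw [← h1, h2, hsum']
      refine ⟨?_, hz, hsum⟩
      intro v _
      refine ⟨z.2.1 v, ?_⟩
      by_cases hv : v ∈ s
      · have h5 : z.1 v ≤ ∑ v ∈ s, z.1 v :=
          Finset.single_le_sum (f := fun v => z.1 v) (fun w _ => z.2.1 w) hv
        exact h5.trans hsum.le
      · change z.1 v ≤ 1
        rw [hz v hv]
        exact zero_le_one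
    · rintro ⟨h1, h2, h3⟩
      exact ⟨⟨y, fun v => (h1 v (Set.mem_univ v)).1, s, hs, h2, h3⟩, h2, rfl⟩
  rw [himg]
  apply IsCompact.inter_right (isCompact_univ_pi (fun _ => isCompact_Icc))
  apply IsClosed.inter
  · have : {y : V → ℝ | ∀ v, v ∉ s → y v = 0} = ⋂ v ∈ {v | v ∉ s}, {y : V → ℝ | y v = 0} := by
      ext y
      simp
    change IsClosed {y : V → ℝ | ∀ v, v ∉ s → y v = 0}
    rw [this]
    apply isClosed_biInter
    intro v _
    exact isClosed_eq (continuous_apply v) continuous_const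
  · exact isClosed_eq (continuous_finsetSum _ (fun v _ => continuous_apply v)) continuous_const

/-- preimages of the sets `{y | ε ≤ y v₀}` are compact -/
theorem preimage_compact {V : Type} [DecidableEq V] (K : Cx V) (v0 : V) (ε : ℝ) (hε : 0 < ε) :
    IsCompact (sdMap K ⁻¹' {y : K.Real | ε ≤ y.1 v0}) := by
  classical
  have hfin : {c : Finset K.faces | c ∈ (sd K).faces ∧ ∃ σ ∈ star K v0, σ ∈ c}.Finite := by
    have h := Set.Finite.biUnion (star K v0).finite_toSet
      (t := fun σ => {c : Finset K.faces | c ∈ (sd K).faces ∧ σ ∈ c})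
      (fun σ _ => (sd K).locally_finite σ)
    refine h.subset ?_
    rintro c ⟨hc, σ, hσ, hσc⟩
    simp only [Set.mem_iUnion]
    exact ⟨σ, hσ, hc, hσc⟩
  have hcomp : IsCompact (⋃ c ∈ {c : Finset K.faces | c ∈ (sd K).faces ∧ ∃ σ ∈ star K v0, σ ∈ c},
      {t : (sd K).Real | ∀ σ, σ ∉ c → t.1 σ = 0}) :=
    hfin.isCompact_biUnion (fun c hc => simplex_compact (sd K) c hc.1)
  have hclosed : IsClosed (sdMap K ⁻¹' {y : K.Real | ε ≤ y.1 v0}) :=
    (isClosed_le continuous_const (real_coord_continuous K v0)).preimage (sdMap_continuous K)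
  refine hcomp.of_isClosed_subset hclosed ?_
  intro t ht
  obtain ⟨c, hc, hz, _⟩ := t.2.2
  simp only [Set.mem_iUnion]
  refine ⟨c, ⟨hc, ?_⟩, hz⟩
  by_contra hcon
  push Not at hcon
  have h0 : (sdMap K t).1 v0 = 0 := by
    change ∑ σ ∈ star K v0, t.1 σ / ((σ : Finset V).card : ℝ) = 0
    apply Finset.sum_eq_zero
    intro σ hσ
    rw [hz σ (hcon σ hσ), zero_div]
  have h1 : ε ≤ (sdMap K t).1 v0 := ht
  rw [h0] at h1
  linarith

theorem sdMap_closed {V : Type} [DecidableEq V] (K : Cx V) : IsClosedMap (sdMap K) := by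
  intro Z hZ
  rw [← closure_subset_iff_isClosed]
  intro y hy
  obtain ⟨s, hs, hz, hsum⟩ := y.2.2
  have hex : ∃ v0, 0 < y.1 v0 := by
    by_contra h
    push Not at h
    have h1 : ∑ v ∈ s, y.1 v = 0 :=
      Finset.sum_eq_zero (fun v _ => le_antisymm (h v) (y.2.1 v))
    rw [h1] at hsum
    exact zero_ne_one hsum
  obtain ⟨v0, hv0⟩ := hex
  set ε := y.1 v0 / 2 with hε
  have hεpos : 0 < ε := by positivity
  have hcomp : IsCompact (Z ∩ sdMap K ⁻¹' {y : K.Real | ε ≤ y.1 v0}) :=
    (preimage_compact K v0 ε hεpos).inter_left hZ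
  have hcl : IsClosed (sdMap K '' (Z ∩ sdMap K ⁻¹' {y : K.Real | ε ≤ y.1 v0})) :=
    (hcomp.image (sdMap_continuous K)).isClosed
  have hmem : y ∈ closure (sdMap K '' (Z ∩ sdMap K ⁻¹' {y : K.Real | ε ≤ y.1 v0})) := by
    rw [mem_closure_iff] at hy ⊢
    intro O hO hyO
    have hO' : IsOpen (O ∩ {y : K.Real | ε < y.1 v0}) :=
      hO.inter (isOpen_lt continuous_const (real_coord_continuous K v0))
    obtain ⟨z, ⟨hzO, hzε⟩, t, htZ, rfl⟩ := hy _ hO' ⟨hyO, by
      change ε < y.1 v0
      rw [hε]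
      linarith⟩
    have hzε' : ε ≤ (sdMap K t).1 v0 := le_of_lt hzε
    exact ⟨sdMap K t, hzO, t, ⟨htZ, hzε'⟩, rfl⟩
  rw [hcl.closure_eq] at hmem
  obtain ⟨t, ht, hty⟩ := hmem
  exact ⟨t, ht.1, hty⟩

theorem sd_homeo {V : Type} [DecidableEq V] (K : Cx V) : Nonempty ((sd K).Real ≃ₜ K.Real) :=
  ⟨Equiv.toHomeomorphOfContinuousClosed (Equiv.ofBijective (sdMap K)
    ⟨sdMap_injective K, sdMap_surjective K⟩) (sdMap_continuous K) (sdMap_closed K)⟩

end Pool.Agent.H56.SQ
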