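import Mathlib
import Pool.Agent.H56.SQ.Basic
import Pool.Agent.H56.SQ.Cx
import Pool.Agent.H56.SQ.Sub
import Pool.Agent.H56.SQ.Nerve
import Pool.Agent.H56.SQ.NerveDef
import Pool.Agent.H56.SQ.Cover
import Pool.Agent.H56.SQ.Glue

set_option autoImplicit false

/-!
# SQ-15: assembly

`K` on a countable vertex type, `N = sd K` on `ι = K.faces` (countable), `adj σ τ` = `σ ≠ τ` and comparable.
`exists_boxes` gives the boxes in `KK ι → I`; `X = ⋃ BB i` (subtype), `A i = BB i` as a subset of `X`;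
`X' = |N| × Q`, `A' = DD N`.  `glue` gives `X ≃ |N| × Q ≃ |K| × Q ≃ M`.  The inclusion `X → (KK ι → I)` and a
bijection `KK ι ≃ ℕ` give the embedding and the family `𝒞` of boxes.  `A i ∩ A j` nonempty iff `i = j` or
adjacent; for a finite nonempty `S`: `inter A S` nonempty iff `S` is a clique iff `S ∈ N.faces`.
-/

namespace Pool.Agent.H56.SQ

open unitInterval Set

/-- boxes are closed -/
theorem Final_boxx_closed {κ : Type} (a b : κ → I) : IsClosed (boxx a b) := by
  have e : boxx a b = ⋂ k : κ, {x : κ → I | a k ≤ x k ∧ x k ≤ b k} := by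
    ext x
    simp only [mem_iInter]
    exact Iff.rfl
  rw [e]
  refine isClosed_iInter fun k => ?_
  have e1 : {x : κ → I | a k ≤ x k ∧ x k ≤ b k} = {x : κ → I | a k ≤ x k} ∩ {x : κ → I | x k ≤ b k} := rfl
  rw [e1]
  exact (isClosed_le continuous_const (continuous_apply k)).inter
    (isClosed_le (continuous_apply k) continuous_const)

/-- the comparison relation on the simplices -/
def Final_adj {V : Type} (K : Cx V) (s t : K.faces) : Prop :=
  s ≠ t ∧ ((s : Finset V) ⊆ t ∨ (t : Finset V) ⊆ s)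

theorem Final_adj_fin {V : Type} (K : Cx V) (s : K.faces) : {t | Final_adj K s t}.Finite := by
  obtain ⟨v, hv⟩ := K.nonempty_of_mem s s.2
  have h1 : ({t ∈ K.faces | v ∈ t} ∪ (((s : Finset V).powerset : Finset (Finset V)) : Set (Finset V))).Finite :=
    (K.locally_finite v).union (Finset.finite_toSet _)
  refine (h1.preimage (f := (Subtype.val : K.faces → Finset V)) Subtype.val_injective.injOn).subset ?_
  rintro t ⟨_, h | h⟩
  · exact Or.inl ⟨t.2, h hv⟩
  · exact Or.inr (Finset.mem_coe.2 (Finset.mem_powerset.2 h))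

/-- cliques are the simplices of the subdivision -/
theorem Final_clique {V : Type} (K : Cx V) (S : Finset K.faces) (hS : S.Nonempty) :
    S ∈ (sd K).faces ↔ ∀ i ∈ S, ∀ j ∈ S, i ≠ j → Final_adj K i j := by
  constructor
  · intro h i hi j hj hij
    exact ⟨hij, h.2 i hi j hj⟩
  · intro h
    refine ⟨hS, fun i hi j hj => ?_⟩
    by_cases hij : i = j
    · subst hij
      exact Or.inl fun _ hx => hx
    · exact (h i hi j hj hij).2

/-- intersections in the union -/
def Final_inter {ι Y : Type} [TopologicalSpace Y] (B : ι → Set Y) (S : Finset ι) (hS : S.Nonempty) :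
    inter B S ≃ₜ inter (fun i => (Subtype.val ⁻¹' (B i) : Set (⋃ i, B i : Set Y))) S where
  toFun y := ⟨⟨y.1, by
    obtain ⟨i, hi⟩ := hS
    exact mem_iUnion.2 ⟨i, y.2 i hi⟩⟩, fun i hi => y.2 i hi⟩
  invFun x := ⟨x.1.1, fun i hi => x.2 i hi⟩
  left_inv _ := rfl
  right_inv _ := rfl
  continuous_toFun := by
    refine Continuous.subtype_mk (Continuous.subtype_mk continuous_subtype_val _) _
  continuous_invFun := by
    refine Continuous.subtype_mk (continuous_subtype_val.comp continuous_subtype_val) _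

theorem Final_defic {ι Y : Type} [TopologicalSpace Y] (B : ι → Set Y) (S : Finset ι) (hS : S.Nonempty)
    (h : Defic (bd B S)) : Defic (bd (fun i => (Subtype.val ⁻¹' (B i) : Set (⋃ i, B i : Set Y))) S) := by
  refine (h.image (Final_inter B S hS)).mono ?_
  rintro x ⟨j, hj, hx⟩
  refine ⟨(Final_inter B S hS).symm x, ⟨j, hj, hx⟩, ?_⟩
  exact (Final_inter B S hS).apply_symm_apply x

/-- the union of the boxes -/
theorem Final_glue {V : Type} (K : Cx V) (lo hi : K.faces → KK K.faces → I)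
    (hdis : ∀ i j, i ≠ j → ¬ Final_adj K i j → boxx (lo i) (hi i) ∩ boxx (lo j) (hi j) = ∅)
    (hne : ∀ S : Finset K.faces, S.Nonempty → (∀ i ∈ S, ∀ j ∈ S, i ≠ j → Final_adj K i j) →
        (inter (fun i => boxx (lo i) (hi i)) S).Nonempty)
    (hdef : ∀ S : Finset K.faces, S.Nonempty → (∀ i ∈ S, ∀ j ∈ S, i ≠ j → Final_adj K i j) →
        Defic (bd (fun i => boxx (lo i) (hi i)) S))
    (hlf : ∀ x ∈ ⋃ i, boxx (lo i) (hi i), ∃ O : Set (KK K.faces → I), IsOpen O ∧ x ∈ O ∧
        {j | (O ∩ boxx (lo j) (hi j)).Nonempty}.Finite) :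
    Nonempty ((⋃ i, boxx (lo i) (hi i) : Set (KK K.faces → I)) ≃ₜ (sd K).Real × Q) := by
  classical
  set B : K.faces → Set (KK K.faces → I) := fun i => boxx (lo i) (hi i) with hB
  have hcl : ∀ S : Finset K.faces, S.Nonempty →
      (inter (fun i => (Subtype.val ⁻¹' (B i) : Set (⋃ i, B i : Set (KK K.faces → I)))) S).Nonempty →
      S ∈ (sd K).faces := by
    rintro S hS ⟨x, hx⟩
    rw [Final_clique K S hS]
    intro i hi' j hj hij
    by_contra hc
    have h1 := hdis i j hij hc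
    have h2 : (x : KK K.faces → I) ∈ boxx (lo i) (hi i) ∩ boxx (lo j) (hi j) := ⟨hx i hi', hx j hj⟩
    rw [h1] at h2
    exact h2
  refine glue (X := (⋃ i, B i : Set (KK K.faces → I)))
    (fun i => (Subtype.val ⁻¹' (B i) : Set (⋃ i, B i : Set (KK K.faces → I)))) (DD (sd K))
    (fun i => (Final_boxx_closed _ _).preimage continuous_subtype_val) (DD_closed _) ?_ (DD_locallyFinite _)
    ?_ (DD_cover _) ?_ ?_ ?_ ?_
  · intro x
    obtain ⟨O, hO, hxO, hf⟩ := hlf x.1 x.2
    refine ⟨Subtype.val ⁻¹' O, (hO.preimage continuous_subtype_val).mem_nhds hxO, hf.subset ?_⟩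
    rintro j ⟨y, hy1, hy2⟩
    exact ⟨y.1, hy2, hy1⟩
  · rintro ⟨x, hx⟩
    obtain ⟨i, hi'⟩ := mem_iUnion.1 hx
    exact ⟨i, hi'⟩
  · intro i
    refine ((Final_adj_fin K i).union (finite_singleton i)).subset ?_
    rintro j ⟨y, hy1, hy2⟩
    by_cases hij : j = i
    · exact Or.inr hij
    · refine Or.inl ?_
      by_contra hc
      have h1 := hdis i j (fun h => hij h.symm) hc
      have h2 : (y : KK K.faces → I) ∈ boxx (lo i) (hi i) ∩ boxx (lo j) (hi j) := ⟨hy1, hy2⟩
      rw [h1] at h2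
      exact h2
  · intro S hS
    rw [DD_nerve _ S hS]
    refine ⟨hcl S hS, fun h => ?_⟩
    obtain ⟨x, hx⟩ := hne S hS ((Final_clique K S hS).1 h)
    exact ⟨_, (Final_inter B S hS ⟨x, hx⟩).2⟩
  · intro S hS h
    exact Final_defic B S hS (hdef S hS ((Final_clique K S hS).1 (hcl S hS h)))
  · intro S hS h
    exact DD_defic _ S ((DD_nerve _ S hS).1 h)

theorem main {V : Type} [Countable V] (K : Cx V) (M : Type) [TopologicalSpace M]
    (h : Nonempty (M ≃ₜ K.Real × (ℕ → Set.Icc (0:ℝ) 1))) :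
    ∃ f : M → (ℕ → Set.Icc (0:ℝ) 1), Topology.IsEmbedding f ∧
      ∃ 𝒞 : Set (Set (ℕ → Set.Icc (0:ℝ) 1)),
        (∀ B ∈ 𝒞, ∃ a b : ℕ → ℝ, (∀ i, 0 ≤ a i ∧ a i < b i ∧ b i ≤ 1) ∧
          {i : ℕ | a i ≠ 0 ∨ b i ≠ 1}.Finite ∧
          B = {x | ∀ i, a i ≤ (x i : ℝ) ∧ (x i : ℝ) ≤ b i}) ∧
        (∀ B ∈ 𝒞, {D ∈ 𝒞 | (B ∩ D).Nonempty}.Finite) ∧
        Set.range f = ⋃₀ 𝒞 := by
  classical
  obtain ⟨h0⟩ := h
  have : Countable K.faces := inferInstance
  obtain ⟨lo, hi, hlt, hfin, hdis, hne, hdef, hlf⟩ := exists_boxes (Final_adj K)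
    (fun i j h => ⟨fun e => h.1 e.symm, h.2.symm⟩) (fun i h => h.1 rfl) (Final_adj_fin K)
  obtain ⟨g⟩ := Final_glue K lo hi hdis hne hdef hlf
  obtain ⟨g'⟩ := sd_homeo K
  let Φ : M ≃ₜ (⋃ i, boxx (lo i) (hi i) : Set (KK K.faces → I)) :=
    h0.trans ((g'.symm.prodCongr (Homeomorph.refl Q)).trans g.symm)
  obtain ⟨e⟩ : Nonempty (ℕ ≃ KK K.faces) := by
    have : Encodable (KK K.faces) := Encodable.ofCountable _
    have : Infinite (KK K.faces) := inferInstance
    exact ⟨(Denumerable.ofEncodableOfInfinite (KK K.faces)).eqv.symm⟩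
  let E : (KK K.faces → I) ≃ₜ (ℕ → I) :=
    { toFun := fun x n => x (e n)
      invFun := fun y k => y (e.symm k)
      left_inv := fun x => by funext k; simp
      right_inv := fun y => by funext n; simp
      continuous_toFun := continuous_pi fun n => continuous_apply _
      continuous_invFun := continuous_pi fun k => continuous_apply _ }
  let f : M → (ℕ → I) := fun m => E (Φ m).1
  have hf : Topology.IsEmbedding f :=
    E.isEmbedding.comp (Topology.IsEmbedding.subtypeVal.comp Φ.isEmbedding)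
  let C : K.faces → Set (ℕ → I) := fun i => boxx (fun n => lo i (e n)) (fun n => hi i (e n))
  have hC : ∀ i x, E x ∈ C i ↔ x ∈ boxx (lo i) (hi i) := by
    intro i x
    constructor
    · intro hx k
      have := hx (e.symm k)
      simpa [E] using this
    · intro hx n
      exact hx (e n)
  refine ⟨f, hf, range C, ?_, ?_, ?_⟩
  · rintro _ ⟨i, rfl⟩
    refine ⟨fun n => (lo i (e n) : ℝ), fun n => (hi i (e n) : ℝ),
      fun n => ⟨(lo i (e n)).2.1, hlt i (e n), (hi i (e n)).2.2⟩, ?_, ?_⟩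
    · refine ((hfin i).preimage (f := e) e.injective.injOn).subset ?_
      rintro n (hn | hn)
      · refine Or.inl fun hc => hn ?_
        show (lo i (e n) : ℝ) = 0
        rw [hc]
        rfl
      · refine Or.inr fun hc => hn ?_
        show (hi i (e n) : ℝ) = 1
        rw [hc]
        rfl
    · rfl
  · rintro _ ⟨i, rfl⟩
    have h1 : {j | (C i ∩ C j).Nonempty}.Finite := by
      refine ((Final_adj_fin K i).union (finite_singleton i)).subset ?_
      rintro j ⟨y, hy1, hy2⟩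
      by_cases hij : j = i
      · exact Or.inr hij
      · refine Or.inl ?_
        by_contra hc
        have h1 := hdis i j (fun h => hij h.symm) hc
        obtain ⟨x, rfl⟩ := E.surjective y
        have h2 : x ∈ boxx (lo i) (hi i) ∩ boxx (lo j) (hi j) := ⟨(hC i x).1 hy1, (hC j x).1 hy2⟩
        rw [h1] at h2
        exact h2
    refine (h1.image C).subset ?_
    rintro _ ⟨⟨j, rfl⟩, hj⟩
    exact ⟨j, hj, rfl⟩
  · ext y
    obtain ⟨x, rfl⟩ := E.surjective y
    constructor
    · rintro ⟨m, hm⟩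
      obtain ⟨i, hi'⟩ := mem_iUnion.1 (Φ m).2
      have h3 : (Φ m).1 = x := E.injective hm
      rw [h3] at hi'
      exact ⟨C i, ⟨i, rfl⟩, (hC i x).2 hi'⟩
    · rintro ⟨_, ⟨i, rfl⟩, hx⟩
      have h3 : x ∈ ⋃ i, boxx (lo i) (hi i) := mem_iUnion.2 ⟨i, (hC i x).1 hx⟩
      refine ⟨Φ.symm ⟨x, h3⟩, ?_⟩
      show E (Φ (Φ.symm ⟨x, h3⟩)).1 = E x
      rw [Φ.apply_symm_apply]

end Pool.Agent.H56.SQ
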